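import Mathlib
import Pool.Agent.Helper11.Sq.Final

/-!
PROJECT PX (MP_371589_nt, power saving for the number of exceptions). Definitions. DONE.

`rho β x d` is the number of solutions of `β m⁴ ≡ x (mod d)`, `gg β x` its Moebius transform,
`hh P β x q = χ(q) gg(q) / q` for `(q, P) = 1`, `HH P β x D` the truncated singular series,
`Rough z b`: `b` is squarefree and all its prime factors are `> z`,
`RR β x z y` the part of the series over the rough `b ∈ (1, y]`,
`ss w z x`: the primes `p > w` with `p ≤ z` or `p ∣ x`,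
`z0 N = (log₂ N) ^ 10`, `EE X = ⌊X ^ (1/24)⌋`.
-/

set_option autoImplicit false

namespace Pool.Agent.Helper56.PX

open Finset Pool.Agent.Helper11.Sq

/-- number of solutions of `β m⁴ ≡ x` modulo `d` -/
def rho (β : ℕ) (x : ℤ) (d : ℕ) : ℕ :=
  #((range d).filter (fun m : ℕ => (d : ℤ) ∣ x - (β : ℤ) * (m : ℤ) ^ 4))

/-- the Moebius transform of `rho` -/
def gg (β : ℕ) (x : ℤ) (q : ℕ) : ℤ :=
  ∑ d ∈ q.divisors, ArithmeticFunction.moebius (q / d) * (rho β x d : ℤ)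

/-- the summand of the singular series -/
noncomputable def hh (P β : ℕ) (x : ℤ) (q : ℕ) : ℝ :=
  if q.Coprime P then (chi q : ℝ) * (gg β x q : ℝ) / (q : ℝ) else 0

/-- the truncated singular series -/
noncomputable def HH (P β : ℕ) (x : ℤ) (D : ℕ) : ℝ := ∑ q ∈ Icc 1 D, hh P β x q

/-- squarefree, all prime factors `> z` -/
def Rough (z b : ℕ) : Prop := Squarefree b ∧ ∀ p : ℕ, p.Prime → p ∣ b → z < p

open Classical in
/-- the rough part of the series -/
noncomputable def RR (β : ℕ) (x : ℤ) (z y : ℕ) : ℝ :=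
  ∑ b ∈ (Ioc 1 y).filter (Rough z), (chi b : ℝ) * (gg β x b : ℝ) / (b : ℝ)

/-- the primes `p > w` with `p ≤ z` or `p ∣ x` -/
def ss (w z x : ℕ) : Finset ℕ :=
  (range (z + 1) ∪ x.primeFactors).filter (fun p => p.Prime ∧ w < p)

theorem mem_ss {w z x p : ℕ} :
    p ∈ ss w z x ↔ p.Prime ∧ w < p ∧ (p ≤ z ∨ (p ∣ x ∧ x ≠ 0)) := by
  unfold ss
  rw [mem_filter, mem_union, mem_range, Nat.mem_primeFactors]
  constructor
  · rintro ⟨h1 | h1, h2, h3⟩
    · exact ⟨h2, h3, Or.inl (by omega)⟩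
    · exact ⟨h2, h3, Or.inr h1.2⟩
  · rintro ⟨h1, h2, h3 | h3⟩
    · exact ⟨Or.inl (by omega), h1, h2⟩
    · exact ⟨Or.inr ⟨h1, h3⟩, h1, h2⟩

/-- the border of smooth and rough numbers -/
def z0 (N : ℕ) : ℕ := Nat.log 2 N ^ 10

/-- `⌊X ^ (1/24)⌋` -/
def EE (X : ℕ) : ℕ := Nat.findGreatest (fun j => j ^ 24 ≤ X) X

theorem EE_pow_le (X : ℕ) : EE X ^ 24 ≤ X :=
  Nat.findGreatest_spec (P := fun j => j ^ 24 ≤ X) (Nat.zero_le X) (by simp)

theorem lt_EE_pow (X : ℕ) : X < (EE X + 1) ^ 24 := by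
  by_contra hcon
  push Not at hcon
  have h1 : EE X + 1 ≤ X := le_trans (Nat.le_self_pow (by norm_num) _) hcon
  have h2 : EE X + 1 ≤ EE X := Nat.le_findGreatest (P := fun j => j ^ 24 ≤ X) h1 hcon
  omega

end Pool.Agent.Helper56.PX
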