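import Mathlib
import Pool.Agent.Helper56.PX.Defs

/-!
PX-02 RhoMul. Elementary properties of `rho`.

PROOF. `rho_one`: `range 1 = {0}`. `rho_le`: filter of `range d`. `rho_congr`: the two filters agree
(`d ∣ x - t ↔ d ∣ y - t`). `rho_mul`: if `a = 0` then `b = 1` (coprime) and both sides vanish, same for `b = 0`.
Otherwise the map `m ↦ (m % a, m % b)` is a bijection from `range (a b)` onto `range a ×ˢ range b` (injective by
`Nat.ModEq` and coprimality, surjective by `Nat.chineseRemainder`), and `a b ∣ x - β m⁴` iff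
`a ∣ x - β (m % a)⁴` and `b ∣ x - β (m % b)⁴` (`IsCoprime.mul_dvd`; `m⁴ ≡ (m % a)⁴ (mod a)`).
`Finset.card_bij` and `Finset.card_product` (the filter of the product is the product of the filters:
`Finset.filter_product`).
-/

set_option autoImplicit false

namespace Pool.Agent.Helper56.PX

open Finset Pool.Agent.Helper11.Sq

theorem rho_one (β : ℕ) (x : ℤ) : rho β x 1 = 1 := by
  unfold rho
  simp

theorem rho_le (β : ℕ) (x : ℤ) (d : ℕ) : rho β x d ≤ d := by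
  unfold rho
  refine (card_filter_le _ _).trans ?_
  simp

theorem rho_congr (β : ℕ) {x y : ℤ} {d : ℕ} (h : (d : ℤ) ∣ x - y) : rho β x d = rho β y d := by
  unfold rho
  congr 1
  refine filter_congr fun m _ => ?_
  have e : x - (β : ℤ) * (m : ℤ) ^ 4 = (x - y) + (y - (β : ℤ) * (m : ℤ) ^ 4) := by ring
  rw [e]
  exact dvd_add_right h

private theorem dvd_iff_mod (β : ℕ) (x : ℤ) {a m : ℕ} :
    (a : ℤ) ∣ x - (β : ℤ) * (m : ℤ) ^ 4 ↔ (a : ℤ) ∣ x - (β : ℤ) * ((m % a : ℕ) : ℤ) ^ 4 := by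
  have h1 : (a : ℤ) ∣ (m : ℤ) - ((m % a : ℕ) : ℤ) := by
    have h2 : (m : ℤ) - ((m % a : ℕ) : ℤ) = (a : ℤ) * ((m / a : ℕ) : ℤ) := by
      have h3 := Nat.mod_add_div m a
      have h4 : ((m % a : ℕ) : ℤ) + (a : ℤ) * ((m / a : ℕ) : ℤ) = (m : ℤ) := by exact_mod_cast h3
      linarith
    rw [h2]
    exact dvd_mul_right _ _
  have h2 : (a : ℤ) ∣ (β : ℤ) * (m : ℤ) ^ 4 - (β : ℤ) * ((m % a : ℕ) : ℤ) ^ 4 := by
    rw [← mul_sub]
    exact Dvd.dvd.mul_left (h1.trans (sub_dvd_pow_sub_pow _ _ 4)) _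
  have e : x - (β : ℤ) * ((m % a : ℕ) : ℤ) ^ 4 = ((β : ℤ) * (m : ℤ) ^ 4 -
      (β : ℤ) * ((m % a : ℕ) : ℤ) ^ 4) + (x - (β : ℤ) * (m : ℤ) ^ 4) := by ring
  rw [e]
  exact (dvd_add_right h2).symm

theorem rho_mul (β : ℕ) (x : ℤ) {a b : ℕ} (h : a.Coprime b) :
    rho β x (a * b) = rho β x a * rho β x b := by
  rcases Nat.eq_zero_or_pos a with ha | ha
  · subst ha
    simp [rho]
  rcases Nat.eq_zero_or_pos b with hb | hb
  · subst hb
    simp [rho]
  unfold rho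
  rw [← card_product, ← filter_product]
  have hab : IsCoprime (a : ℤ) (b : ℤ) := Nat.isCoprime_iff_coprime.2 h
  have key : ∀ m : ℕ, (((a * b : ℕ) : ℤ) ∣ x - (β : ℤ) * (m : ℤ) ^ 4) ↔
      ((a : ℤ) ∣ x - (β : ℤ) * ((m % a : ℕ) : ℤ) ^ 4) ∧
      ((b : ℤ) ∣ x - (β : ℤ) * ((m % b : ℕ) : ℤ) ^ 4) := by
    intro m
    rw [← dvd_iff_mod, ← dvd_iff_mod]
    constructor
    · intro hd
      rw [Nat.cast_mul] at hd
      exact ⟨(dvd_mul_right _ _).trans hd, (dvd_mul_left _ _).trans hd⟩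
    · rintro ⟨h1, h2⟩
      rw [Nat.cast_mul]
      exact hab.mul_dvd h1 h2
  refine card_bij (fun m _ => (m % a, m % b)) ?_ ?_ ?_
  · intro m hm
    rw [mem_filter] at hm
    rw [mem_filter, mem_product, mem_range, mem_range]
    exact ⟨⟨Nat.mod_lt _ ha, Nat.mod_lt _ hb⟩, (key m).1 hm.2⟩
  · intro m hm m' hm' he
    rw [mem_filter, mem_range] at hm hm'
    rw [Prod.mk.injEq] at he
    have h1 : m ≡ m' [MOD a * b] := (Nat.modEq_and_modEq_iff_modEq_mul h).1 he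
    exact Nat.ModEq.eq_of_lt_of_lt h1 hm.1 hm'.1
  · rintro ⟨u, v⟩ huv
    rw [mem_filter, mem_product, mem_range, mem_range] at huv
    obtain ⟨⟨hu, hv⟩, h1, h2⟩ := huv
    obtain ⟨k, hk1, hk2⟩ := Nat.chineseRemainder h u v
    have e1 : (k % (a * b)) % a = u := by
      rw [Nat.mod_mul_right_mod, Nat.ModEq] at *
      rw [hk1, Nat.mod_eq_of_lt hu]
    have e2 : (k % (a * b)) % b = v := by
      rw [Nat.mod_mul_left_mod]
      rw [Nat.ModEq] at hk2
      rw [hk2, Nat.mod_eq_of_lt hv]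
    refine ⟨k % (a * b), ?_, ?_⟩
    · rw [mem_filter, mem_range]
      refine ⟨Nat.mod_lt _ (Nat.mul_pos ha hb), (key _).2 ?_⟩
      rw [e1, e2]
      exact ⟨h1, h2⟩
    · rw [Prod.mk.injEq]
      exact ⟨e1, e2⟩

end Pool.Agent.Helper56.PX
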