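import Mathlib
import Pool.Agent.Helper56.PX.RhoMul

/-!
PX-19 CountAP. Number of `j < J` with `d ∣ x - β (k₀ + P j)⁴`.

PROOF. The condition depends on `j` modulo `d` only, through `m = (k₀ + P j) % d`. As `(d, P) = 1`, for every block of `d`
consecutive `j` the map `j ↦ (k₀ + P j) % d` is a bijection onto `range d`, so the block contains exactly `rho β x d`
solutions (`F β k₀ P j = β (k₀ + P j)^4`). Write `J = d t + r`, `r < d`: the count is `t rho + e` with `0 ≤ e ≤ rho`
(the last incomplete block is contained in a complete one), and `J rho / d = t rho + r rho / d`, `0 ≤ r rho / d ≤ rho`. So the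
difference is at most `rho ≤ d` (`rho_le`). Formally: induction on `J` with step `d` (`J < d`: `0 ≤ count ≤ rho`,
`0 ≤ J rho / d ≤ rho`; `J + d`: both sides grow by `rho`), or `Nat.count` / `Nat.filter_multiset`.
-/

set_option autoImplicit false

namespace Pool.Agent.Helper56.PX

open Finset Pool.Agent.Helper11.Sq

private lemma F_sub_dvd {β k₀ P d : ℕ} {a b : ℕ} (h : (d : ℤ) ∣ ((k₀ + P * a : ℕ) : ℤ) - (b : ℤ)) :
    (d : ℤ) ∣ (F β k₀ P a : ℤ) - (β : ℤ) * (b : ℤ) ^ 4 := by
  have h1 : (F β k₀ P a : ℤ) - (β : ℤ) * (b : ℤ) ^ 4 =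
      (β : ℤ) * (((k₀ + P * a : ℕ) : ℤ) ^ 4 - (b : ℤ) ^ 4) := by
    unfold F
    push_cast
    ring
  rw [h1]
  exact Dvd.dvd.mul_left (h.trans (sub_dvd_pow_sub_pow _ _ 4)) _

private lemma iff_of_dvd_sub {d x y z : ℤ} (h : d ∣ y - z) : d ∣ x - y ↔ d ∣ x - z := by
  constructor
  · intro h1
    have h2 : x - z = (x - y) + (y - z) := by ring
    rw [h2]
    exact dvd_add h1 h
  · intro h1
    have h2 : x - y = (x - z) - (y - z) := by ring
    rw [h2]
    exact dvd_sub h1 h

private lemma count_block {β k₀ P d : ℕ} (hd : 0 < d) (hP : d.Coprime P) (x : ℤ) :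
    #((range d).filter (fun j : ℕ => (d : ℤ) ∣ x - (F β k₀ P j : ℤ))) = rho β x d := by
  classical
  obtain ⟨f, hf⟩ : ∃ f : ℕ → ℕ, f = fun j => (k₀ + P * j) % d := ⟨_, rfl⟩
  have hinj : Set.InjOn f (range d : Finset ℕ) := by
    intro i hi j hj hij
    rw [Finset.mem_coe, mem_range] at hi hj
    rw [hf] at hij
    simp only at hij
    have h1 : P * i ≡ P * j [MOD d] := Nat.ModEq.add_left_cancel' k₀ hij
    have h2 : i ≡ j [MOD d] := Nat.ModEq.cancel_left_of_coprime hP h1
    have h3 : i % d = j % d := h2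
    rwa [Nat.mod_eq_of_lt hi, Nat.mod_eq_of_lt hj] at h3
  have himg : (range d).image f = range d := by
    refine Finset.eq_of_subset_of_card_le ?_ ?_
    · intro b hb
      rw [mem_image] at hb
      obtain ⟨j, -, rfl⟩ := hb
      rw [hf, mem_range]
      exact Nat.mod_lt _ hd
    · rw [Finset.card_image_of_injOn hinj]
  have hkey : ∀ j, (d : ℤ) ∣ x - (F β k₀ P j : ℤ) ↔ (d : ℤ) ∣ x - (β : ℤ) * ((f j : ℕ) : ℤ) ^ 4 := by
    intro j
    refine iff_of_dvd_sub (F_sub_dvd ?_)
    rw [hf]
    simp only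
    have h1 := Nat.div_add_mod (k₀ + P * j) d
    refine ⟨((k₀ + P * j) / d : ℕ), ?_⟩
    have h2 : ((k₀ + P * j : ℕ) : ℤ) = (d : ℤ) * (((k₀ + P * j) / d : ℕ) : ℤ) +
        (((k₀ + P * j) % d : ℕ) : ℤ) := by exact_mod_cast h1.symm
    rw [h2]
    ring
  unfold rho
  have himg2 : (range d).filter (fun m : ℕ => (d : ℤ) ∣ x - (β : ℤ) * (m : ℤ) ^ 4) =
      ((range d).filter (fun j : ℕ => (d : ℤ) ∣ x - (F β k₀ P j : ℤ))).image f := by
    ext m
    rw [mem_filter, mem_image]
    constructor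
    · rintro ⟨h1, h2⟩
      rw [← himg, mem_image] at h1
      obtain ⟨j, hj, rfl⟩ := h1
      exact ⟨j, mem_filter.mpr ⟨hj, (hkey j).mpr h2⟩, rfl⟩
    · rintro ⟨j, hj, rfl⟩
      rw [mem_filter] at hj
      refine ⟨?_, (hkey j).mp hj.2⟩
      rw [← himg]
      exact mem_image_of_mem f hj.1
  rw [himg2, Finset.card_image_of_injOn]
  exact hinj.mono (by
    intro j hj
    rw [Finset.mem_coe, mem_filter] at hj
    exact hj.1)

theorem count_ap {β k₀ P d : ℕ} (hd : 0 < d) (hP : d.Coprime P) (x : ℤ) (J : ℕ) :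
    |(#((range J).filter (fun j : ℕ => (d : ℤ) ∣ x - (F β k₀ P j : ℤ))) : ℝ) -
      (J : ℝ) * (rho β x d : ℝ) / d| ≤ d := by
  classical
  have hd0 : (0 : ℝ) < d := by exact_mod_cast hd
  have hrd : (rho β x d : ℝ) ≤ d := by exact_mod_cast rho_le β x d
  have hr0 : (0 : ℝ) ≤ rho β x d := Nat.cast_nonneg _
  obtain ⟨p, hp⟩ : ∃ p : ℕ → Prop, p = fun j : ℕ => (d : ℤ) ∣ x - (F β k₀ P j : ℤ) := ⟨_, rfl⟩
  have hC : ∀ J : ℕ, #((range J).filter (fun j : ℕ => (d : ℤ) ∣ x - (F β k₀ P j : ℤ))) =
      Nat.count p J := by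
    intro J
    rw [Nat.count_eq_card_filter_range, hp]
    congr
  have hper : Function.Periodic p d := by
    intro j
    rw [hp]
    simp only [eq_iff_iff]
    refine iff_of_dvd_sub ?_
    have h1 := F_sub_dvd (β := β) (k₀ := k₀) (P := P) (d := d) (a := j + d) (b := k₀ + P * j)
      ⟨(P : ℤ), by push_cast; ring⟩
    have h2 : (F β k₀ P j : ℤ) = (β : ℤ) * ((k₀ + P * j : ℕ) : ℤ) ^ 4 := by
      unfold F
      push_cast
      ring
    rw [h2]
    exact h1
  have hblock : Nat.count p d = rho β x d := by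
    rw [← hC d]
    exact count_block hd hP x
  have hstep : ∀ J : ℕ, Nat.count p (J + d) = Nat.count p J + rho β x d := by
    intro J
    rw [Nat.count_add, ← hblock]
    congr 1
    have h1 := Nat.filter_Ico_card_eq_of_periodic J d p hper
    rw [← h1, Nat.count_eq_card_filter_range]
    refine Finset.card_bij (fun j _ => J + j) ?_ ?_ ?_
    · intro j hj
      rw [mem_filter, mem_range] at hj
      rw [mem_filter, mem_Ico]
      exact ⟨⟨by omega, by omega⟩, hj.2⟩
    · intro a _ b _ h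
      omega
    · intro b hb
      rw [mem_filter, mem_Ico] at hb
      refine ⟨b - J, ?_, by omega⟩
      rw [mem_filter, mem_range]
      refine ⟨by omega, ?_⟩
      rw [show J + (b - J) = b by omega]
      exact hb.2
  have hmain : ∀ J : ℕ, |((Nat.count p J : ℕ) : ℝ) - (J : ℝ) * (rho β x d : ℝ) / d| ≤ rho β x d := by
    intro J
    induction J using Nat.strong_induction_on with
    | _ J ih =>
      rcases lt_or_ge J d with h | h
      · have h1 : (Nat.count p J : ℝ) ≤ rho β x d := by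
          have := Nat.count_monotone p h.le
          rw [hblock] at this
          exact_mod_cast this
        have h2 : (0 : ℝ) ≤ (Nat.count p J : ℝ) := Nat.cast_nonneg _
        have h3 : (0 : ℝ) ≤ (J : ℝ) * (rho β x d : ℝ) / d := by positivity
        have h4 : (J : ℝ) * (rho β x d : ℝ) / d ≤ rho β x d := by
          rw [div_le_iff₀ hd0, mul_comm]
          refine mul_le_mul_of_nonneg_left ?_ hr0
          exact_mod_cast h.le
        rw [abs_le]
        constructor <;> linarith
      · obtain ⟨J', rfl⟩ : ∃ J', J = J' + d := ⟨J - d, by omega⟩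
        have h1 := ih J' (by omega)
        rw [hstep J']
        have h2 : (((Nat.count p J' + rho β x d : ℕ) : ℝ)) - ((J' + d : ℕ) : ℝ) * (rho β x d : ℝ) / d =
            (Nat.count p J' : ℝ) - (J' : ℝ) * (rho β x d : ℝ) / d := by
          push_cast
          field_simp
          ring
        rw [h2]
        exact h1
  rw [hC J]
  exact (hmain J).trans hrd

end Pool.Agent.Helper56.PX
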