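import Mathlib
import Pool.Agent.Helper56.PX.RhoMul

/-!
PX-03 GG. Elementary properties of `gg = μ * rho`.

PROOF. `gg` is the Dirichlet convolution of the arithmetic functions `μ` and `rho` (`rho β x 0 = 0`), both
multiplicative (`rho_one`, `rho_mul`): `ArithmeticFunction.mul_apply`, `Nat.sum_divisorsAntidiagonal'` or
`Nat.sum_divisorsAntidiagonal`, `ArithmeticFunction.isMultiplicative_moebius`, `IsMultiplicative.mul`.
`gg_mul` follows also if one of the numbers is `0` (then the other one is `1`; `gg 0 = 0`, `gg 1 = 1`).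
`gg_congr`: `rho_congr` for every `d ∣ q`. `gg_prime_pow`: the divisors of `p^(k+1)` are the `p^i`, `i ≤ k+1`
(`Nat.sum_divisors_prime_pow` / `Nat.divisors_prime_pow`), `μ(p^(k+1-i)) = 0` unless `k + 1 - i ≤ 1`.
`gg_prime`: `k = 0`, `rho_one`. `abs_gg_le`: `|μ| ≤ 1`, `rho β x d ≤ d ≤ q`, and at most `q` divisors.
-/

set_option autoImplicit false

namespace Pool.Agent.Helper56.PX

open Finset Pool.Agent.Helper11.Sq

private def rrA (β : ℕ) (x : ℤ) : ArithmeticFunction ℤ :=
  ⟨fun d => (rho β x d : ℤ), by simp [rho]⟩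

private theorem rrA_apply (β : ℕ) (x : ℤ) (d : ℕ) : rrA β x d = (rho β x d : ℤ) := rfl

private theorem rrA_mult (β : ℕ) (x : ℤ) : (rrA β x).IsMultiplicative := by
  refine ⟨?_, ?_⟩
  · rw [rrA_apply, rho_one]
    rfl
  · intro m n h
    rw [rrA_apply, rrA_apply, rrA_apply, rho_mul β x h]
    push_cast
    rfl

private theorem gg_eq (β : ℕ) (x : ℤ) (q : ℕ) :
    gg β x q = (ArithmeticFunction.moebius * rrA β x) q := by
  rw [ArithmeticFunction.mul_apply]
  unfold gg
  exact (Nat.sum_divisorsAntidiagonal' (fun i j => ArithmeticFunction.moebius i * rrA β x j)).symm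

private theorem gg_mult (β : ℕ) (x : ℤ) :
    (ArithmeticFunction.moebius * rrA β x).IsMultiplicative :=
  ArithmeticFunction.isMultiplicative_moebius.mul (rrA_mult β x)

theorem gg_one (β : ℕ) (x : ℤ) : gg β x 1 = 1 := by
  rw [gg_eq]
  exact (gg_mult β x).1

theorem gg_mul (β : ℕ) (x : ℤ) {a b : ℕ} (h : a.Coprime b) :
    gg β x (a * b) = gg β x a * gg β x b := by
  rw [gg_eq, gg_eq, gg_eq]
  exact (gg_mult β x).2 h

theorem gg_congr (β : ℕ) {x y : ℤ} {q : ℕ} (h : (q : ℤ) ∣ x - y) : gg β x q = gg β y q := by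
  unfold gg
  refine Finset.sum_congr rfl fun d hd => ?_
  have hdq : (d : ℤ) ∣ (q : ℤ) := by exact_mod_cast Nat.dvd_of_mem_divisors hd
  rw [rho_congr β (hdq.trans h)]

theorem gg_prime_pow (β : ℕ) (x : ℤ) {p : ℕ} (hp : p.Prime) (k : ℕ) :
    gg β x (p ^ (k + 1)) = (rho β x (p ^ (k + 1)) : ℤ) - rho β x (p ^ k) := by
  unfold gg
  rw [Nat.sum_divisors_prime_pow hp, Finset.sum_range_succ, Finset.sum_range_succ]
  have h0 : ∑ i ∈ range k, ArithmeticFunction.moebius (p ^ (k + 1) / p ^ i) *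
      (rho β x (p ^ i) : ℤ) = 0 := by
    refine Finset.sum_eq_zero fun i hi => ?_
    rw [Finset.mem_range] at hi
    rw [Nat.pow_div (by omega) hp.pos, ArithmeticFunction.moebius_eq_zero_of_not_squarefree,
      zero_mul]
    intro hsq
    have h1 := hsq p (by
      have : p * p = p ^ 2 := (sq p).symm
      rw [this]
      exact pow_dvd_pow p (by omega))
    exact hp.one_lt.ne' (Nat.isUnit_iff.1 h1)
  have h1 : p ^ (k + 1) / p ^ k = p := by
    rw [Nat.pow_div (by omega) hp.pos]
    have : k + 1 - k = 1 := by omega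
    rw [this, pow_one]
  rw [h0, h1, Nat.div_self (pow_pos hp.pos _), ArithmeticFunction.moebius_apply_one,
    ArithmeticFunction.moebius_apply_prime hp]
  ring

theorem gg_prime (β : ℕ) (x : ℤ) {p : ℕ} (hp : p.Prime) : gg β x p = (rho β x p : ℤ) - 1 := by
  have h := gg_prime_pow β x hp 0
  rw [zero_add, pow_one, pow_zero, rho_one] at h
  simpa using h

theorem abs_gg_le (β : ℕ) (x : ℤ) (q : ℕ) : |gg β x q| ≤ (q : ℤ) ^ 2 := by
  unfold gg
  refine (Finset.abs_sum_le_sum_abs _ _).trans ?_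
  have h1 : ∀ d ∈ q.divisors, |ArithmeticFunction.moebius (q / d) * (rho β x d : ℤ)| ≤ (q : ℤ) := by
    intro d hd
    rw [abs_mul]
    have h2 : |ArithmeticFunction.moebius (q / d)| ≤ 1 := ArithmeticFunction.abs_moebius_le_one
    have h3 : |(rho β x d : ℤ)| ≤ (q : ℤ) := by
      rw [abs_of_nonneg (by positivity)]
      exact_mod_cast (rho_le β x d).trans (Nat.divisor_le hd)
    calc |ArithmeticFunction.moebius (q / d)| * |(rho β x d : ℤ)|
        ≤ 1 * (q : ℤ) := mul_le_mul h2 h3 (abs_nonneg _) zero_le_one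
      _ = q := one_mul _
  refine (Finset.sum_le_sum h1).trans ?_
  rw [Finset.sum_const, nsmul_eq_mul, sq]
  refine mul_le_mul_of_nonneg_right ?_ (by positivity)
  exact_mod_cast Nat.card_divisors_le_self q

end Pool.Agent.Helper56.PX
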