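import Mathlib
import Pool.Agent.Helper56.PX.Defs

/-!
PX-20 Ram. Ramanujan sums.

PROOF. Put `c(1) = 1` and, for `q ≥ 2`, `c(q) = ` the left side. For `d ≥ 1`: `∑_{q ∣ d} c(q) = d` if `d ∣ m`, else `0`:
`group_one` (Helper11/Sq/Farey) with `f q b = ee (b (m / q))` (`f (e q) (e b) = f q b` for `e > 0`) gives
`∑_{b ∈ Ico 1 d} ee (b m / d) = ∑_{q ∣ d, q ≥ 2} c(q)`, and `sum_ee_eq` (see the proof of `ind_eq` in Helper11/Sq/Mom):
`∑_{b ∈ range d} ee (b m / d) = d` or `0`; the term `b = 0` is `1`. Moebius inversion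
(`ArithmeticFunction.sum_eq_iff_sum_mul_moebius_eq` or `..._smul_...`) with values in `ℂ`:
`c(q) = ∑_{d ∣ q} μ(q/d) (d if d ∣ m else 0)`.
-/

set_option autoImplicit false

namespace Pool.Agent.Helper56.PX

open Finset Pool.Agent.Helper10 Pool.Agent.Helper11.Sq

private theorem ram_sum (m : ℤ) (d : ℕ) (hd : 0 < d) :
    ∑ q ∈ d.divisors, (if q = 1 then (1 : ℂ) else
      ∑ b ∈ (Ico 1 q).filter (fun b => b.Coprime q), ee ((b : ℝ) * ((m : ℝ) / q))) =
      if (d : ℤ) ∣ m then (d : ℂ) else 0 := by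
  rw [← sum_ee_eq d hd m]
  have h1 : ∑ a ∈ range d, ee ((a : ℝ) * ((m : ℝ) / d)) =
      1 + ∑ b ∈ Ico 1 d, ee ((b : ℝ) * ((m : ℝ) / d)) := by
    rw [Finset.range_eq_Ico, Finset.sum_eq_sum_Ico_succ_bot hd]
    congr 1
    rw [Nat.cast_zero, zero_mul]
    unfold ee
    simp
  have h2 := group_one d hd (fun q b => ee ((b : ℝ) * ((m : ℝ) / q))) (by
    intro e q b he
    have heR : (e : ℝ) ≠ 0 := by exact_mod_cast he.ne'
    change ee (((e * b : ℕ) : ℝ) * ((m : ℝ) / ((e * q : ℕ) : ℝ))) = ee ((b : ℝ) * ((m : ℝ) / q))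
    congr 1
    push_cast
    rcases eq_or_ne (q : ℝ) 0 with hq | hq
    · rw [hq]
      simp
    · field_simp)
  rw [h1, h2]
  have h3 : d.divisors = insert 1 ((Icc 2 d).filter (fun q => q ∣ d)) := by
    ext q
    rw [Nat.mem_divisors, Finset.mem_insert, Finset.mem_filter, Finset.mem_Icc]
    constructor
    · rintro ⟨h, _⟩
      have := Nat.le_of_dvd hd h
      have := Nat.pos_of_dvd_of_pos h hd
      by_cases h1 : q = 1
      · exact Or.inl h1
      · exact Or.inr ⟨⟨by omega, by omega⟩, h⟩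
    · rintro (h | h)
      · rw [h]
        exact ⟨one_dvd _, hd.ne'⟩
      · exact ⟨h.2, hd.ne'⟩
  rw [h3, Finset.sum_insert (by
    rw [Finset.mem_filter, Finset.mem_Icc]
    omega), if_pos rfl]
  congr 1
  refine Finset.sum_congr rfl fun q hq => ?_
  rw [Finset.mem_filter, Finset.mem_Icc] at hq
  rw [if_neg (by omega)]

theorem ramanujan {q : ℕ} (hq : 2 ≤ q) (m : ℤ) :
    ∑ b ∈ (Ico 1 q).filter (fun b => b.Coprime q), ee ((b : ℝ) * ((m : ℝ) / q)) =
      ∑ d ∈ q.divisors, ((ArithmeticFunction.moebius (q / d) : ℤ) : ℂ) *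
        (if (d : ℤ) ∣ m then (d : ℂ) else 0) := by
  have h := (ArithmeticFunction.sum_eq_iff_sum_mul_moebius_eq (R := ℂ)
    (f := fun q => if q = 1 then (1 : ℂ) else
      ∑ b ∈ (Ico 1 q).filter (fun b => b.Coprime q), ee ((b : ℝ) * ((m : ℝ) / q)))
    (g := fun d => if (d : ℤ) ∣ m then (d : ℂ) else 0)).1 (fun d hd => ram_sum m d hd) q (by omega)
  rw [if_neg (by omega)] at h
  rw [← h]
  exact Nat.sum_divisorsAntidiagonal' (fun a b => ((ArithmeticFunction.moebius a : ℤ) : ℂ) *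
    (if (b : ℤ) ∣ m then (b : ℂ) else 0))

end Pool.Agent.Helper56.PX
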