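import Mathlib
import Pool.Agent.Helper56.PX.Ram
import Pool.Agent.Helper56.PX.CountAP
import Pool.Agent.Helper56.PX.GG

/-!
PX-21 PieceOne. The piece with small denominators.

PROOF. `Piece ... 1 D u = ∑_{q ∈ Ioc 1 D} cq P z q * ∑_b ∑_j ee (b (mm_j / q))` (definitions `Piece`, `ff` in
Helper11/Sq/Mom). `cq P z q = 0` if `(q, P) ≠ 1` (`cq_zero`). For `(q, P) = 1`, `2 ≤ q ≤ D`: exchange `b` and `j`, `ramanujan`:
`∑_b ∑_j ee = ∑_{d ∣ q} μ(q/d) d #{j < J : d ∣ mm_j}`, and `mm_j = x - F β k₀ P j` with `x = α (a + P u)`. By `count_ap`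
(`d ∣ q` is coprime to `P`) this differs from `∑_{d ∣ q} μ(q/d) J rho β x d = J gg β x q` by at most
`∑_{d ∣ q} d * d ≤ 2 q²` (`∑_{d ∣ q} d² = ∑_{e ∣ q} (q/e)² ≤ q² ∑_{e=1}^q 1/e² ≤ 2 q²`; `∑_{e=1}^q 1/e² ≤ 2 - 1/q`).
`cq P z q = χ(q)/q Lam P (z/q)` (`cq_eq`), `‖cq P z q‖ ≤ B/q` (`norm_cq_le`). Total error
`∑_{q ≤ D} (B/q) 2 q² = 2 B ∑_{2 ≤ q ≤ D} q ≤ 2 B D²`.
-/

set_option autoImplicit false

namespace Pool.Agent.Helper56.PX

open Finset Pool.Agent.Helper10 Pool.Agent.Helper11.Sq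

private lemma sum_inv_sq (q : ℕ) (hq : 1 ≤ q) : ∑ e ∈ Icc 1 q, (((e : ℕ) : ℝ) ^ 2)⁻¹ ≤ 2 := by
  have h1 : Icc 1 q = insert 1 (Ioc 1 q) := by
    ext e
    simp only [mem_insert, mem_Icc, mem_Ioc]
    omega
  rw [h1, Finset.sum_insert (by simp)]
  have h2 := sum_Ioc_inv_sq_le_sub (α := ℝ) (k := 1) (n := q) one_ne_zero hq
  have h3 : (0 : ℝ) ≤ ((q : ℕ) : ℝ)⁻¹ := by positivity
  simp only [Nat.cast_one, one_pow, inv_one] at h2 ⊢
  linarith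

private lemma sum_sq_div (q : ℕ) (hq : 1 ≤ q) : ∑ d ∈ q.divisors, ((d : ℕ) : ℝ) ^ 2 ≤ 2 * (q : ℝ) ^ 2 := by
  have h1 : ∑ d ∈ q.divisors, ((d : ℕ) : ℝ) ^ 2 = ∑ d ∈ q.divisors, (((q / d : ℕ) : ℕ) : ℝ) ^ 2 :=
    (Nat.sum_div_divisors q (fun d => ((d : ℕ) : ℝ) ^ 2)).symm
  rw [h1]
  have h2 : ∀ d ∈ q.divisors, (((q / d : ℕ) : ℕ) : ℝ) ^ 2 ≤ (q : ℝ) ^ 2 * (((d : ℕ) : ℝ) ^ 2)⁻¹ := by
    intro d hd
    have hd' := Nat.mem_divisors.mp hd
    have hd0 : (0 : ℝ) < d := by exact_mod_cast Nat.pos_of_mem_divisors hd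
    rw [Nat.cast_div hd'.1 hd0.ne', div_pow, div_eq_mul_inv]
  refine (Finset.sum_le_sum h2).trans ?_
  rw [← Finset.mul_sum, mul_comm (2 : ℝ)]
  refine mul_le_mul_of_nonneg_left ?_ (by positivity)
  refine le_trans ?_ (sum_inv_sq q hq)
  refine Finset.sum_le_sum_of_subset_of_nonneg ?_ (fun _ _ _ => by positivity)
  intro d hd
  rw [mem_Icc]
  exact ⟨Nat.pos_of_mem_divisors hd, Nat.divisor_le hd⟩

private lemma inner_eq {α β k₀ P a J u q : ℕ} (hq : 2 ≤ q) :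
    ∑ b ∈ (Ico 1 q).filter (fun b => b.Coprime q), ff α β k₀ P a J u q b =
      ∑ d ∈ q.divisors, ((ArithmeticFunction.moebius (q / d) : ℤ) : ℂ) *
        (((d : ℝ) * (#((range J).filter (fun j : ℕ => (d : ℤ) ∣
          ((α : ℤ) * ((a : ℤ) + (P : ℤ) * (u : ℤ))) - (F β k₀ P j : ℤ))) : ℝ) : ℝ) : ℂ) := by
  unfold ff
  rw [Finset.sum_comm]
  have h1 : ∀ j ∈ range J, ∑ b ∈ (Ico 1 q).filter (fun b => b.Coprime q),
      ee ((b : ℝ) * ((mm α β k₀ P a j u : ℝ) / q)) =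
      ∑ d ∈ q.divisors, ((ArithmeticFunction.moebius (q / d) : ℤ) : ℂ) *
        (if (d : ℤ) ∣ mm α β k₀ P a j u then (d : ℂ) else 0) := fun j _ => ramanujan hq _
  rw [Finset.sum_congr rfl h1, Finset.sum_comm]
  refine Finset.sum_congr rfl fun d _ => ?_
  rw [← Finset.mul_sum]
  congr 1
  rw [← Finset.sum_filter, Finset.sum_const, nsmul_eq_mul]
  push_cast
  rw [mul_comm]
  rfl

private lemma inner_err {α β k₀ P a J u q : ℕ} (hq : 2 ≤ q) (hqP : q.Coprime P) :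
    ‖∑ b ∈ (Ico 1 q).filter (fun b => b.Coprime q), ff α β k₀ P a J u q b -
      (((J : ℝ) * (gg β ((α : ℤ) * ((a : ℤ) + (P : ℤ) * (u : ℤ))) q : ℝ) : ℝ) : ℂ)‖ ≤
      2 * (q : ℝ) ^ 2 := by
  obtain ⟨x, hx⟩ : ∃ x : ℤ, x = (α : ℤ) * ((a : ℤ) + (P : ℤ) * (u : ℤ)) := ⟨_, rfl⟩
  rw [inner_eq hq, ← hx]
  have h1 : (((J : ℝ) * (gg β x q : ℝ) : ℝ) : ℂ) =
      ∑ d ∈ q.divisors, ((ArithmeticFunction.moebius (q / d) : ℤ) : ℂ) *
        (((J : ℝ) * (rho β x d : ℝ) : ℝ) : ℂ) := by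
    unfold gg
    push_cast
    rw [Finset.mul_sum]
    refine Finset.sum_congr rfl fun d _ => ?_
    ring
  rw [h1, ← Finset.sum_sub_distrib]
  refine (norm_sum_le _ _).trans (le_trans ?_ (sum_sq_div q (by omega)))
  refine Finset.sum_le_sum fun d hd => ?_
  have hd' := Nat.mem_divisors.mp hd
  have hdpos : 0 < d := Nat.pos_of_mem_divisors hd
  have hd0 : (0 : ℝ) < d := by exact_mod_cast hdpos
  rw [← mul_sub, norm_mul]
  have h2 : ‖((ArithmeticFunction.moebius (q / d) : ℤ) : ℂ)‖ ≤ 1 := by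
    rw [Complex.norm_intCast]
    exact_mod_cast ArithmeticFunction.abs_moebius_le_one
  have h3 := count_ap (β := β) (k₀ := k₀) hdpos (Nat.Coprime.coprime_dvd_left hd'.1 hqP) x J
  have h4 : ‖(((d : ℝ) * (#((range J).filter (fun j : ℕ => (d : ℤ) ∣ x - (F β k₀ P j : ℤ))) : ℝ) : ℝ) : ℂ) -
      (((J : ℝ) * (rho β x d : ℝ) : ℝ) : ℂ)‖ ≤ (d : ℝ) ^ 2 := by
    rw [← Complex.ofReal_sub, Complex.norm_real, Real.norm_eq_abs]
    have h5 : (d : ℝ) * (#((range J).filter (fun j : ℕ => (d : ℤ) ∣ x - (F β k₀ P j : ℤ))) : ℝ) -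
        (J : ℝ) * (rho β x d : ℝ) =
        (d : ℝ) * ((#((range J).filter (fun j : ℕ => (d : ℤ) ∣ x - (F β k₀ P j : ℤ))) : ℝ) -
          (J : ℝ) * (rho β x d : ℝ) / d) := by
      field_simp
    rw [h5, abs_mul, abs_of_pos hd0, pow_two]
    exact mul_le_mul_of_nonneg_left h3 hd0.le
  calc _ ≤ 1 * (d : ℝ) ^ 2 := mul_le_mul h2 h4 (norm_nonneg _) zero_le_one
    _ = _ := one_mul _

theorem piece_one {α β k₀ P a J z D u : ℕ} {B : ℝ} (hB : ∀ y, |Lam P y| ≤ B) :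
    ‖Piece α β k₀ P a J z 1 D u -
      (((J : ℝ) * ∑ q ∈ (Ioc 1 D).filter (fun q => q.Coprime P),
        (chi q : ℝ) / q * Lam P (z / q) *
          (gg β ((α : ℤ) * ((a : ℤ) + (P : ℤ) * (u : ℤ))) q : ℝ) : ℝ) : ℂ)‖ ≤
      2 * B * (D : ℝ) ^ 2 := by
  have hB0 : 0 ≤ B := (abs_nonneg _).trans (hB 0)
  have h1 : Piece α β k₀ P a J z 1 D u = ∑ q ∈ (Ioc 1 D).filter (fun q => q.Coprime P),
      cq P z q * ∑ b ∈ (Ico 1 q).filter (fun b => b.Coprime q), ff α β k₀ P a J u q b := by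
    unfold Piece
    rw [Finset.sum_filter]
    refine Finset.sum_congr rfl fun q _ => ?_
    by_cases h : q.Coprime P
    · rw [if_pos h]
    · rw [if_neg h, cq_zero h, zero_mul]
  have h2 : (((J : ℝ) * ∑ q ∈ (Ioc 1 D).filter (fun q => q.Coprime P),
        (chi q : ℝ) / q * Lam P (z / q) *
          (gg β ((α : ℤ) * ((a : ℤ) + (P : ℤ) * (u : ℤ))) q : ℝ) : ℝ) : ℂ) =
      ∑ q ∈ (Ioc 1 D).filter (fun q => q.Coprime P), cq P z q *
        (((J : ℝ) * (gg β ((α : ℤ) * ((a : ℤ) + (P : ℤ) * (u : ℤ))) q : ℝ) : ℝ) : ℂ) := by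
    rw [Finset.mul_sum, Complex.ofReal_sum]
    refine Finset.sum_congr rfl fun q hq => ?_
    rw [mem_filter, mem_Ioc] at hq
    rw [cq_eq (by omega) hq.2, ← Complex.ofReal_mul]
    congr 1
    ring
  rw [h1, h2, ← Finset.sum_sub_distrib]
  refine (norm_sum_le _ _).trans ?_
  have h3 : ∀ q ∈ (Ioc 1 D).filter (fun q => q.Coprime P),
      ‖cq P z q * ∑ b ∈ (Ico 1 q).filter (fun b => b.Coprime q), ff α β k₀ P a J u q b -
        cq P z q * (((J : ℝ) * (gg β ((α : ℤ) * ((a : ℤ) + (P : ℤ) * (u : ℤ))) q : ℝ) : ℝ) : ℂ)‖ ≤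
      2 * B * D := by
    intro q hq
    rw [mem_filter, mem_Ioc] at hq
    have hq0 : (0 : ℝ) < q := by
      have : 0 < q := by omega
      exact_mod_cast this
    rw [← mul_sub, norm_mul]
    calc _ ≤ B / q * (2 * (q : ℝ) ^ 2) :=
          mul_le_mul (norm_cq_le (by omega) hB) (inner_err (by omega) hq.2) (norm_nonneg _)
            (by positivity)
      _ = 2 * B * q := by
          field_simp
      _ ≤ 2 * B * D := by
          refine mul_le_mul_of_nonneg_left ?_ (by positivity)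
          exact_mod_cast hq.1.2
  refine (Finset.sum_le_sum h3).trans ?_
  rw [Finset.sum_const, nsmul_eq_mul]
  have h4 : (#((Ioc 1 D).filter (fun q => q.Coprime P)) : ℝ) ≤ D := by
    have h5 : #((Ioc 1 D).filter (fun q => q.Coprime P)) ≤ D := by
      refine (Finset.card_filter_le _ _).trans ?_
      rw [Nat.card_Ioc]
      omega
    exact_mod_cast h5
  calc _ ≤ (D : ℝ) * (2 * B * D) := mul_le_mul_of_nonneg_right h4 (by positivity)
    _ = _ := by ring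

end Pool.Agent.Helper56.PX
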