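import Mathlib
import Pool.Agent.Helper56.PX.PieceOne

/-!
PX-22 BadHH. The basic inequality for a bad `u`.

PROOF. `bad_ineq` (Helper11/Sq/Hyper): `J * Lam P z + T ≤ V`. `T_eq` with `Z = D`: `T = Piece(1, D) + Piece(D, z)`; take real
parts: `T ≥ J ∑_{q ∈ Ioc 1 D, (q,P)=1} (χ(q)/q) Lam P (z/q) gg q - 2 B D² - ‖Piece(D, z)‖` (`piece_one`,
`Complex.abs_re_le_norm`). The term `q = 1` of the same sum is `Lam P z` (`chi_one`, `gg_one`, `z / 1 = z`), so
`J * Lam P z + J ∑_{q ∈ Ioc 1 D} ... = J ∑_{q ∈ Icc 1 D, (q,P)=1} (χ(q) gg(q) / q) Lam P (z/q)`. Replace `Lam P (z/q)` by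
`L`: error `≤ J ∑_{q ≤ D} (|gg q| / q) C / (z/q + 1) ≤ J ∑_{q ≤ D} q C q / z ≤ C J D³ / z`, by `abs_gg_le` (`|gg q| ≤ q²`)
and `(z/q : natural division) + 1 ≥ z / q` (real), i.e. `1/((z/q : ℕ) + 1) ≤ q/z` (`z ≥ 1`, since `D ≤ z`), and
`∑_{q ≤ D} q² ≤ D³`. Finally `L ∑ χ(q) gg(q)/q = L * HH P β x D` (`HH`, `hh`: sum over a filter), with
`x = α (a + P u)`.
-/

set_option autoImplicit false

namespace Pool.Agent.Helper56.PX

open Finset Pool.Agent.Helper10 Pool.Agent.Helper11.Sq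

theorem bad_HH {α β k₀ P a J y z D u : ℕ} {B L C : ℝ} (hB : ∀ y, |Lam P y| ≤ B) (hC : 0 ≤ C)
    (hL : ∀ y : ℕ, |Lam P y - L| ≤ C / ((y : ℝ) + 1))
    (hk : ∀ j, Odd (k₀ + P * j) ∧ ¬ 7 ∣ (k₀ + P * j))
    (hlt : ∀ j < J, F β k₀ P j < α * (a + P * u))
    (hcop : ∀ j < J, (α * (a + P * u) - F β k₀ P j).Coprime P)
    (hy : ∀ j < J, y ^ 2 ≤ α * (a + P * u) - F β k₀ P j)
    (hz : α * (a + P * u) ≤ z ^ 2) (hbad : BadU α β P a u) (hD : 1 ≤ D) (hDz : D ≤ z) :
    (J : ℝ) * L * HH P β ((α : ℤ) * ((a : ℤ) + (P : ℤ) * (u : ℤ))) D ≤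
      (V α β k₀ P a J y z u : ℝ) + ‖Piece α β k₀ P a J z D z u‖ + 2 * B * (D : ℝ) ^ 2 +
        C * J * (D : ℝ) ^ 3 / z := by
  classical
  obtain ⟨x, hx⟩ : ∃ x : ℤ, x = (α : ℤ) * ((a : ℤ) + (P : ℤ) * (u : ℤ)) := ⟨_, rfl⟩
  have h1 := bad_ineq (z := z) (y := y) hk hlt hcop hy hz hbad
  have h2 := T_eq α β k₀ P a J z D u hD hDz
  have h3 := piece_one (α := α) (β := β) (k₀ := k₀) (P := P) (a := a) (J := J) (z := z) (D := D)
    (u := u) hB
  rw [← hx] at h3 ⊢
  set S₁ : ℝ := ∑ q ∈ (Ioc 1 D).filter (fun q => q.Coprime P),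
        (chi q : ℝ) / q * Lam P (z / q) * (gg β x q : ℝ) with hS₁
  have hT : T α β k₀ P a J z u = (Piece α β k₀ P a J z 1 D u).re +
      (Piece α β k₀ P a J z D z u).re := by
    have := congrArg Complex.re h2
    rwa [Complex.ofReal_re, Complex.add_re] at this
  have hr1 : J * S₁ - 2 * B * (D : ℝ) ^ 2 ≤ (Piece α β k₀ P a J z 1 D u).re := by
    have h4 := (Complex.abs_re_le_norm (Piece α β k₀ P a J z 1 D u -
      (((J : ℝ) * S₁ : ℝ) : ℂ))).trans h3
    rw [Complex.sub_re, Complex.ofReal_re] at h4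
    have h5 := (abs_le.1 h4).1
    linarith
  have hr2 : -‖Piece α β k₀ P a J z D z u‖ ≤ (Piece α β k₀ P a J z D z u).re := by
    have h4 := Complex.abs_re_le_norm (Piece α β k₀ P a J z D z u)
    exact (abs_le.1 h4).1
  set S₀ : ℝ := ∑ q ∈ (Icc 1 D).filter (fun q => q.Coprime P),
        (chi q : ℝ) / q * Lam P (z / q) * (gg β x q : ℝ) with hS₀
  have hsplit : S₀ = Lam P z + S₁ := by
    have hI : (Icc 1 D).filter (fun q => q.Coprime P) =
        insert 1 ((Ioc 1 D).filter (fun q => q.Coprime P)) := by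
      ext q
      simp only [mem_filter, mem_Icc, mem_insert, mem_Ioc]
      constructor
      · rintro ⟨⟨g1, g2⟩, g3⟩
        rcases Nat.lt_or_ge 1 q with g4 | g4
        · exact Or.inr ⟨⟨g4, g2⟩, g3⟩
        · exact Or.inl (by omega)
      · rintro (rfl | ⟨⟨g1, g2⟩, g3⟩)
        · exact ⟨⟨le_rfl, hD⟩, Nat.coprime_one_left P⟩
        · exact ⟨⟨g1.le, g2⟩, g3⟩
    rw [hS₀, hI, Finset.sum_insert (by simp), hS₁, chi_one, gg_one, Nat.div_one]
    simp
  have hHH : HH P β x D = ∑ q ∈ (Icc 1 D).filter (fun q => q.Coprime P),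
      (chi q : ℝ) / q * (gg β x q : ℝ) := by
    unfold HH hh
    rw [Finset.sum_filter]
    refine Finset.sum_congr rfl fun q _ => ?_
    split_ifs
    · ring
    · rfl
  have hz0 : (0 : ℝ) < z := by
    have : 0 < z := by omega
    exact_mod_cast this
  have hterm : ∀ q ∈ (Icc 1 D).filter (fun q => q.Coprime P),
      (chi q : ℝ) / q * (gg β x q : ℝ) * L - (chi q : ℝ) / q * Lam P (z / q) * (gg β x q : ℝ) ≤
        C * (D : ℝ) ^ 2 / z := by
    intro q hq
    rw [mem_filter, mem_Icc] at hq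
    have hq0 : (0 : ℝ) < q := by
      have : 0 < q := by omega
      exact_mod_cast this
    have hqD : (q : ℝ) ≤ D := by exact_mod_cast hq.1.2
    have g1 : |(chi q : ℝ)| ≤ 1 := by exact_mod_cast abs_chi_le q
    have g2 : |(gg β x q : ℝ)| ≤ (q : ℝ) ^ 2 := by exact_mod_cast abs_gg_le β x q
    have g3 : |L - Lam P (z / q)| ≤ C * q / z := by
      rw [abs_sub_comm]
      refine (hL (z / q)).trans ?_
      have g4 : (z : ℝ) ≤ q * (((z / q : ℕ) : ℝ) + 1) := by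
        have := Nat.lt_mul_div_succ z (show 0 < q by omega)
        exact_mod_cast this.le
      have g5 : (0 : ℝ) < ((z / q : ℕ) : ℝ) + 1 := by positivity
      rw [div_le_div_iff₀ g5 hz0]
      calc C * z ≤ C * (q * (((z / q : ℕ) : ℝ) + 1)) := mul_le_mul_of_nonneg_left g4 hC
        _ = C * q * (((z / q : ℕ) : ℝ) + 1) := by ring
    have g6 : (chi q : ℝ) / q * (gg β x q : ℝ) * L - (chi q : ℝ) / q * Lam P (z / q) * (gg β x q : ℝ) =
        (chi q : ℝ) * ((gg β x q : ℝ) * (L - Lam P (z / q))) / q := by ring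
    rw [g6]
    refine (le_abs_self _).trans ?_
    rw [abs_div, abs_mul, abs_mul, abs_of_pos hq0]
    calc |(chi q : ℝ)| * (|(gg β x q : ℝ)| * |L - Lam P (z / q)|) / q
        ≤ 1 * ((q : ℝ) ^ 2 * (C * q / z)) / q := by
          apply div_le_div_of_nonneg_right _ hq0.le
          apply mul_le_mul g1 _ (by positivity) zero_le_one
          exact mul_le_mul g2 g3 (abs_nonneg _) (by positivity)
      _ = C * (q : ℝ) ^ 2 / z := by
          field_simp
      _ ≤ C * (D : ℝ) ^ 2 / z := by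
          apply div_le_div_of_nonneg_right _ hz0.le
          apply mul_le_mul_of_nonneg_left _ hC
          exact pow_le_pow_left₀ hq0.le hqD 2
  have hsum : L * HH P β x D - S₀ ≤ C * (D : ℝ) ^ 3 / z := by
    have h4 : L * HH P β x D - S₀ = ∑ q ∈ (Icc 1 D).filter (fun q => q.Coprime P),
        ((chi q : ℝ) / q * (gg β x q : ℝ) * L -
          (chi q : ℝ) / q * Lam P (z / q) * (gg β x q : ℝ)) := by
      rw [hHH, hS₀, Finset.sum_sub_distrib, Finset.mul_sum]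
      congr 1
      refine Finset.sum_congr rfl fun q _ => ?_
      ring
    rw [h4]
    refine (Finset.sum_le_sum hterm).trans ?_
    rw [Finset.sum_const, nsmul_eq_mul]
    have h5 : (#((Icc 1 D).filter (fun q => q.Coprime P)) : ℝ) ≤ D := by
      have h6 : #((Icc 1 D).filter (fun q => q.Coprime P)) ≤ D := by
        refine (Finset.card_filter_le _ _).trans ?_
        rw [Nat.card_Icc]
        omega
      exact_mod_cast h6
    calc (#((Icc 1 D).filter (fun q => q.Coprime P)) : ℝ) * (C * (D : ℝ) ^ 2 / z)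
        ≤ D * (C * (D : ℝ) ^ 2 / z) := mul_le_mul_of_nonneg_right h5 (by positivity)
      _ = C * (D : ℝ) ^ 3 / z := by ring
  have hJ0 : (0 : ℝ) ≤ J := Nat.cast_nonneg J
  have hfin : (J : ℝ) * (L * HH P β x D - S₀) ≤ J * (C * (D : ℝ) ^ 3 / z) :=
    mul_le_mul_of_nonneg_left hsum hJ0
  have e1 : (J : ℝ) * L * HH P β x D = J * (L * HH P β x D - S₀) + J * S₀ := by ring
  have e2 : (J : ℝ) * S₀ = J * Lam P z + J * S₁ := by rw [hsplit]; ring
  have e3 : C * J * (D : ℝ) ^ 3 / z = J * (C * (D : ℝ) ^ 3 / z) := by ring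
  rw [e1, e2, e3]
  rw [hT] at h1
  linarith

end Pool.Agent.Helper56.PX
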