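import Mathlib

/-!
PX-09 Powerful. The number of powerful numbers up to `X` is at most `3 √X`.

PROOF. Let `M ≥ 1` be powerful (`p ∣ M → p² ∣ M`). `Nat.sq_mul_squarefree` (or its variants): `M = b² a` with `a`
squarefree. Every prime `p ∣ a` divides `b`: otherwise `v_p(M) = 1`, contradiction. So `a ∣ b` (`a` squarefree, for example
`a = ∏ p ∈ a.primeFactors, p ∣ b` by `Nat.prod_primeFactors_of_squarefree` and
`Finset.prod_primes_dvd`), `b = a c`, `M = a³ c²`, `1 ≤ a, c`. So `T` is contained in the image of the pairs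
`(a, c)` with `a³ c² ≤ X`, i.e. `1 ≤ a ≤ X` and `1 ≤ c ≤ √(X / a³)`; their number is
`≤ ∑_{1 ≤ a ≤ X} √X a^(-3/2) ≤ 3 √X`, as `a^(-3/2) ≤ 2 (1/√(a-1) - 1/√a)` for `a ≥ 2`
(`1/√(a-1) - 1/√a = 1/(√a √(a-1) (√a + √(a-1))) ≥ 1/(2 a √a)`), telescoping, plus the term `a = 1`.
-/

set_option autoImplicit false

namespace Pool.Agent.Helper56.PX

open Finset

private theorem pw_decomp {M : ℕ} (h1 : 1 ≤ M) (h : ∀ p : ℕ, p.Prime → p ∣ M → p ^ 2 ∣ M) :
    ∃ a c : ℕ, 1 ≤ a ∧ 1 ≤ c ∧ M = a ^ 3 * c ^ 2 := by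
  obtain ⟨a, b, hab, ha⟩ := Nat.sq_mul_squarefree M
  have hM0 : M ≠ 0 := by omega
  have ha0 : a ≠ 0 := by
    rintro rfl
    apply hM0
    rw [← hab, mul_zero]
  have hp : ∀ p ∈ a.primeFactors, p ∣ b := by
    intro p hp
    have hpp := Nat.prime_of_mem_primeFactors hp
    have hpa := Nat.dvd_of_mem_primeFactors hp
    by_contra hb
    have h2 : p ^ 2 ∣ b ^ 2 * a := by
      rw [hab]
      refine h p hpp ?_
      rw [← hab]
      exact Dvd.dvd.mul_left hpa _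
    have hco : Nat.Coprime (p ^ 2) (b ^ 2) :=
      Nat.Coprime.pow _ _ ((Nat.Prime.coprime_iff_not_dvd hpp).2 hb)
    have h3 : p ^ 2 ∣ a := hco.dvd_of_dvd_mul_left h2
    have h4 : IsUnit p := ha p (by rw [← pow_two]; exact h3)
    exact hpp.one_lt.ne' (Nat.isUnit_iff.1 h4)
  have hdvd : a ∣ b := by
    rw [← Nat.prod_primeFactors_of_squarefree ha]
    exact Finset.prod_primes_dvd _ (fun p hp' => (Nat.prime_of_mem_primeFactors hp').prime) hp
  obtain ⟨c, rfl⟩ := hdvd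
  refine ⟨a, c, Nat.one_le_iff_ne_zero.2 ha0, ?_, ?_⟩
  · rw [Nat.one_le_iff_ne_zero]
    rintro rfl
    apply hM0
    rw [← hab]
    simp
  · rw [← hab]; ring

private theorem pw_sum (N : ℕ) :
    ∑ a ∈ Finset.Icc 1 (N + 1), 1 / ((a : ℝ) * Real.sqrt a) ≤ 3 - 2 / Real.sqrt ((N : ℝ) + 1) := by
  induction N with
  | zero => simp; norm_num
  | succ N ih =>
    rw [Finset.sum_Icc_succ_top (by omega)]
    push_cast at ih ⊢
    set x : ℝ := (N : ℝ) + 1 with hx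
    have hx1 : 1 ≤ x := by rw [hx]; have : (0 : ℝ) ≤ N := Nat.cast_nonneg N; linarith
    set u := Real.sqrt x with hu
    set v := Real.sqrt (x + 1) with hv
    have hu0 : 0 < u := Real.sqrt_pos.2 (by linarith)
    have hv0 : 0 < v := Real.sqrt_pos.2 (by linarith)
    have huv : u ≤ v := Real.sqrt_le_sqrt (by linarith)
    have hu2 : u ^ 2 = x := Real.sq_sqrt (by linarith)
    have hv2 : v ^ 2 = x + 1 := Real.sq_sqrt (by linarith)
    have key : 1 / ((x + 1) * v) ≤ 2 / u - 2 / v := by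
      rw [← hv2]
      have h5 : (v - u) * (v + u) = 1 := by nlinarith
      have h6 : 2 / u - 2 / v = 2 / (u * v * (v + u)) := by
        rw [div_sub_div _ _ hu0.ne' hv0.ne', div_eq_div_iff (by positivity) (by positivity)]
        linear_combination (2 * u * v) * h5
      rw [h6, div_le_div_iff₀ (by positivity) (by positivity)]
      nlinarith [mul_nonneg hu0.le hv0.le, mul_nonneg hv0.le (sub_nonneg.2 huv),
        mul_nonneg (mul_nonneg hu0.le hv0.le) (sub_nonneg.2 huv),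
        mul_nonneg (mul_nonneg hv0.le hv0.le) (sub_nonneg.2 huv)]
    linarith

theorem card_powerful_le (X : ℕ) (T : Finset ℕ)
    (hT : ∀ M ∈ T, 1 ≤ M ∧ M ≤ X ∧ ∀ p : ℕ, p.Prime → p ∣ M → p ^ 2 ∣ M) :
    (#T : ℝ) ≤ 3 * Real.sqrt X := by
  rcases Nat.eq_zero_or_pos X with rfl | hX
  · have : T = ∅ := by
      rw [Finset.eq_empty_iff_forall_notMem]
      intro M hM
      obtain ⟨h1, h2, _⟩ := hT M hM
      omega
    rw [this]
    simp
  have hsub : T ⊆ ((Finset.Icc 1 X).sigma (fun a => Finset.Icc 1 (Nat.sqrt (X / a ^ 3)))).image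
      (fun q => q.1 ^ 3 * q.2 ^ 2) := by
    intro M hM
    obtain ⟨h1, h2, h3⟩ := hT M hM
    obtain ⟨a, c, ha, hc, rfl⟩ := pw_decomp h1 h3
    rw [Finset.mem_image]
    refine ⟨⟨a, c⟩, ?_, rfl⟩
    rw [Finset.mem_sigma, Finset.mem_Icc, Finset.mem_Icc]
    have hc2 : 1 ≤ c ^ 2 := Nat.one_le_pow _ _ hc
    have ha3 : 1 ≤ a ^ 3 := Nat.one_le_pow _ _ ha
    refine ⟨⟨ha, ?_⟩, hc, ?_⟩
    · calc a = a ^ 1 := (pow_one a).symm
        _ ≤ a ^ 3 := Nat.pow_le_pow_right ha (by norm_num)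
        _ = a ^ 3 * 1 := (mul_one _).symm
        _ ≤ a ^ 3 * c ^ 2 := Nat.mul_le_mul_left _ hc2
        _ ≤ X := h2
    · change c ≤ Nat.sqrt (X / a ^ 3)
      rw [Nat.le_sqrt', Nat.le_div_iff_mul_le (by omega)]
      linarith [mul_comm (c ^ 2) (a ^ 3)]
  have hcard : #T ≤ ∑ a ∈ Finset.Icc 1 X, Nat.sqrt (X / a ^ 3) := by
    refine (Finset.card_le_card hsub).trans (Finset.card_image_le.trans ?_)
    rw [Finset.card_sigma]
    refine Finset.sum_le_sum fun a _ => ?_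
    rw [Nat.card_Icc]
    omega
  have hcard' : (#T : ℝ) ≤ ∑ a ∈ Finset.Icc 1 X, (Nat.sqrt (X / a ^ 3) : ℝ) := by exact_mod_cast hcard
  refine hcard'.trans ?_
  have hterm : ∀ a ∈ Finset.Icc 1 X, (Nat.sqrt (X / a ^ 3) : ℝ) ≤
      Real.sqrt X * (1 / ((a : ℝ) * Real.sqrt a)) := by
    intro a ha
    have ha1 : 1 ≤ a := (Finset.mem_Icc.1 ha).1
    have ha0 : (0 : ℝ) < a := by exact_mod_cast ha1
    have hs0 : 0 < Real.sqrt a := Real.sqrt_pos.2 ha0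
    have h4 : ((Nat.sqrt (X / a ^ 3) : ℕ) : ℝ) ≤ Real.sqrt ((X / a ^ 3 : ℕ) : ℝ) :=
      Real.nat_sqrt_le_real_sqrt
    have h5 : ((X / a ^ 3 : ℕ) : ℝ) ≤ (X : ℝ) / (a : ℝ) ^ 3 := by
      have := @Nat.cast_div_le ℝ _ _ _ X (a ^ 3)
      simpa using this
    have h6 : Real.sqrt ((X : ℝ) / (a : ℝ) ^ 3) = Real.sqrt X * (1 / ((a : ℝ) * Real.sqrt a)) := by
      rw [Real.sqrt_div (Nat.cast_nonneg X)]
      have h7 : Real.sqrt ((a : ℝ) ^ 3) = a * Real.sqrt a := by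
        have : (a : ℝ) ^ 3 = a ^ 2 * a := by ring
        rw [this, Real.sqrt_mul (by positivity), Real.sqrt_sq ha0.le]
      rw [h7]
      ring
    rw [← h6]
    exact h4.trans (Real.sqrt_le_sqrt h5)
  refine (Finset.sum_le_sum hterm).trans ?_
  rw [← Finset.mul_sum]
  obtain ⟨N, rfl⟩ : ∃ N, X = N + 1 := ⟨X - 1, by omega⟩
  have h8 := pw_sum N
  have h9 : (0 : ℝ) ≤ 2 / Real.sqrt ((N : ℝ) + 1) := by positivity
  have h10 : ∑ a ∈ Finset.Icc 1 (N + 1), 1 / ((a : ℝ) * Real.sqrt a) ≤ 3 := by linarith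
  calc Real.sqrt ((N + 1 : ℕ) : ℝ) * ∑ a ∈ Finset.Icc 1 (N + 1), 1 / ((a : ℝ) * Real.sqrt a)
      ≤ Real.sqrt ((N + 1 : ℕ) : ℝ) * 3 := mul_le_mul_of_nonneg_left h10 (Real.sqrt_nonneg _)
    _ = 3 * Real.sqrt ((N + 1 : ℕ) : ℝ) := mul_comm _ _

end Pool.Agent.Helper56.PX
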