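import Mathlib
import Pool.Agent.Helper56.PX.GG

/-!
PX-06 Mean. Incomplete sums of periodic functions with mean zero.

PROOF. `incomplete`: `N = m t + r`, `r < m`; the `t` complete periods contribute `0` (induction on `t`, or
`Finset.sum_range_add` / `Nat.strong_induction`: `∑_{n < N + m} f = ∑_{n < m} f + ∑_{n < N} f (n + m)`), the rest at
most `r B ≤ m B`. So: strong induction on `N`; if `N ≤ m` the sum is `≤ N B ≤ m B` (note `0 ≤ B`), else peel off the
first `m` terms and use periodicity.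
`crt_zero`: `n ↦ (n % p, n % m)` is a bijection `range (p m) → range p ×ˢ range m` (coprime), and
`f n = f (n % p)`, `F n = F (n % m)`; the sum is `(∑_{i < p} f i) (∑_{j < m} F j) = 0`.
`sum_gg_prime`: `gg_prime`: the sum is `∑_{n < p} rho β (α n) p - p`, and
`∑_{n < p} rho β (α n) p = #{(n, m) : n, m < p, p ∣ α n - β m⁴} = p`, since for every `m` exactly one `n < p` works
(`α` is invertible modulo `p`).
-/

set_option autoImplicit false

namespace Pool.Agent.Helper56.PX

open Finset Pool.Agent.Helper11.Sq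

theorem incomplete {f : ℕ → ℤ} {m : ℕ} (hm : 0 < m) (hper : ∀ n, f (n + m) = f n)
    (h0 : ∑ n ∈ range m, f n = 0) {B : ℤ} (hB : ∀ n, |f n| ≤ B) (N : ℕ) :
    |∑ n ∈ range N, f n| ≤ m * B := by
  have hB0 : 0 ≤ B := (abs_nonneg (f 0)).trans (hB 0)
  induction N using Nat.strong_induction_on with
  | _ N ih =>
    by_cases hN : N ≤ m
    · calc |∑ n ∈ range N, f n| ≤ ∑ n ∈ range N, |f n| := abs_sum_le_sum_abs _ _
        _ ≤ ∑ n ∈ range N, B := sum_le_sum fun n _ => hB n
        _ = N * B := by rw [sum_const, card_range, nsmul_eq_mul]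
        _ ≤ m * B := mul_le_mul_of_nonneg_right (by exact_mod_cast hN) hB0
    · obtain ⟨N', rfl⟩ : ∃ N', N = m + N' := ⟨N - m, by omega⟩
      rw [sum_range_add, h0, zero_add]
      have h1 : ∑ x ∈ range N', f (m + x) = ∑ x ∈ range N', f x := by
        apply sum_congr rfl
        intro x _
        rw [add_comm, hper]
      rw [h1]
      exact ih N' (by omega)

theorem crt_zero {f F : ℕ → ℤ} {p m : ℕ} (hp : 0 < p) (hm : 0 < m) (h : p.Coprime m)
    (hf : ∀ n, f (n + p) = f n) (hF : ∀ n, F (n + m) = F n) (h0 : ∑ n ∈ range p, f n = 0) :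
    ∑ n ∈ range (p * m), f n * F n = 0 := by
  have e1 : ∀ n, f (n % p) = f n := (show Function.Periodic f p from hf).map_mod_nat
  have e2 : ∀ n, F (n % m) = F n := (show Function.Periodic F m from hF).map_mod_nat
  have key : ∑ n ∈ range (p * m), f n * F n =
      ∑ x ∈ range p ×ˢ range m, f x.1 * F x.2 := by
    apply sum_bij (fun n _ => (n % p, n % m))
    · intro n _
      rw [mem_product, mem_range, mem_range]
      exact ⟨Nat.mod_lt _ hp, Nat.mod_lt _ hm⟩
    · intro a ha b hb hab
      rw [Prod.mk.injEq] at hab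
      rw [mem_range] at ha hb
      have h1 : a ≡ b [MOD p * m] := (Nat.modEq_and_modEq_iff_modEq_mul h).mp ⟨hab.1, hab.2⟩
      exact Nat.ModEq.eq_of_lt_of_lt h1 ha hb
    · rintro ⟨i, j⟩ hij
      rw [mem_product, mem_range, mem_range] at hij
      have h1 := (Nat.chineseRemainder h i j).prop
      refine ⟨(Nat.chineseRemainder h i j : ℕ), ?_, ?_⟩
      · rw [mem_range]
        exact Nat.chineseRemainder_lt_mul h i j (by omega) (by omega)
      · rw [Prod.mk.injEq]
        constructor
        · have h2 : (Nat.chineseRemainder h i j : ℕ) % p = i % p := h1.1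
          rw [h2, Nat.mod_eq_of_lt hij.1]
        · have h2 : (Nat.chineseRemainder h i j : ℕ) % m = j % m := h1.2
          rw [h2, Nat.mod_eq_of_lt hij.2]
    · intro n _
      show f n * F n = f (n % p) * F (n % m)
      rw [e1, e2]
  rw [key, sum_product]
  simp only [← mul_sum]
  rw [← sum_mul, h0, zero_mul]

theorem sum_gg_prime {α β p : ℕ} (hp : p.Prime) (hα : ¬ p ∣ α) :
    ∑ n ∈ range p, gg β ((α : ℤ) * (n : ℤ)) p = 0 := by
  have hpi : Prime (p : ℤ) := Nat.prime_iff_prime_int.mp hp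
  have hαi : ¬ (p : ℤ) ∣ (α : ℤ) := fun h => hα (Int.natCast_dvd_natCast.mp h)
  have key : ∑ n ∈ range p, rho β ((α : ℤ) * (n : ℤ)) p = p := by
    have h1 : ∀ n ∈ range p, rho β ((α : ℤ) * (n : ℤ)) p =
        ∑ m ∈ range p, if (p : ℤ) ∣ (α : ℤ) * (n : ℤ) - (β : ℤ) * (m : ℤ) ^ 4 then 1 else 0 := by
      intro n _
      rw [rho, card_filter]
    rw [sum_congr rfl h1, sum_comm]
    have h2 : ∀ m ∈ range p,
        (∑ n ∈ range p, if (p : ℤ) ∣ (α : ℤ) * (n : ℤ) - (β : ℤ) * (m : ℤ) ^ 4 then 1 else 0) =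
          1 := by
      intro m _
      rw [← card_filter, card_eq_one]
      have : Fact p.Prime := ⟨hp⟩
      have hα0 : ((α : ℕ) : ZMod p) ≠ 0 := fun h => hα ((ZMod.natCast_eq_zero_iff α p).mp h)
      set y : ZMod p := (β : ZMod p) * (m : ZMod p) ^ 4 * (α : ZMod p)⁻¹ with hy
      refine ⟨y.val, ?_⟩
      ext n
      rw [mem_filter, mem_range, mem_singleton]
      have h3 : ((p : ℤ) ∣ (α : ℤ) * (n : ℤ) - (β : ℤ) * (m : ℤ) ^ 4) ↔ (n : ZMod p) = y := by
        rw [← ZMod.intCast_zmod_eq_zero_iff_dvd]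
        push_cast
        rw [sub_eq_zero, hy]
        constructor
        · intro h
          rw [← h]
          field_simp
        · intro h
          rw [h]
          field_simp
      rw [h3]
      constructor
      · rintro ⟨h4, h5⟩
        rw [← h5, ZMod.val_natCast, Nat.mod_eq_of_lt h4]
      · rintro rfl
        exact ⟨ZMod.val_lt y, ZMod.natCast_zmod_val y⟩
    rw [sum_congr rfl h2, sum_const, card_range, smul_eq_mul, mul_one]
  have h3 : ∀ n ∈ range p, gg β ((α : ℤ) * (n : ℤ)) p =
      (rho β ((α : ℤ) * (n : ℤ)) p : ℤ) - 1 := fun n _ => gg_prime β _ hp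
  rw [sum_congr rfl h3, sum_sub_distrib, ← Nat.cast_sum, key]
  simp

end Pool.Agent.Helper56.PX
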