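import Mathlib
import Pool.Agent.Helper56.PX.RhoMul

/-!
PX-04 Hensel. `rho` modulo primes and Hensel lifting.

PROOF. `rho_prime_le`: `roots_le` of Helper11/Sq/Count with `k₀ = 0`, `P = 1` (`F β 0 1 i = β (0 + 1 * i)^4`), up to the
sign of the difference; or: a nonzero polynomial of degree 4 over `ZMod p` has at most 4 roots.
`rho_prime_dvd`: `p ∣ x - β m⁴`, `p ∣ x`, `p ∤ β` give `p ∣ m`, so `m = 0` for `m < p`; and `m = 0` is a solution.
`rho_hensel`: the map `m ↦ m % p^k` from the solutions modulo `p^(k+1)` to the solutions modulo `p^k` is a bijection.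
Every solution has `p ∤ m` (else `p ∣ x`, as `k ≥ 1`). Injective: if `m ≡ m' (mod p^k)` are solutions modulo
`p^(k+1)` then `p^(k+1) ∣ β (m⁴ - m'⁴) = β (m - m')(m + m')(m² + m'²)`, and modulo `p`: `m ≡ m'`,
`m + m' ≡ 2m`, `m² + m'² ≡ 2m²` are units (`p ≠ 2`), so `p^(k+1) ∣ m - m'`, and both are in `[0, p^(k+1))`.
Surjective: let `m < p^k`, `x - β m⁴ = p^k c`. Choose `t < p` with `4 β m³ t ≡ c (mod p)` (`4 β m³` is a unit).
`(m + p^k t)⁴ = m⁴ + 4 m³ p^k t + p^(2k) (...)` and `2k ≥ k + 1`, so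
`x - β (m + p^k t)⁴ ≡ p^k (c - 4 β m³ t) ≡ 0 (mod p^(k+1))`; `m + p^k t < p^(k+1)`.
-/

set_option autoImplicit false

namespace Pool.Agent.Helper56.PX

open Finset Pool.Agent.Helper11.Sq

theorem rho_prime_le {β p : ℕ} (hp : p.Prime) (hβ : ¬ p ∣ β) (x : ℤ) : rho β x p ≤ 4 := by
  classical
  haveI : Fact p.Prime := ⟨hp⟩
  have hb : (β : ZMod p) ≠ 0 := by
    rwa [Ne, ZMod.natCast_eq_zero_iff]
  set P : Polynomial (ZMod p) :=
    Polynomial.C (β : ZMod p) * Polynomial.X ^ 4 - Polynomial.C (x : ZMod p) with hP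
  have hdeg : P.natDegree = 4 := by
    rw [hP]
    compute_degree!
  have hP0 : P ≠ 0 := by
    intro h
    rw [h] at hdeg
    simp at hdeg
  have hle : rho β x p ≤ #(P.roots.toFinset) := by
    unfold rho
    refine Finset.card_le_card_of_injOn (fun m : ℕ => (m : ZMod p)) ?_ ?_
    · intro m hm
      rw [Finset.mem_coe, Finset.mem_filter] at hm
      rw [Finset.mem_coe, Multiset.mem_toFinset, Polynomial.mem_roots hP0, Polynomial.IsRoot.def, hP]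
      have h1 : ((x - (β : ℤ) * (m : ℤ) ^ 4 : ℤ) : ZMod p) = 0 :=
        (ZMod.intCast_zmod_eq_zero_iff_dvd _ _).2 hm.2
      push_cast at h1
      simp only [Polynomial.eval_sub, Polynomial.eval_mul, Polynomial.eval_C, Polynomial.eval_pow,
        Polynomial.eval_X]
      linear_combination -h1
    · intro m hm m' hm' h
      rw [Finset.mem_coe, Finset.mem_filter, Finset.mem_range] at hm hm'
      have h2 : (m : ZMod p) = (m' : ZMod p) := h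
      rw [ZMod.natCast_eq_natCast_iff] at h2
      exact Nat.ModEq.eq_of_lt_of_lt h2 hm.1 hm'.1
  calc rho β x p ≤ #(P.roots.toFinset) := hle
    _ ≤ P.roots.card := Multiset.toFinset_card_le _
    _ ≤ P.natDegree := P.card_roots'
    _ = 4 := hdeg

theorem rho_prime_dvd {β p : ℕ} (hp : p.Prime) (hβ : ¬ p ∣ β) {x : ℤ} (hx : (p : ℤ) ∣ x) :
    rho β x p = 1 := by
  have hpi : Prime (p : ℤ) := Nat.prime_iff_prime_int.1 hp
  have hβ' : ¬ (p : ℤ) ∣ (β : ℤ) := by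
    rwa [Int.natCast_dvd_natCast]
  have : (range p).filter (fun m : ℕ => (p : ℤ) ∣ x - (β : ℤ) * (m : ℤ) ^ 4) = {0} := by
    ext m
    rw [Finset.mem_filter, Finset.mem_range, Finset.mem_singleton]
    constructor
    · rintro ⟨h1, h2⟩
      have h3 : (p : ℤ) ∣ (β : ℤ) * (m : ℤ) ^ 4 := by
        have := dvd_sub hx h2
        simpa using this
      rcases hpi.dvd_or_dvd h3 with h4 | h4
      · exact absurd h4 hβ'
      · have h5 := hpi.dvd_of_dvd_pow h4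
        rw [Int.natCast_dvd_natCast] at h5
        exact Nat.eq_zero_of_dvd_of_lt h5 h1
    · rintro rfl
      refine ⟨hp.pos, ?_⟩
      simpa using hx
  unfold rho
  rw [this, Finset.card_singleton]

private theorem ndvd_sol {β p : ℕ} {x : ℤ} (hx : ¬ (p : ℤ) ∣ x) {m : ℤ}
    (h : (p : ℤ) ∣ x - (β : ℤ) * m ^ 4) : ¬ (p : ℤ) ∣ m := by
  intro hm
  apply hx
  have h1 : (p : ℤ) ∣ (β : ℤ) * m ^ 4 := Dvd.dvd.mul_left (dvd_pow hm (by norm_num)) _
  have := dvd_add h h1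
  simpa using this

theorem rho_hensel {β p : ℕ} (hp : p.Prime) (h2 : p ≠ 2) (hβ : ¬ p ∣ β) {x : ℤ}
    (hx : ¬ (p : ℤ) ∣ x) {k : ℕ} (hk : 1 ≤ k) : rho β x (p ^ (k + 1)) = rho β x (p ^ k) := by
  have hpi : Prime (p : ℤ) := Nat.prime_iff_prime_int.1 hp
  have hβ' : ¬ (p : ℤ) ∣ (β : ℤ) := by
    rwa [Int.natCast_dvd_natCast]
  have h2' : ¬ (p : ℤ) ∣ 2 := by
    intro h
    have h3 : p ∣ 2 := by exact_mod_cast h
    exact h2 ((Nat.prime_dvd_prime_iff_eq hp Nat.prime_two).1 h3)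
  have hpk : 0 < p ^ k := pow_pos hp.pos k
  have hdk : ((p ^ k : ℕ) : ℤ) ∣ ((p ^ (k + 1) : ℕ) : ℤ) := by
    rw [Int.natCast_dvd_natCast]
    exact pow_dvd_pow p (Nat.le_succ k)
  have hdp : (p : ℤ) ∣ ((p ^ k : ℕ) : ℤ) := by
    rw [Int.natCast_dvd_natCast]
    exact dvd_pow_self p (by omega)
  -- reduction of a solution
  have hmod : ∀ m : ℕ, ((p ^ k : ℕ) : ℤ) ∣ ((m : ℤ) - ((m % p ^ k : ℕ) : ℤ)) := by
    intro m
    rw [Int.natCast_mod]
    exact Int.dvd_self_sub_emod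
  have hpow : ∀ a b : ℤ, ∀ d : ℤ, d ∣ a - b → d ∣ (β : ℤ) * a ^ 4 - (β : ℤ) * b ^ 4 := by
    intro a b d h
    have : (β : ℤ) * a ^ 4 - (β : ℤ) * b ^ 4 = (a - b) * ((β : ℤ) * (a + b) * (a ^ 2 + b ^ 2)) := by
      ring
    rw [this]
    exact Dvd.dvd.mul_right h _
  unfold rho
  refine Finset.card_bij (fun m _ => m % p ^ k) ?_ ?_ ?_
  · intro m hm
    rw [Finset.mem_filter, Finset.mem_range] at hm
    rw [Finset.mem_filter, Finset.mem_range]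
    refine ⟨Nat.mod_lt _ hpk, ?_⟩
    have h3 := dvd_trans hdk hm.2
    have h4 := hpow _ _ _ (hmod m)
    have h5 := dvd_add h3 h4
    have h6 : x - (β : ℤ) * (m : ℤ) ^ 4 +
        ((β : ℤ) * (m : ℤ) ^ 4 - (β : ℤ) * ((m % p ^ k : ℕ) : ℤ) ^ 4) =
        x - (β : ℤ) * ((m % p ^ k : ℕ) : ℤ) ^ 4 := by ring
    rwa [h6] at h5
  · intro m hm m' hm' h
    rw [Finset.mem_filter, Finset.mem_range] at hm hm'
    have h : m % p ^ k = m' % p ^ k := h
    have e1 : ((p ^ k : ℕ) : ℤ) ∣ (m : ℤ) - (m' : ℤ) := by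
      have h3 := dvd_sub (hmod m) (hmod m')
      rw [h] at h3
      have h4 : (m : ℤ) - ((m' % p ^ k : ℕ) : ℤ) - ((m' : ℤ) - ((m' % p ^ k : ℕ) : ℤ)) =
        (m : ℤ) - (m' : ℤ) := by ring
      rwa [h4] at h3
    have e2 : (p : ℤ) ∣ (m : ℤ) - (m' : ℤ) := dvd_trans hdp e1
    have hpd1 : (p : ℤ) ∣ ((p ^ (k + 1) : ℕ) : ℤ) := dvd_trans hdp hdk
    have hm0 : ¬ (p : ℤ) ∣ (m : ℤ) := ndvd_sol hx (dvd_trans hpd1 hm.2)
    have hm1 : ¬ (p : ℤ) ∣ (m : ℤ) + (m' : ℤ) := by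
      intro h3
      have h4 := dvd_add h3 e2
      have h5 : (m : ℤ) + (m' : ℤ) + ((m : ℤ) - (m' : ℤ)) = 2 * (m : ℤ) := by ring
      rw [h5] at h4
      rcases hpi.dvd_or_dvd h4 with h6 | h6
      · exact h2' h6
      · exact hm0 h6
    have hm2 : ¬ (p : ℤ) ∣ (m : ℤ) ^ 2 + (m' : ℤ) ^ 2 := by
      intro h3
      have h4 : (p : ℤ) ∣ ((m : ℤ) - (m' : ℤ)) * ((m : ℤ) + (m' : ℤ)) := Dvd.dvd.mul_right e2 _
      have h5 := dvd_add h3 h4
      have h6 : (m : ℤ) ^ 2 + (m' : ℤ) ^ 2 + ((m : ℤ) - (m' : ℤ)) * ((m : ℤ) + (m' : ℤ)) =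
        2 * (m : ℤ) ^ 2 := by ring
      rw [h6] at h5
      rcases hpi.dvd_or_dvd h5 with h7 | h7
      · exact h2' h7
      · exact hm0 (hpi.dvd_of_dvd_pow h7)
    have e3 : ((p : ℤ) ^ (k + 1)) ∣
        ((β : ℤ) * (((m : ℤ) + (m' : ℤ)) * ((m : ℤ) ^ 2 + (m' : ℤ) ^ 2))) * ((m : ℤ) - (m' : ℤ)) := by
      have h3 := dvd_sub hm'.2 hm.2
      push_cast at h3
      have h4 : x - (β : ℤ) * (m' : ℤ) ^ 4 - (x - (β : ℤ) * (m : ℤ) ^ 4) =
        ((β : ℤ) * (((m : ℤ) + (m' : ℤ)) * ((m : ℤ) ^ 2 + (m' : ℤ) ^ 2))) * ((m : ℤ) - (m' : ℤ)) := by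
        ring
      rwa [h4] at h3
    have hn : ¬ (p : ℤ) ∣ (β : ℤ) * (((m : ℤ) + (m' : ℤ)) * ((m : ℤ) ^ 2 + (m' : ℤ) ^ 2)) := by
      intro h3
      rcases hpi.dvd_or_dvd h3 with h4 | h4
      · exact hβ' h4
      · rcases hpi.dvd_or_dvd h4 with h5 | h5
        · exact hm1 h5
        · exact hm2 h5
    have e4 : ((p : ℤ) ^ (k + 1)) ∣ (m : ℤ) - (m' : ℤ) := by
      refine IsCoprime.dvd_of_dvd_mul_left ?_ e3
      exact IsCoprime.pow_left ((Prime.coprime_iff_not_dvd hpi).2 hn)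
    have e5 : (m : ℤ) ≡ (m' : ℤ) [ZMOD ((p ^ (k + 1) : ℕ) : ℤ)] := by
      rw [Int.modEq_comm, Int.modEq_iff_dvd]
      push_cast
      exact e4
    have e6 : m ≡ m' [MOD p ^ (k + 1)] := (Int.natCast_modEq_iff).1 e5
    exact Nat.ModEq.eq_of_lt_of_lt e6 hm.1 hm'.1
  · intro m hm
    rw [Finset.mem_filter, Finset.mem_range] at hm
    obtain ⟨hmlt, c, hc⟩ := hm
    have hm0 : ¬ (p : ℤ) ∣ (m : ℤ) := ndvd_sol hx (dvd_trans hdp ⟨c, hc⟩)
    have hu : ¬ (p : ℤ) ∣ 4 * (β : ℤ) * (m : ℤ) ^ 3 := by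
      intro h3
      rcases hpi.dvd_or_dvd h3 with h4 | h4
      · rcases hpi.dvd_or_dvd h4 with h5 | h5
        · have h6 : (p : ℤ) ∣ 2 * 2 := by
            have : (2 : ℤ) * 2 = 4 := by norm_num
            rwa [this]
          rcases hpi.dvd_or_dvd h6 with h7 | h7 <;> exact h2' h7
        · exact hβ' h5
      · exact hm0 (hpi.dvd_of_dvd_pow h4)
    obtain ⟨a, b, hab⟩ := (Prime.coprime_iff_not_dvd hpi).2 hu
    -- a * p + b * (4 β m³) = 1
    have hppos : (0 : ℤ) < p := by exact_mod_cast hp.pos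
    obtain ⟨t, ht⟩ : ∃ t : ℕ, (t : ℤ) = (b * c) % (p : ℤ) :=
      ⟨((b * c) % (p : ℤ)).toNat, Int.toNat_of_nonneg (Int.emod_nonneg _ hppos.ne')⟩
    have htlt : t < p := by
      have := Int.emod_lt_of_pos (b * c) hppos
      rw [← ht] at this
      exact_mod_cast this
    have htd : (p : ℤ) ∣ b * c - (t : ℤ) := by
      rw [ht]
      exact Int.dvd_self_sub_emod
    obtain ⟨s, hs⟩ := htd
    have hct : (p : ℤ) ∣ c - 4 * (β : ℤ) * (m : ℤ) ^ 3 * (t : ℤ) := by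
      refine ⟨a * c + 4 * (β : ℤ) * (m : ℤ) ^ 3 * s, ?_⟩
      linear_combination (-c) * hab + (4 * (β : ℤ) * (m : ℤ) ^ 3) * hs
    obtain ⟨r, hr⟩ := hct
    refine ⟨m + p ^ k * t, ?_, ?_⟩
    · rw [Finset.mem_filter, Finset.mem_range]
      constructor
      · calc m + p ^ k * t < p ^ k + p ^ k * t := by omega
          _ = p ^ k * (t + 1) := by ring
          _ ≤ p ^ k * p := Nat.mul_le_mul_left _ htlt
          _ = p ^ (k + 1) := by ring
      · obtain ⟨j, rfl⟩ : ∃ j, k = j + 1 := ⟨k - 1, by omega⟩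
        push_cast at hc ⊢
        refine ⟨r - (β : ℤ) * (p : ℤ) ^ j * (6 * (m : ℤ) ^ 2 * (t : ℤ) ^ 2 +
          4 * (m : ℤ) * (p : ℤ) ^ (j + 1) * (t : ℤ) ^ 3 +
          ((p : ℤ) ^ (j + 1)) ^ 2 * (t : ℤ) ^ 4), ?_⟩
        have hr' : c = (p : ℤ) * r + 4 * (β : ℤ) * (m : ℤ) ^ 3 * (t : ℤ) := by
          linear_combination hr
        rw [hr'] at hc
        have hx' : x = (β : ℤ) * (m : ℤ) ^ 4 + (p : ℤ) ^ (j + 1) *
            ((p : ℤ) * r + 4 * (β : ℤ) * (m : ℤ) ^ 3 * (t : ℤ)) := by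
          linear_combination hc
        rw [hx']
        ring
    · change (m + p ^ k * t) % p ^ k = m
      rw [Nat.add_mul_mod_self_left, Nat.mod_eq_of_lt hmlt]

end Pool.Agent.Helper56.PX
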