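import Mathlib
import Pool.Agent.Helper56.PX.Hensel
import Pool.Agent.Helper56.PX.GG

/-!
PX-05 RhoPow. The bound `rho (p^k) ≤ 4 p^(k - ⌈k/4⌉)` and the local bounds for `gg`.

PROOF. `rho_pow_le`: strong induction on `k`, for all `x : ℤ` (`⌈k/4⌉ = (k+3)/4`).
* `p ∤ x`: `rho (p^k) = rho p ≤ 4` (`rho_hensel`, induction; `rho_prime_le`).
* `p ∣ x`: every solution `m < p^k` is divisible by `p`: `m = p m'`, `m' < p^(k-1)`. If `k ≤ 4` there are at most
  `p^(k-1)` such `m`, and `k - (k+3)/4 = k - 1`. If `k > 4`: `p^k ∣ x - β p⁴ m'⁴`. If `p⁴ ∤ x` there is no solution.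
  If `x = p⁴ x'`: `p^(k-4) ∣ x' - β m'⁴` with `m' < p^(k-1)`; `m' ↦ (m' % p^(k-4), m' / p^(k-4))` is injective, with
  values in (solutions modulo `p^(k-4)`) × `range (p³)`; so `rho_x (p^k) ≤ p³ rho_{x'} (p^(k-4))
  ≤ 4 p^(3 + (k-4) - (k-1)/4) = 4 p^(k - (k+3)/4)`.
`gg_pow_zero`: `gg_prime_pow` and `rho_hensel`. `gg_prime_zero`: `gg_prime` and `rho_prime_dvd`.
`abs_gg_prime_le`: if `p ∣ x` it is `0`, else `gg = rho - 1` with `0 ≤ rho ≤ 4`.
`abs_gg_pow_le`: `k = 1`: `3 ≤ 4`. `k ≥ 2`: `|rho (p^k) - rho (p^(k-1))| ≤ max` of the two, and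
`(k - 1) - (k+2)/4 ≤ k - (k+3)/4`.
-/

set_option autoImplicit false

namespace Pool.Agent.Helper56.PX

open Finset Pool.Agent.Helper11.Sq

private theorem rho_const {β p : ℕ} (hp : p.Prime) (h2 : p ≠ 2) (hβ : ¬ p ∣ β) {x : ℤ}
    (hx : ¬ (p : ℤ) ∣ x) (k : ℕ) : rho β x (p ^ (k + 1)) = rho β x p := by
  induction k with
  | zero => simp
  | succ k ih => rw [rho_hensel hp h2 hβ hx (by omega), ih]

theorem rho_pow_le {β p : ℕ} (hp : p.Prime) (h2 : p ≠ 2) (hβ : ¬ p ∣ β) (k : ℕ) (hk : 1 ≤ k)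
    (x : ℤ) : rho β x (p ^ k) ≤ 4 * p ^ (k - (k + 3) / 4) := by
  induction k using Nat.strong_induction_on generalizing x with
  | _ k ih =>
  have hpos : 0 < p := hp.pos
  by_cases hx : (p : ℤ) ∣ x
  swap
  · obtain ⟨j, rfl⟩ : ∃ j, k = j + 1 := ⟨k - 1, by omega⟩
    rw [rho_const hp h2 hβ hx j]
    refine (rho_prime_le hp hβ x).trans ?_
    exact Nat.le_mul_of_pos_right _ (pow_pos hpos _)
  have hdiv : ∀ m : ℕ, ((p ^ k : ℕ) : ℤ) ∣ x - (β : ℤ) * (m : ℤ) ^ 4 → p ∣ m := by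
    intro m hm
    have h3 : (p : ℤ) ∣ ((p ^ k : ℕ) : ℤ) := by
      exact_mod_cast dvd_pow_self p (by omega)
    have h4 : (p : ℤ) ∣ (β : ℤ) * (m : ℤ) ^ 4 := by
      have := dvd_sub hx (h3.trans hm)
      rwa [sub_sub_cancel] at this
    have h5 : p ∣ β * m ^ 4 := by exact_mod_cast h4
    exact hp.dvd_of_dvd_pow (((hp.dvd_mul).1 h5).resolve_left hβ)
  by_cases hk4 : k ≤ 4
  · have h3 : rho β x (p ^ k) ≤ p ^ (k - 1) := by
      unfold rho
      refine (Finset.card_le_card_of_injOn (t := range (p ^ (k - 1))) (fun m => m / p) ?_ ?_).trans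
        (le_of_eq (card_range _))
      · intro m hm
        rw [Finset.mem_coe, mem_filter, mem_range] at hm
        rw [Finset.mem_coe, mem_range]
        rw [Nat.div_lt_iff_lt_mul hpos, ← pow_succ, show k - 1 + 1 = k by omega]
        exact hm.1
      · intro m hm m' hm' h
        rw [Finset.mem_coe, mem_filter] at hm hm'
        obtain ⟨a, rfl⟩ := hdiv m hm.2
        obtain ⟨a', rfl⟩ := hdiv m' hm'.2
        simp only [Nat.mul_div_cancel_left _ hpos] at h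
        rw [h]
    have h4 : (k + 3) / 4 = 1 := by omega
    rw [h4]
    exact h3.trans (Nat.le_mul_of_pos_left _ (by norm_num))
  · push Not at hk4
    rcases Finset.eq_empty_or_nonempty
      ((range (p ^ k)).filter (fun m : ℕ => ((p ^ k : ℕ) : ℤ) ∣ x - (β : ℤ) * (m : ℤ) ^ 4)) with he | ⟨m₀, hm₀⟩
    · unfold rho
      rw [he, card_empty]
      exact Nat.zero_le _
    have hx4 : ((p ^ 4 : ℕ) : ℤ) ∣ x := by
      rw [mem_filter] at hm₀
      obtain ⟨a, rfl⟩ := hdiv m₀ hm₀.2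
      have h3 : ((p ^ 4 : ℕ) : ℤ) ∣ ((p ^ k : ℕ) : ℤ) := by
        exact_mod_cast pow_dvd_pow p (by omega)
      have h4 := h3.trans hm₀.2
      have h5 : ((p ^ 4 : ℕ) : ℤ) ∣ (β : ℤ) * ((p * a : ℕ) : ℤ) ^ 4 :=
        ⟨(β : ℤ) * (a : ℤ) ^ 4, by push_cast; ring⟩
      have := dvd_add h4 h5
      rwa [sub_add_cancel] at this
    obtain ⟨x', rfl⟩ := hx4
    have hsol : ∀ a : ℕ, ((p ^ k : ℕ) : ℤ) ∣ ((p ^ 4 : ℕ) : ℤ) * x' - (β : ℤ) * ((p * a : ℕ) : ℤ) ^ 4 →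
        ((p ^ (k - 4) : ℕ) : ℤ) ∣ x' - (β : ℤ) * (a : ℤ) ^ 4 := by
      intro a ha
      have h3 : ((p ^ 4 : ℕ) : ℤ) * x' - (β : ℤ) * ((p * a : ℕ) : ℤ) ^ 4 =
          ((p ^ 4 : ℕ) : ℤ) * (x' - (β : ℤ) * (a : ℤ) ^ 4) := by
        push_cast
        ring
      have h4 : ((p ^ k : ℕ) : ℤ) = ((p ^ 4 : ℕ) : ℤ) * ((p ^ (k - 4) : ℕ) : ℤ) := by
        rw [← Nat.cast_mul, ← pow_add, show 4 + (k - 4) = k by omega]
      rw [h3, h4] at ha
      have h5 : ((p ^ 4 : ℕ) : ℤ) ≠ 0 := by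
        have : 0 < p ^ 4 := pow_pos hpos _
        exact_mod_cast this.ne'
      exact (mul_dvd_mul_iff_left h5).1 ha
    set n : ℕ := p ^ (k - 4) with hn
    have hnpos : 0 < n := pow_pos hpos _
    have h6 : rho β (((p ^ 4 : ℕ) : ℤ) * x') (p ^ k) ≤ rho β x' n * p ^ 3 := by
      unfold rho
      rw [← card_range (p ^ 3), ← card_product]
      refine Finset.card_le_card_of_injOn (fun m => ((m / p) % n, (m / p) / n)) ?_ ?_
      · intro m hm
        rw [Finset.mem_coe, mem_filter, mem_range] at hm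
        rw [Finset.mem_coe, mem_product, mem_filter, mem_range, mem_range]
        obtain ⟨a, rfl⟩ := hdiv m hm.2
        simp only [Nat.mul_div_cancel_left _ hpos]
        refine ⟨⟨Nat.mod_lt _ hnpos, ?_⟩, ?_⟩
        · have h7 := hsol a hm.2
          have h8 : ((n : ℕ) : ℤ) ∣ (a : ℤ) - ((a % n : ℕ) : ℤ) := by
            refine ⟨((a / n : ℕ) : ℤ), ?_⟩
            have h9 := Nat.div_add_mod a n
            have h10 : (a : ℤ) = (n : ℤ) * ((a / n : ℕ) : ℤ) + ((a % n : ℕ) : ℤ) := by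
              exact_mod_cast h9.symm
            linarith
          have h11 : ((n : ℕ) : ℤ) ∣ (β : ℤ) * ((a : ℤ) ^ 4 - ((a % n : ℕ) : ℤ) ^ 4) :=
            Dvd.dvd.mul_left (h8.trans (sub_dvd_pow_sub_pow _ _ 4)) _
          have h12 := dvd_add h7 h11
          have h13 : x' - (β : ℤ) * (a : ℤ) ^ 4 + (β : ℤ) * ((a : ℤ) ^ 4 - ((a % n : ℕ) : ℤ) ^ 4) =
              x' - (β : ℤ) * ((a % n : ℕ) : ℤ) ^ 4 := by ring
          rwa [h13] at h12
        · rw [Nat.div_lt_iff_lt_mul hnpos, hn, ← pow_add, show 3 + (k - 4) = k - 1 by omega]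
          have h14 : p * a < p * p ^ (k - 1) := by
            rw [← pow_succ', show k - 1 + 1 = k by omega]
            exact hm.1
          exact lt_of_mul_lt_mul_left h14 (Nat.zero_le _)
      · intro m hm m' hm' h
        rw [Finset.mem_coe, mem_filter] at hm hm'
        obtain ⟨a, rfl⟩ := hdiv m hm.2
        obtain ⟨a', rfl⟩ := hdiv m' hm'.2
        simp only [Nat.mul_div_cancel_left _ hpos, Prod.mk.injEq] at h
        have h15 := Nat.div_add_mod a n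
        have h16 := Nat.div_add_mod a' n
        rw [h.1, h.2] at h15
        rw [h15] at h16
        rw [h16]
    refine h6.trans ?_
    refine (Nat.mul_le_mul_right _ (ih (k - 4) (by omega) (by omega) x')).trans (le_of_eq ?_)
    rw [mul_assoc, ← pow_add]
    congr 2
    omega

theorem gg_pow_zero {β p : ℕ} (hp : p.Prime) (h2 : p ≠ 2) (hβ : ¬ p ∣ β) {x : ℤ}
    (hx : ¬ (p : ℤ) ∣ x) {k : ℕ} (hk : 2 ≤ k) : gg β x (p ^ k) = 0 := by
  obtain ⟨j, rfl⟩ : ∃ j, k = j + 1 := ⟨k - 1, by omega⟩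
  rw [gg_prime_pow β x hp j, rho_hensel hp h2 hβ hx (by omega), sub_self]

theorem gg_prime_zero {β p : ℕ} (hp : p.Prime) (hβ : ¬ p ∣ β) {x : ℤ} (hx : (p : ℤ) ∣ x) :
    gg β x p = 0 := by
  rw [gg_prime β x hp, rho_prime_dvd hp hβ hx]
  norm_num

theorem abs_gg_prime_le {β p : ℕ} (hp : p.Prime) (hβ : ¬ p ∣ β) (x : ℤ) : |gg β x p| ≤ 3 := by
  rw [gg_prime β x hp, abs_le]
  have h1 : (rho β x p : ℤ) ≤ 4 := by exact_mod_cast rho_prime_le hp hβ x
  have h2 : (0 : ℤ) ≤ (rho β x p : ℤ) := Int.natCast_nonneg _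
  constructor <;> linarith

theorem abs_gg_pow_le {β p : ℕ} (hp : p.Prime) (h2 : p ≠ 2) (hβ : ¬ p ∣ β) (x : ℤ) {k : ℕ}
    (hk : 1 ≤ k) : |gg β x (p ^ k)| ≤ 4 * (p : ℤ) ^ (k - (k + 3) / 4) := by
  have hp1 : 1 ≤ p := hp.pos
  rcases Nat.lt_or_ge 1 k with h | h
  · obtain ⟨j, rfl⟩ : ∃ j, k = j + 1 := ⟨k - 1, by omega⟩
    have h3 : (rho β x (p ^ (j + 1)) : ℤ) ≤ 4 * (p : ℤ) ^ (j + 1 - (j + 1 + 3) / 4) := by
      exact_mod_cast rho_pow_le hp h2 hβ (j + 1) (by omega) x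
    have h4 : (rho β x (p ^ j) : ℤ) ≤ 4 * (p : ℤ) ^ (j + 1 - (j + 1 + 3) / 4) := by
      have h5 := rho_pow_le hp h2 hβ j (by omega) x
      have h6 : 4 * p ^ (j - (j + 3) / 4) ≤ 4 * p ^ (j + 1 - (j + 1 + 3) / 4) :=
        Nat.mul_le_mul_left _ (Nat.pow_le_pow_right hp1 (by omega))
      exact_mod_cast h5.trans h6
    have h7 : (0 : ℤ) ≤ (rho β x (p ^ (j + 1)) : ℤ) := Int.natCast_nonneg _
    have h8 : (0 : ℤ) ≤ (rho β x (p ^ j) : ℤ) := Int.natCast_nonneg _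
    rw [gg_prime_pow β x hp j, abs_le]
    constructor <;> linarith
  · have hk1 : k = 1 := by omega
    subst hk1
    rw [pow_one]
    refine (abs_gg_prime_le hp hβ x).trans ?_
    norm_num

end Pool.Agent.Helper56.PX
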