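import Mathlib
import Pool.Agent.Helper56.PX.RhoPow
import Pool.Agent.Helper56.PX.Mean

/-!
PX-07 TupleSum. Sums over `n` of products of `gg (α n) (t i)`.

`Ω = ArithmeticFunction.cardFactors`.

PROOF. `abs_gg_rough_le`: induction over the squarefree number `b` (for example strong induction: `b = 1`, or `b = p b'`
with `p` prime, `p ∤ b'`; `gg_mul`, `abs_gg_prime_le`, `Ω (p b') = 1 + Ω b'`); `Rough z b'` is inherited by divisors.
Periodicity: `n ↦ gg β (α n) b` is periodic modulo `b`, hence modulo every multiple of `b` (`gg_congr`: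
`b ∣ α (n + m) - α n` if `b ∣ m`).
`tuple_sum_le`: write `t i0 = p b'`, `p ∤ b'` (squarefree). With `f n = gg β (α n) p` and
`F n = gg β (α n) b' * ∏_{i ≠ i0} gg β (α n) (t i)` the product over `i` is `f n * F n` (`gg_mul`). `F` is periodic
modulo `m' = b' ∏_{i ≠ i0} t i`, which is coprime to `p`, and `p m' = ∏ i, t i =: M`. `crt_zero` and `sum_gg_prime` give
mean zero over `range M`; the product is bounded by `∏ 3^(Ω (t i)) = 3^(Ω M)` (`cardFactors_mul`; all `t i ≠ 0`);
`incomplete`.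
`tuple_sum_trivial`: the same bound for every term.
-/

set_option autoImplicit false

namespace Pool.Agent.Helper56.PX

open Finset Pool.Agent.Helper11.Sq

theorem abs_gg_rough_le {β z b : ℕ} (hβ : ∀ p : ℕ, p.Prime → z < p → ¬ p ∣ β) (hb : Rough z b)
    (x : ℤ) : |gg β x b| ≤ 3 ^ ArithmeticFunction.cardFactors b := by
  induction b using Nat.strong_induction_on with
  | _ b ih =>
    by_cases h1 : b = 1
    · subst h1
      rw [gg_one]
      simp
    · obtain ⟨p, hp, b', rfl⟩ := Nat.exists_prime_and_dvd h1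
      have hco : p.Coprime b' := Nat.coprime_of_squarefree_mul hb.1
      have hb0 : b' ≠ 0 := by
        rintro rfl
        rw [mul_zero] at hb
        exact not_squarefree_zero hb.1
      have hb' : Rough z b' :=
        ⟨hb.1.of_mul_right, fun q hq hqb => hb.2 q hq (hqb.mul_left p)⟩
      have hzp : z < p := hb.2 p hp (dvd_mul_right _ _)
      have hlt : b' < p * b' := by
        have := hp.two_le
        have := Nat.pos_of_ne_zero hb0
        nlinarith
      rw [gg_mul β x hco, abs_mul, ArithmeticFunction.cardFactors_mul hp.ne_zero hb0,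
        ArithmeticFunction.cardFactors_apply_prime hp, pow_add, pow_one]
      exact mul_le_mul (abs_gg_prime_le hp (hβ p hp hzp) x) (ih b' hlt hb') (abs_nonneg _)
        (by norm_num)

private theorem omega_prod {r : ℕ} (t : Fin r → ℕ) (s : Finset (Fin r)) (h : ∀ i, t i ≠ 0) :
    ArithmeticFunction.cardFactors (∏ i ∈ s, t i) =
      ∑ i ∈ s, ArithmeticFunction.cardFactors (t i) := by
  classical
  induction s using Finset.induction_on with
  | empty => simp
  | insert a s ha ih =>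
    rw [prod_insert ha, sum_insert ha,
      ArithmeticFunction.cardFactors_mul (h a) (prod_ne_zero_iff.2 fun i _ => h i), ih]

private theorem abs_prod_le {β z r : ℕ} (hβ : ∀ p : ℕ, p.Prime → z < p → ¬ p ∣ β)
    (t : Fin r → ℕ) (ht : ∀ i, Rough z (t i)) (x : ℤ) :
    |∏ i, gg β x (t i)| ≤ 3 ^ ArithmeticFunction.cardFactors (∏ i, t i) := by
  have h0 : ∀ i, t i ≠ 0 := fun i h => not_squarefree_zero (h ▸ (ht i).1)
  rw [abs_prod, omega_prod t univ h0, ← prod_pow_eq_pow_sum]
  exact prod_le_prod (fun i _ => abs_nonneg _) fun i _ => abs_gg_rough_le hβ (ht i) x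

private theorem gg_per (α β : ℕ) {b m : ℕ} (h : b ∣ m) (n : ℕ) :
    gg β ((α : ℤ) * ((n + m : ℕ) : ℤ)) b = gg β ((α : ℤ) * (n : ℤ)) b := by
  apply gg_congr
  have h1 : (b : ℤ) ∣ (m : ℤ) := by exact_mod_cast h
  have h2 : (α : ℤ) * ((n + m : ℕ) : ℤ) - (α : ℤ) * (n : ℤ) = (α : ℤ) * (m : ℤ) := by
    push_cast
    ring
  rw [h2]
  exact h1.mul_left _

theorem tuple_sum_le {α β z r : ℕ} (hαβ : ∀ p : ℕ, p.Prime → z < p → ¬ p ∣ α ∧ ¬ p ∣ β)
    (t : Fin r → ℕ) (ht : ∀ i, Rough z (t i)) {p : ℕ} (hp : p.Prime) (i0 : Fin r)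
    (h0 : p ∣ t i0) (h1 : ∀ i, i ≠ i0 → ¬ p ∣ t i) (N : ℕ) :
    |∑ n ∈ range N, ∏ i, gg β ((α : ℤ) * (n : ℤ)) (t i)| ≤
      ((∏ i, t i : ℕ) : ℤ) * 3 ^ ArithmeticFunction.cardFactors (∏ i, t i) := by
  classical
  have ht0 : ∀ i, t i ≠ 0 := fun i h => not_squarefree_zero (h ▸ (ht i).1)
  have hM : 0 < ∏ i, t i := Nat.pos_of_ne_zero (prod_ne_zero_iff.2 fun i _ => ht0 i)
  have hz : z < p := (ht i0).2 p hp h0
  obtain ⟨b, hb⟩ := h0
  have hsq : Squarefree (p * b) := hb ▸ (ht i0).1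
  have hco : p.Coprime b := Nat.coprime_of_squarefree_mul hsq
  set m' : ℕ := b * ∏ i ∈ univ.erase i0, t i with hm'
  have hpm : p * m' = ∏ i, t i := by
    rw [hm', ← mul_assoc, ← hb, mul_prod_erase univ t (mem_univ i0)]
  have hm0 : 0 < m' := by
    rcases Nat.eq_zero_or_pos m' with h | h
    · rw [h, mul_zero] at hpm
      omega
    · exact h
  have hcop : p.Coprime m' := by
    refine Nat.Coprime.mul_right hco (Nat.Coprime.prod_right fun i hi => ?_)
    exact (hp.coprime_iff_not_dvd).2 (h1 i (ne_of_mem_erase hi))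
  refine incomplete (f := fun n => ∏ i, gg β ((α : ℤ) * (n : ℤ)) (t i)) hM ?_ ?_ ?_ N
  · intro n
    exact prod_congr rfl fun i _ => gg_per α β (dvd_prod_of_mem t (mem_univ i)) n
  · rw [← hpm]
    have h2 := crt_zero (f := fun n => gg β ((α : ℤ) * (n : ℤ)) p)
      (F := fun n => gg β ((α : ℤ) * (n : ℤ)) b *
        ∏ i ∈ univ.erase i0, gg β ((α : ℤ) * (n : ℤ)) (t i)) hp.pos hm0 hcop
      (fun n => gg_per α β dvd_rfl n) (fun n => by
        rw [gg_per α β (dvd_mul_right b _) n]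
        congr 1
        exact prod_congr rfl fun i hi => gg_per α β ((dvd_prod_of_mem t hi).mul_left b) n)
      (sum_gg_prime hp (hαβ p hp hz).1)
    refine Eq.trans (sum_congr rfl fun n _ => ?_) h2
    rw [← mul_assoc, ← gg_mul β _ hco, ← hb,
      mul_prod_erase univ (fun i => gg β ((α : ℤ) * (n : ℤ)) (t i)) (mem_univ i0)]
  · intro n
    exact abs_prod_le (fun q hq hzq => (hαβ q hq hzq).2) t ht _

theorem tuple_sum_trivial {α β z r : ℕ} (hβ : ∀ p : ℕ, p.Prime → z < p → ¬ p ∣ β)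
    (t : Fin r → ℕ) (ht : ∀ i, Rough z (t i)) (N : ℕ) :
    |∑ n ∈ range N, ∏ i, gg β ((α : ℤ) * (n : ℤ)) (t i)| ≤
      (N : ℤ) * 3 ^ ArithmeticFunction.cardFactors (∏ i, t i) := by
  refine (abs_sum_le_sum_abs _ _).trans ?_
  refine (sum_le_sum fun n _ => abs_prod_le hβ t ht _).trans ?_
  rw [sum_const, card_range, nsmul_eq_mul]

end Pool.Agent.Helper56.PX
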