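import Mathlib

/-!
PX-08 Tuples. The number of `r`-tuples with product `M` is at most `r ^ Ω(M)`.

PROOF. Induction on `M` (`Nat.recOnMul`-like: strong induction with the smallest prime factor). `M = 1`: all entries are
`1`, so at most one tuple (for all `r`), and `r ^ 0 = 1`. `M = p M'`, `p` prime, `M' ≠ 0`: if `∏ t i = p M'` then `p ∣ t i` for
some `i`; the tuple `t' = Function.update t i (t i / p)` has product `M'` and `t = Function.update t' i (p * t' i)`. So `T` is
contained in the union over `i : Fin r` of the images, under `t' ↦ Function.update t' i (p * t' i)`, of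
`T' = ` the set of all these `t'` (a finite set, built as the image of `univ ×ˢ T`, filtered by product `= M'`); induction
hypothesis for `T'` gives `#T ≤ r * r ^ Ω(M')`, and `Ω(p M') = 1 + Ω(M')`.
-/

set_option autoImplicit false

namespace Pool.Agent.Helper56.PX

open Finset

theorem card_tuples_le (r M : ℕ) (hM : M ≠ 0) (T : Finset (Fin r → ℕ))
    (hT : ∀ t ∈ T, ∏ i, t i = M) : #T ≤ r ^ ArithmeticFunction.cardFactors M := by
  classical
  revert hM T
  induction M using induction_on_primes with
  | zero => intro h; exact absurd rfl h
  | one =>
    intro _ T hT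
    rw [ArithmeticFunction.cardFactors_one, pow_zero]
    have h1 : T ⊆ {fun _ => 1} := by
      intro t ht
      rw [Finset.mem_singleton]
      funext i
      have h2 : t i ∣ ∏ j, t j := Finset.dvd_prod_of_mem t (Finset.mem_univ i)
      rw [hT t ht] at h2
      exact Nat.dvd_one.mp h2
    exact (Finset.card_le_card h1).trans (Finset.card_singleton _).le
  | prime_mul p a hp ih =>
    intro hpa T hT
    have ha : a ≠ 0 := right_ne_zero_of_mul hpa
    set T' : Finset (Fin r → ℕ) := ((Finset.univ ×ˢ T).image
      (fun x : Fin r × (Fin r → ℕ) => Function.update x.2 x.1 (x.2 x.1 / p))).filter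
      (fun t => ∏ i, t i = a) with hT'
    have h1 : #T' ≤ r ^ ArithmeticFunction.cardFactors a :=
      ih ha T' fun t ht => (Finset.mem_filter.mp ht).2
    have h2 : T ⊆ (Finset.univ ×ˢ T').image
        (fun x : Fin r × (Fin r → ℕ) => Function.update x.2 x.1 (p * x.2 x.1)) := by
      intro t ht
      have h3 : p ∣ ∏ i, t i := by
        rw [hT t ht]
        exact Nat.dvd_mul_right p a
      obtain ⟨i, _, c, hc⟩ := (hp.prime.dvd_finsetProd_iff _).mp h3
      have hc2 : t i / p = c := by
        rw [hc]
        exact Nat.mul_div_cancel_left c hp.pos
      rw [Finset.mem_image]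
      refine ⟨(i, Function.update t i (t i / p)), ?_, ?_⟩
      · rw [Finset.mem_product]
        refine ⟨Finset.mem_univ _, ?_⟩
        rw [hT', Finset.mem_filter, Finset.mem_image]
        refine ⟨⟨(i, t), Finset.mem_product.mpr ⟨Finset.mem_univ _, ht⟩, rfl⟩, ?_⟩
        have h4 := Finset.prod_update_of_mem (Finset.mem_univ i) t (t i)
        rw [Function.update_eq_self, hT t ht, hc] at h4
        change ∏ j, Function.update t i (t i / p) j = a
        rw [Finset.prod_update_of_mem (Finset.mem_univ i), hc2]
        apply Nat.eq_of_mul_eq_mul_left hp.pos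
        rw [h4, mul_assoc]
      · change Function.update (Function.update t i (t i / p)) i
          (p * (Function.update t i (t i / p)) i) = t
        rw [Function.update_self, Function.update_idem, hc2, ← hc, Function.update_eq_self]
    refine (Finset.card_le_card h2).trans (Finset.card_image_le.trans ?_)
    rw [Finset.card_product, Finset.card_univ, Fintype.card_fin,
      ArithmeticFunction.cardFactors_mul hp.ne_zero ha,
      ArithmeticFunction.cardFactors_apply_prime hp, pow_add, pow_one]
    exact Nat.mul_le_mul_left r h1

end Pool.Agent.Helper56.PX
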