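import Mathlib
import Pool.Agent.Helper56.PX.TupleSum
import Pool.Agent.Helper56.PX.Tuples
import Pool.Agent.Helper56.PX.Powerful

/-!
PX-10 Moment. The `2k`-th moment of a sum over rough squarefree `b ∈ (Y, 2Y]`.

PROOF. `r = 2k`. `Finset.sum_pow'` (or `Finset.prod_univ_sum`) expands the power into the sum over
`t ∈ Fintype.piFinset (fun _ : Fin r => S)` of `(∏ c (t i)) ∏ gg (α n) (t i)`; exchange the sums over `n` and `t`;
`|∏ c (t i)| ≤ 1`. For a tuple `t` put `M = ∏ t i`, `1 ≤ M ≤ (2Y)^r`, and all prime factors of `M` are `> z`, so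
`z^(Ω M) ≤ M ≤ (2Y)^(2k)`, hence `((6k)^(Ω M))^8 ≤ z^(Ω M) ≤ (2Y)^(2k)`, i.e.
`(6k)^(Ω M) ≤ ((2Y)^k)^(1/4) =: K` (real power).
Case A, some prime divides exactly one `t i`: `tuple_sum_le`: the inner sum is `≤ M 3^(Ω M) ≤ (2Y)^(2k) K`. There are at
most `#S^(2k) ≤ Y^(2k)` tuples.
Case B, otherwise: `M` is powerful (`p ∣ M → p ∣ t i, t j`, `i ≠ j → p² ∣ M`). `tuple_sum_trivial`: inner sum
`≤ N 3^(Ω M)`. Group by `M` (`Finset.card_eq_sum_card_image` or `sum_fiberwise`): at most `3 √((2Y)^(2k)) = 3 (2Y)^k` values of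
`M` (`card_powerful_le`), each with at most `(2k)^(Ω M)` tuples (`card_tuples_le`), total
`≤ 3 (2Y)^k N (2k)^(Ω M) 3^(Ω M) ≤ 3 (2Y)^k N K`.
-/

set_option autoImplicit false

namespace Pool.Agent.Helper56.PX

open Finset Pool.Agent.Helper11.Sq

private lemma pow_card_le {z M : ℕ} (hM : M ≠ 0) (h : ∀ p : ℕ, p.Prime → p ∣ M → z < p) :
    z ^ ArithmeticFunction.cardFactors M ≤ M := by
  rw [ArithmeticFunction.cardFactors_apply]
  have h1 : z ^ M.primeFactorsList.length ≤ M.primeFactorsList.prod := by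
    refine List.pow_card_le_prod _ _ ?_
    intro p hp
    exact (h p (Nat.prime_of_mem_primeFactorsList hp) (Nat.dvd_of_mem_primeFactorsList hp)).le
  rwa [Nat.prod_primeFactorsList hM] at h1

private lemma six_pow_le {z k Y M : ℕ} (hz : (6 * k) ^ 8 ≤ z) (hM : M ≠ 0)
    (h : ∀ p : ℕ, p.Prime → p ∣ M → z < p) (hMY : M ≤ (2 * Y) ^ (2 * k)) :
    ((6 : ℝ) * k) ^ ArithmeticFunction.cardFactors M ≤ ((2 * (Y : ℝ)) ^ k) ^ (1 / 4 : ℝ) := by
  have hb : (0 : ℝ) ≤ (2 * (Y : ℝ)) ^ k := by positivity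
  have hK0 : (0 : ℝ) ≤ ((2 * (Y : ℝ)) ^ k) ^ (1 / 4 : ℝ) := by positivity
  have hK4 : (((2 * (Y : ℝ)) ^ k) ^ (1 / 4 : ℝ)) ^ 4 = (2 * (Y : ℝ)) ^ k := by
    rw [← Real.rpow_natCast, ← Real.rpow_mul hb]
    norm_num
  have h1 : ((6 * k) ^ ArithmeticFunction.cardFactors M) ^ 8 ≤ (2 * Y) ^ (2 * k) := by
    calc ((6 * k) ^ ArithmeticFunction.cardFactors M) ^ 8 =
          ((6 * k) ^ 8) ^ ArithmeticFunction.cardFactors M := by
          rw [← pow_mul, ← pow_mul, mul_comm (ArithmeticFunction.cardFactors M) 8]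
      _ ≤ z ^ ArithmeticFunction.cardFactors M := Nat.pow_le_pow_left hz _
      _ ≤ M := pow_card_le hM h
      _ ≤ _ := hMY
  have h2 : (((6 : ℝ) * k) ^ ArithmeticFunction.cardFactors M) ^ 8 ≤
      (((2 * (Y : ℝ)) ^ k) ^ (1 / 4 : ℝ)) ^ 8 := by
    have h3 : (((2 * (Y : ℝ)) ^ k) ^ (1 / 4 : ℝ)) ^ 8 = (2 * (Y : ℝ)) ^ (2 * k) := by
      rw [show (8 : ℕ) = 4 * 2 by norm_num, pow_mul, hK4, ← pow_mul, mul_comm k 2]
    rw [h3]
    exact_mod_cast h1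
  exact le_of_pow_le_pow_left₀ (by norm_num) hK0 h2

private lemma three_pow_le {k n : ℕ} (hk : 1 ≤ k) : (3 : ℝ) ^ n ≤ ((6 : ℝ) * k) ^ n := by
  have h1 : (1 : ℝ) ≤ k := by exact_mod_cast hk
  exact pow_le_pow_left₀ (by norm_num) (by linarith) n

theorem moment {α β z k Y : ℕ} (hk : 1 ≤ k) (hz : (6 * k) ^ 8 ≤ z) (hY : 1 ≤ Y)
    (hαβ : ∀ p : ℕ, p.Prime → z < p → ¬ p ∣ α ∧ ¬ p ∣ β) (S : Finset ℕ)
    (hS : ∀ b ∈ S, Y < b ∧ b ≤ 2 * Y ∧ Rough z b) (c : ℕ → ℝ) (hc : ∀ b ∈ S, |c b| ≤ 1)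
    (N : ℕ) :
    ∑ n ∈ range N, (∑ b ∈ S, c b * (gg β ((α : ℤ) * (n : ℤ)) b : ℝ)) ^ (2 * k) ≤
      ((2 * (Y : ℝ)) ^ k) ^ (1 / 4 : ℝ) *
        ((Y : ℝ) ^ (2 * k) * (2 * (Y : ℝ)) ^ (2 * k) + 3 * N * (2 * (Y : ℝ)) ^ k) := by
  classical
  obtain ⟨T, hT⟩ : ∃ T : Finset (Fin (2 * k) → ℕ),
    T = Fintype.piFinset (fun _ : Fin (2 * k) => S) := ⟨_, rfl⟩
  obtain ⟨K, hK⟩ : ∃ K : ℝ, K = ((2 * (Y : ℝ)) ^ k) ^ (1 / 4 : ℝ) := ⟨_, rfl⟩
  obtain ⟨A, hA⟩ : ∃ A : (Fin (2 * k) → ℕ) → ℤ, A = fun t =>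
    |∑ n ∈ range N, ∏ i, gg β ((α : ℤ) * (n : ℤ)) (t i)| := ⟨_, rfl⟩
  obtain ⟨Mt, hMt⟩ : ∃ Mt : (Fin (2 * k) → ℕ) → ℕ, Mt = fun t => ∏ i, t i := ⟨_, rfl⟩
  have hK0 : 0 ≤ K := by
    rw [hK]
    positivity
  have hTS : ∀ t ∈ T, ∀ i, t i ∈ S := by
    intro t ht i
    rw [hT, Fintype.mem_piFinset] at ht
    exact ht i
  have hrough : ∀ t ∈ T, ∀ i, Rough z (t i) := fun t ht i => (hS _ (hTS t ht i)).2.2
  have hMne : ∀ t ∈ T, Mt t ≠ 0 := by
    intro t ht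
    rw [hMt]
    refine Finset.prod_ne_zero_iff.mpr fun i _ => ?_
    have := (hS _ (hTS t ht i)).1
    omega
  have hMle : ∀ t ∈ T, Mt t ≤ (2 * Y) ^ (2 * k) := by
    intro t ht
    rw [hMt]
    calc ∏ i, t i ≤ ∏ _i : Fin (2 * k), (2 * Y) :=
          Finset.prod_le_prod' fun i _ => (hS _ (hTS t ht i)).2.1
      _ = _ := by
          rw [Finset.prod_const, Finset.card_univ, Fintype.card_fin]
  have hMp : ∀ t ∈ T, ∀ p : ℕ, p.Prime → p ∣ Mt t → z < p := by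
    intro t ht p hp hpM
    rw [hMt] at hpM
    obtain ⟨i, -, hi⟩ := (Prime.dvd_finsetProd_iff hp.prime _).mp hpM
    exact (hrough t ht i).2 p hp hi
  have hsix : ∀ t ∈ T, ((6 : ℝ) * k) ^ ArithmeticFunction.cardFactors (Mt t) ≤ K := by
    intro t ht
    rw [hK]
    exact six_pow_le hz (hMne t ht) (hMp t ht) (hMle t ht)
  -- expansion
  have hexp : ∑ n ∈ range N, (∑ b ∈ S, c b * (gg β ((α : ℤ) * (n : ℤ)) b : ℝ)) ^ (2 * k) ≤
      ∑ t ∈ T, ((A t : ℤ) : ℝ) := by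
    have h1 : ∀ n ∈ range N, (∑ b ∈ S, c b * (gg β ((α : ℤ) * (n : ℤ)) b : ℝ)) ^ (2 * k) =
        ∑ t ∈ T, (∏ i, c (t i)) * ((∏ i, gg β ((α : ℤ) * (n : ℤ)) (t i) : ℤ) : ℝ) := by
      intro n _
      rw [Finset.sum_pow', ← hT]
      refine Finset.sum_congr rfl fun t _ => ?_
      rw [Finset.prod_mul_distrib]
      push_cast
      rfl
    rw [Finset.sum_congr rfl h1, Finset.sum_comm]
    refine Finset.sum_le_sum fun t ht => ?_
    rw [← Finset.mul_sum]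
    have h2 : |∏ i, c (t i)| ≤ 1 := by
      rw [Finset.abs_prod]
      exact Finset.prod_le_one (fun i _ => abs_nonneg _) fun i _ => hc _ (hTS t ht i)
    have h3 : ((A t : ℤ) : ℝ) =
        |∑ n ∈ range N, ((∏ i, gg β ((α : ℤ) * (n : ℤ)) (t i) : ℤ) : ℝ)| := by
      rw [hA]
      push_cast
      rfl
    rw [h3]
    refine (le_abs_self _).trans ?_
    rw [abs_mul]
    calc |∏ i, c (t i)| * |∑ n ∈ range N, ((∏ i, gg β ((α : ℤ) * (n : ℤ)) (t i) : ℤ) : ℝ)|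
        ≤ 1 * |∑ n ∈ range N, ((∏ i, gg β ((α : ℤ) * (n : ℤ)) (t i) : ℤ) : ℝ)| :=
          mul_le_mul_of_nonneg_right h2 (abs_nonneg _)
      _ = _ := one_mul _
  -- the two kinds of tuples
  obtain ⟨Q, hQ⟩ : ∃ Q : (Fin (2 * k) → ℕ) → Prop, Q = fun t =>
    ∃ p : ℕ, p.Prime ∧ ∃ i0, p ∣ t i0 ∧ ∀ i, i ≠ i0 → ¬ p ∣ t i := ⟨_, rfl⟩
  have hone : ∑ t ∈ T.filter Q, ((A t : ℤ) : ℝ) ≤ K * ((Y : ℝ) ^ (2 * k) * (2 * (Y : ℝ)) ^ (2 * k)) := by
    have h1 : ∀ t ∈ T.filter Q, ((A t : ℤ) : ℝ) ≤ (2 * (Y : ℝ)) ^ (2 * k) * K := by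
      intro t ht
      rw [mem_filter, hQ] at ht
      obtain ⟨htT, p, hp, i0, h0, h1⟩ := ht
      have h2 := tuple_sum_le hαβ t (hrough t htT) hp i0 h0 h1 N
      have h3 : ((A t : ℤ) : ℝ) ≤ (Mt t : ℝ) * 3 ^ ArithmeticFunction.cardFactors (Mt t) := by
        rw [hA, hMt]
        exact_mod_cast h2
      have h4 : (Mt t : ℝ) ≤ (2 * (Y : ℝ)) ^ (2 * k) := by exact_mod_cast hMle t htT
      have h5 : (3 : ℝ) ^ ArithmeticFunction.cardFactors (Mt t) ≤ K :=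
        (three_pow_le hk).trans (hsix t htT)
      exact h3.trans (mul_le_mul h4 h5 (by positivity) (by positivity))
    have hcS : (#S : ℝ) ≤ Y := by
      have h2 : S ⊆ Ioc Y (2 * Y) := by
        intro b hb
        rw [mem_Ioc]
        exact ⟨(hS b hb).1, (hS b hb).2.1⟩
      have h3 := Finset.card_le_card h2
      rw [Nat.card_Ioc] at h3
      have h4 : #S ≤ Y := by omega
      exact_mod_cast h4
    have hcT : (#T : ℝ) ≤ (Y : ℝ) ^ (2 * k) := by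
      rw [hT, Fintype.card_piFinset_const]
      push_cast
      exact pow_le_pow_left₀ (Nat.cast_nonneg _) hcS _
    have hcQ : (#(T.filter Q) : ℝ) ≤ (Y : ℝ) ^ (2 * k) := by
      refine le_trans ?_ hcT
      exact_mod_cast Finset.card_filter_le _ _
    calc ∑ t ∈ T.filter Q, ((A t : ℤ) : ℝ) ≤ ∑ _t ∈ T.filter Q, (2 * (Y : ℝ)) ^ (2 * k) * K :=
          Finset.sum_le_sum h1
      _ = (#(T.filter Q) : ℝ) * ((2 * (Y : ℝ)) ^ (2 * k) * K) := by
          rw [Finset.sum_const, nsmul_eq_mul]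
      _ ≤ (Y : ℝ) ^ (2 * k) * ((2 * (Y : ℝ)) ^ (2 * k) * K) :=
          mul_le_mul_of_nonneg_right hcQ (by positivity)
      _ = _ := by ring
  have htwo : ∑ t ∈ T.filter (fun t => ¬ Q t), ((A t : ℤ) : ℝ) ≤ K * (3 * N * (2 * (Y : ℝ)) ^ k) := by
    obtain ⟨TB, hTB⟩ : ∃ TB : Finset (Fin (2 * k) → ℕ), TB = T.filter (fun t => ¬ Q t) := ⟨_, rfl⟩
    rw [← hTB]
    have hTBT : ∀ t ∈ TB, t ∈ T ∧ ¬ Q t := by
      intro t ht
      rw [hTB, mem_filter] at ht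
      exact ht
    have h1 : ∀ t ∈ TB, ((A t : ℤ) : ℝ) ≤ N * 3 ^ ArithmeticFunction.cardFactors (Mt t) := by
      intro t ht
      have h2 := tuple_sum_trivial (α := α) (fun p hp hzp => (hαβ p hp hzp).2) t
        (hrough t (hTBT t ht).1) N
      rw [hA, hMt]
      exact_mod_cast h2
    have hpow : ∀ M ∈ TB.image Mt, 1 ≤ M ∧ M ≤ (2 * Y) ^ (2 * k) ∧
        ∀ p : ℕ, p.Prime → p ∣ M → p ^ 2 ∣ M := by
      intro M hM
      rw [mem_image] at hM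
      obtain ⟨t, ht, rfl⟩ := hM
      obtain ⟨htT, htQ⟩ := hTBT t ht
      refine ⟨Nat.pos_of_ne_zero (hMne t htT), hMle t htT, ?_⟩
      intro p hp hpM
      rw [hMt] at hpM ⊢
      obtain ⟨i, -, hi⟩ := (Prime.dvd_finsetProd_iff hp.prime _).mp hpM
      have h3 : ∃ j, j ≠ i ∧ p ∣ t j := by
        by_contra hcon
        push Not at hcon
        rw [hQ] at htQ
        exact htQ ⟨p, hp, i, hi, fun j hj => hcon j hj⟩
      obtain ⟨j, hji, hj⟩ := h3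
      have h4 : ∏ x ∈ ({i, j} : Finset (Fin (2 * k))), t x ∣ ∏ x, t x :=
        Finset.prod_dvd_prod_of_subset _ _ _ (Finset.subset_univ _)
      rw [Finset.prod_pair (Ne.symm hji)] at h4
      rw [pow_two]
      exact (mul_dvd_mul hi hj).trans h4
    have hcard : (#(TB.image Mt) : ℝ) ≤ 3 * (2 * (Y : ℝ)) ^ k := by
      have h2 := card_powerful_le ((2 * Y) ^ (2 * k)) (TB.image Mt) hpow
      have h3 : Real.sqrt (((2 * Y) ^ (2 * k) : ℕ) : ℝ) = (2 * (Y : ℝ)) ^ k := by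
        push_cast
        rw [mul_comm 2 k, pow_mul]
        exact Real.sqrt_sq (by positivity)
      rwa [h3] at h2
    have hfib : ∀ M ∈ TB.image Mt,
        ∑ t ∈ TB.filter (fun t => Mt t = M), (N : ℝ) * 3 ^ ArithmeticFunction.cardFactors (Mt t) ≤
          N * K := by
      intro M hM
      have hM' := hpow M hM
      rw [mem_image] at hM
      obtain ⟨t0, ht0, hM0⟩ := hM
      have h2 : ∑ t ∈ TB.filter (fun t => Mt t = M),
          (N : ℝ) * 3 ^ ArithmeticFunction.cardFactors (Mt t) =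
          (#(TB.filter (fun t => Mt t = M)) : ℝ) * (N * 3 ^ ArithmeticFunction.cardFactors M) := by
        rw [← nsmul_eq_mul, ← Finset.sum_const]
        refine Finset.sum_congr rfl fun t ht => ?_
        rw [mem_filter] at ht
        rw [ht.2]
      rw [h2]
      have h3 := card_tuples_le (2 * k) M (by omega) (TB.filter (fun t => Mt t = M)) (by
        intro t ht
        rw [mem_filter] at ht
        rw [← ht.2, hMt])
      have h4 : (#(TB.filter (fun t => Mt t = M)) : ℝ) ≤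
          ((2 : ℝ) * k) ^ ArithmeticFunction.cardFactors M := by exact_mod_cast h3
      have h5 : ((6 : ℝ) * k) ^ ArithmeticFunction.cardFactors M ≤ K := by
        rw [← hM0]
        exact hsix t0 (hTBT t0 ht0).1
      calc (#(TB.filter (fun t => Mt t = M)) : ℝ) * (N * 3 ^ ArithmeticFunction.cardFactors M)
          ≤ ((2 : ℝ) * k) ^ ArithmeticFunction.cardFactors M *
            (N * 3 ^ ArithmeticFunction.cardFactors M) :=
            mul_le_mul_of_nonneg_right h4 (by positivity)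
        _ = N * ((6 : ℝ) * k) ^ ArithmeticFunction.cardFactors M := by
            rw [show (6 : ℝ) * k = (2 * k) * 3 by ring, mul_pow (2 * (k : ℝ)) 3]
            generalize ((2 : ℝ) * k) ^ ArithmeticFunction.cardFactors M = a
            ring
        _ ≤ N * K := mul_le_mul_of_nonneg_left h5 (Nat.cast_nonneg _)
    calc ∑ t ∈ TB, ((A t : ℤ) : ℝ) ≤
          ∑ t ∈ TB, (N : ℝ) * 3 ^ ArithmeticFunction.cardFactors (Mt t) := Finset.sum_le_sum h1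
      _ = ∑ M ∈ TB.image Mt, ∑ t ∈ TB.filter (fun t => Mt t = M),
            (N : ℝ) * 3 ^ ArithmeticFunction.cardFactors (Mt t) :=
          (Finset.sum_fiberwise_of_maps_to (fun t ht => mem_image_of_mem Mt ht) _).symm
      _ ≤ ∑ _M ∈ TB.image Mt, (N : ℝ) * K := Finset.sum_le_sum hfib
      _ = (#(TB.image Mt) : ℝ) * (N * K) := by rw [Finset.sum_const, nsmul_eq_mul]
      _ ≤ (3 * (2 * (Y : ℝ)) ^ k) * (N * K) := mul_le_mul_of_nonneg_right hcard (by positivity)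
      _ = _ := by ring
  rw [← hK]
  refine hexp.trans ?_
  rw [← Finset.sum_filter_add_sum_filter_not T Q]
  calc _ ≤ K * ((Y : ℝ) ^ (2 * k) * (2 * (Y : ℝ)) ^ (2 * k)) + K * (3 * N * (2 * (Y : ℝ)) ^ k) :=
        add_le_add hone htwo
    _ = _ := by ring

end Pool.Agent.Helper56.PX
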