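import Mathlib
import Pool.Agent.Helper56.PX.Moment

/-!
PX-11 Block. One dyadic block is small for all but `N^(7/8+ε)` of the `n < N`.

PROOF. Let `z = z0 N` (large with `N`, in particular `z ≥ 100`, `z ≥ 4^(2/(3 (ε/2)))...`, see below). Put
`k = Nat.log ((2Y)^3) N`, so `(2Y)^(3k) ≤ N < (2Y)^(3(k+1))` (`2Y > z ≥ 4`). `k ≥ 1` as `(2Y)^3 ≤ 8 N^(1/4) ≤ N`.
`2Y ≥ 4` gives `2^(6k) ≤ N`, `6k ≤ Nat.log 2 N`, `(6k)^8 ≤ z0 N` (`Nat.log 2 N ≥ 1`). `moment` and Markov (every `n` of the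
set contributes at least `Y^(7k/4)` to the left side):
`# ≤ Y^(-7k/4) (2Y)^(k/4) (Y^(2k) (2Y)^(2k) + 3 N (2Y)^k) ≤ (2Y)^(5k/2) + 3 N 2^(7k/4) (2Y)^(-k/2)`
(`Y^(k/4) ≤ (2Y)^(k/4)`; `Y^(-7k/4) = 2^(7k/4) (2Y)^(-7k/4)`).
`(2Y)^(5k/2) ≤ N^(5/6)`. `(2Y)^(-k/2) < N^(-1/6) (2Y)^(1/2) ≤ √2 N^(-1/6 + 1/24)` (`Y ≤ N^(1/12)`), so the second
term is `≤ 3 √2 4^k N^(7/8)`, and `z^(3k) ≤ N` gives `4^k ≤ N^(ε/2)` as soon as `z^(3ε/2) ≥ 4`. For large `N`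
`N^(5/6) + 3 √2 N^(7/8+ε/2) ≤ N^(7/8+ε)`.
-/

set_option autoImplicit false

namespace Pool.Agent.Helper56.PX

open Finset Filter Pool.Agent.Helper11.Sq

private theorem block_pow4 {N k z Y : ℕ} {ε : ℝ} (hε : 0 < ε) (hz : z ≤ 2 * Y)
    (h1 : (2 * Y) ^ (3 * k) ≤ N) (hz4 : 4 ≤ (z : ℝ) ^ (3 * ε / 2)) :
    (4 : ℝ) ^ k ≤ (N : ℝ) ^ (ε / 2) := by
  have h2 : (z : ℝ) ^ (3 * k) ≤ N := by
    have h3 : z ^ (3 * k) ≤ N := (Nat.pow_le_pow_left hz _).trans h1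
    exact_mod_cast h3
  calc (4 : ℝ) ^ k ≤ ((z : ℝ) ^ (3 * ε / 2)) ^ k := pow_le_pow_left₀ (by norm_num) hz4 k
    _ = ((z : ℝ) ^ (3 * k)) ^ (ε / 2) := by
      rw [← Real.rpow_natCast, ← Real.rpow_mul (Nat.cast_nonneg z), ← Real.rpow_natCast,
        ← Real.rpow_mul (Nat.cast_nonneg z)]
      congr 1
      push_cast
      ring
    _ ≤ _ := Real.rpow_le_rpow (by positivity) h2 (by positivity)

private theorem block_real {Y N k z : ℕ} {ε : ℝ} (hε : 0 < ε) (hY : 1 ≤ Y) (hz : z ≤ 2 * Y)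
    (h1 : (2 * Y) ^ (3 * k) ≤ N) (h2 : N < (2 * Y) ^ (3 * (k + 1))) (h3 : Y ^ 12 ≤ N)
    (hz4 : 4 ≤ (z : ℝ) ^ (3 * ε / 2)) (hN6 : 6 ≤ (N : ℝ) ^ (ε / 2)) :
    ((2 * (Y : ℝ)) ^ k) ^ (1 / 4 : ℝ) *
        ((Y : ℝ) ^ (2 * k) * (2 * (Y : ℝ)) ^ (2 * k) + 3 * N * (2 * (Y : ℝ)) ^ k) ≤
      (N : ℝ) ^ (7 / 8 + ε) * ((Y : ℝ) ^ (7 / 8 : ℝ)) ^ (2 * k) := by
  have h4 := block_pow4 hε hz h1 hz4
  have hy : (1 : ℝ) ≤ Y := by exact_mod_cast hY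
  have hy0 : (0 : ℝ) < Y := by linarith
  have hT0 : (0 : ℝ) < 2 * (Y : ℝ) := by linarith
  have hN1 : (1 : ℝ) ≤ N := by
    have : 1 ≤ N := (Nat.one_le_pow _ _ hY).trans h3
    exact_mod_cast this
  have hN0 : (0 : ℝ) < N := by linarith
  have r1 : (2 * (Y : ℝ)) ^ (3 * (k : ℝ)) ≤ N := by
    have h : ((2 * (Y : ℝ)) ^ (3 * k)) ≤ N := by exact_mod_cast h1
    rwa [← Real.rpow_natCast, Nat.cast_mul, Nat.cast_ofNat] at h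
  have r2 : (N : ℝ) ≤ (2 * (Y : ℝ)) ^ (3 * ((k : ℝ) + 1)) := by
    have h : (N : ℝ) ≤ ((2 * (Y : ℝ)) ^ (3 * (k + 1))) := by exact_mod_cast h2.le
    rwa [← Real.rpow_natCast, Nat.cast_mul, Nat.cast_ofNat, Nat.cast_add, Nat.cast_one] at h
  have r3 : (Y : ℝ) ^ (12 : ℝ) ≤ N := by
    have h : (Y : ℝ) ^ 12 ≤ N := by exact_mod_cast h3
    rwa [← Real.rpow_natCast, Nat.cast_ofNat] at h
  have e1 : ((2 * (Y : ℝ)) ^ k) ^ (1 / 4 : ℝ) = (2 * (Y : ℝ)) ^ ((k : ℝ) / 4) := by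
    rw [← Real.rpow_natCast, ← Real.rpow_mul hT0.le]
    congr 1
    ring
  have e2 : (Y : ℝ) ^ (2 * k) = (Y : ℝ) ^ (2 * (k : ℝ)) := by
    rw [← Real.rpow_natCast, Nat.cast_mul, Nat.cast_ofNat]
  have e3 : (2 * (Y : ℝ)) ^ (2 * k) = (2 * (Y : ℝ)) ^ (2 * (k : ℝ)) := by
    rw [← Real.rpow_natCast, Nat.cast_mul, Nat.cast_ofNat]
  have e4 : (2 * (Y : ℝ)) ^ k = (2 * (Y : ℝ)) ^ (k : ℝ) := (Real.rpow_natCast _ _).symm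
  have e5 : ((Y : ℝ) ^ (7 / 8 : ℝ)) ^ (2 * k) = (Y : ℝ) ^ (7 * (k : ℝ) / 4) := by
    rw [← Real.rpow_natCast, ← Real.rpow_mul hy0.le, Nat.cast_mul, Nat.cast_ofNat]
    congr 1
    ring
  rw [e1, e2, e3, e4, e5]
  set W : ℝ := (Y : ℝ) ^ (7 * (k : ℝ) / 4) with hW
  have hW0 : 0 < W := by positivity
  -- first term
  have t1 : (2 * (Y : ℝ)) ^ ((k : ℝ) / 4) * ((Y : ℝ) ^ (2 * (k : ℝ)) * (2 * (Y : ℝ)) ^ (2 * (k : ℝ))) ≤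
      (N : ℝ) ^ (7 / 8 + ε / 2) * W := by
    have s1 : (Y : ℝ) ^ (2 * (k : ℝ)) = W * (Y : ℝ) ^ ((k : ℝ) / 4) := by
      rw [hW, ← Real.rpow_add hy0]
      congr 1
      ring
    have s2 : (Y : ℝ) ^ ((k : ℝ) / 4) ≤ (2 * (Y : ℝ)) ^ ((k : ℝ) / 4) :=
      Real.rpow_le_rpow hy0.le (by linarith) (by positivity)
    have s3 : (2 * (Y : ℝ)) ^ ((k : ℝ) / 4) * ((2 * (Y : ℝ)) ^ ((k : ℝ) / 4) *
        (2 * (Y : ℝ)) ^ (2 * (k : ℝ))) ≤ (N : ℝ) ^ (7 / 8 + ε / 2) := by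
      calc (2 * (Y : ℝ)) ^ ((k : ℝ) / 4) * ((2 * (Y : ℝ)) ^ ((k : ℝ) / 4) *
        (2 * (Y : ℝ)) ^ (2 * (k : ℝ))) = ((2 * (Y : ℝ)) ^ (3 * (k : ℝ))) ^ (5 / 6 : ℝ) := by
            rw [← Real.rpow_add hT0, ← Real.rpow_add hT0, ← Real.rpow_mul hT0.le]
            congr 1
            ring
        _ ≤ (N : ℝ) ^ (5 / 6 : ℝ) := Real.rpow_le_rpow (by positivity) r1 (by norm_num)
        _ ≤ _ := Real.rpow_le_rpow_of_exponent_le hN1 (by linarith)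
    calc (2 * (Y : ℝ)) ^ ((k : ℝ) / 4) * ((Y : ℝ) ^ (2 * (k : ℝ)) * (2 * (Y : ℝ)) ^ (2 * (k : ℝ)))
        = ((2 * (Y : ℝ)) ^ ((k : ℝ) / 4) * ((Y : ℝ) ^ ((k : ℝ) / 4) *
        (2 * (Y : ℝ)) ^ (2 * (k : ℝ)))) * W := by rw [s1]; ring
      _ ≤ ((2 * (Y : ℝ)) ^ ((k : ℝ) / 4) * ((2 * (Y : ℝ)) ^ ((k : ℝ) / 4) *
        (2 * (Y : ℝ)) ^ (2 * (k : ℝ)))) * W := by gcongr
      _ ≤ _ := by gcongr
  -- second term
  have t2 : (2 * (Y : ℝ)) ^ ((k : ℝ) / 4) * (3 * N * (2 * (Y : ℝ)) ^ (k : ℝ)) ≤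
      9 / 2 * ((N : ℝ) ^ (7 / 8 + ε / 2) * W) := by
    have s1 : (2 * (Y : ℝ)) ^ ((k : ℝ) / 4) * (2 * (Y : ℝ)) ^ (k : ℝ) =
        (2 : ℝ) ^ (7 * (k : ℝ) / 4) * W * ((2 * (Y : ℝ)) ^ (1 / 2 : ℝ) *
          ((2 * (Y : ℝ)) ^ (((k : ℝ) + 1) / 2))⁻¹) := by
      rw [hW, ← Real.mul_rpow (by norm_num) hy0.le, ← Real.rpow_neg hT0.le, ← Real.rpow_add hT0,
        ← Real.rpow_add hT0, ← Real.rpow_add hT0]
      congr 1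
      ring
    have s2 : (2 : ℝ) ^ (7 * (k : ℝ) / 4) ≤ (N : ℝ) ^ (ε / 2) := by
      calc (2 : ℝ) ^ (7 * (k : ℝ) / 4) ≤ (2 : ℝ) ^ (2 * (k : ℝ)) :=
            Real.rpow_le_rpow_of_exponent_le (by norm_num)
              (by have : (0 : ℝ) ≤ k := Nat.cast_nonneg k
                  linarith)
        _ = (4 : ℝ) ^ k := by
            rw [Real.rpow_mul (by norm_num), Real.rpow_natCast]
            norm_num
        _ ≤ _ := h4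
    have s3 : (2 * (Y : ℝ)) ^ (1 / 2 : ℝ) ≤ 3 / 2 * (N : ℝ) ^ (1 / 24 : ℝ) := by
      rw [Real.mul_rpow (by norm_num) hy0.le]
      have a1 : (2 : ℝ) ^ (1 / 2 : ℝ) ≤ 3 / 2 := by
        rw [← Real.sqrt_eq_rpow, Real.sqrt_le_left (by norm_num)]
        norm_num
      have a2 : (Y : ℝ) ^ (1 / 2 : ℝ) ≤ (N : ℝ) ^ (1 / 24 : ℝ) := by
        calc (Y : ℝ) ^ (1 / 2 : ℝ) = ((Y : ℝ) ^ (12 : ℝ)) ^ (1 / 24 : ℝ) := by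
              rw [← Real.rpow_mul hy0.le]
              norm_num
          _ ≤ _ := Real.rpow_le_rpow (by positivity) r3 (by norm_num)
      gcongr
    have s4 : ((2 * (Y : ℝ)) ^ (((k : ℝ) + 1) / 2))⁻¹ ≤ ((N : ℝ) ^ (1 / 6 : ℝ))⁻¹ := by
      apply inv_anti₀ (by positivity)
      calc (N : ℝ) ^ (1 / 6 : ℝ) ≤ ((2 * (Y : ℝ)) ^ (3 * ((k : ℝ) + 1))) ^ (1 / 6 : ℝ) :=
            Real.rpow_le_rpow hN0.le r2 (by norm_num)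
        _ = _ := by
            rw [← Real.rpow_mul hT0.le]
            congr 1
            ring
    calc (2 * (Y : ℝ)) ^ ((k : ℝ) / 4) * (3 * N * (2 * (Y : ℝ)) ^ (k : ℝ))
        = 3 * N * ((2 * (Y : ℝ)) ^ ((k : ℝ) / 4) * (2 * (Y : ℝ)) ^ (k : ℝ)) := by ring
      _ = 3 * N * ((2 : ℝ) ^ (7 * (k : ℝ) / 4) * W * ((2 * (Y : ℝ)) ^ (1 / 2 : ℝ) *
          ((2 * (Y : ℝ)) ^ (((k : ℝ) + 1) / 2))⁻¹)) := by rw [s1]
      _ ≤ 3 * N * ((N : ℝ) ^ (ε / 2) * W * (3 / 2 * (N : ℝ) ^ (1 / 24 : ℝ) *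
          ((N : ℝ) ^ (1 / 6 : ℝ))⁻¹)) := by gcongr
      _ = 9 / 2 * ((N * (N : ℝ) ^ (ε / 2) * (N : ℝ) ^ (1 / 24 : ℝ) *
          ((N : ℝ) ^ (1 / 6 : ℝ))⁻¹) * W) := by ring
      _ = 9 / 2 * ((N : ℝ) ^ (7 / 8 + ε / 2) * W) := by
          congr 2
          rw [← Real.rpow_neg hN0.le]
          nth_rewrite 1 [← Real.rpow_one (N : ℝ)]
          rw [← Real.rpow_add hN0, ← Real.rpow_add hN0, ← Real.rpow_add hN0]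
          congr 1
          ring
  have t3 : 6 * (N : ℝ) ^ (7 / 8 + ε / 2) ≤ (N : ℝ) ^ (7 / 8 + ε) := by
    have : (N : ℝ) ^ (7 / 8 + ε) = (N : ℝ) ^ (ε / 2) * (N : ℝ) ^ (7 / 8 + ε / 2) := by
      rw [← Real.rpow_add hN0]
      congr 1
      ring
    rw [this]
    gcongr
  calc (2 * (Y : ℝ)) ^ ((k : ℝ) / 4) * ((Y : ℝ) ^ (2 * (k : ℝ)) * (2 * (Y : ℝ)) ^ (2 * (k : ℝ)) +
        3 * N * (2 * (Y : ℝ)) ^ (k : ℝ))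
      = (2 * (Y : ℝ)) ^ ((k : ℝ) / 4) * ((Y : ℝ) ^ (2 * (k : ℝ)) * (2 * (Y : ℝ)) ^ (2 * (k : ℝ))) +
        (2 * (Y : ℝ)) ^ ((k : ℝ) / 4) * (3 * N * (2 * (Y : ℝ)) ^ (k : ℝ)) := by ring
    _ ≤ (N : ℝ) ^ (7 / 8 + ε / 2) * W + 9 / 2 * ((N : ℝ) ^ (7 / 8 + ε / 2) * W) := add_le_add t1 t2
    _ ≤ (6 * (N : ℝ) ^ (7 / 8 + ε / 2)) * W := by
        have : 0 < (N : ℝ) ^ (7 / 8 + ε / 2) * W := by positivity
        nlinarith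
    _ ≤ _ := by gcongr

private theorem block_z0 {M N : ℕ} (h : 2 ^ M ≤ N) : M ≤ Nat.log 2 N ∧ M ≤ z0 N := by
  have h1 : M ≤ Nat.log 2 N := Nat.le_log_of_pow_le (by norm_num) h
  refine ⟨h1, h1.trans ?_⟩
  exact Nat.le_self_pow (by norm_num) _

theorem block {α β : ℕ} (hαβ : ∀ p : ℕ, p.Prime → 100 < p → ¬ p ∣ α ∧ ¬ p ∣ β) {ε : ℝ}
    (hε : 0 < ε) : ∀ᶠ N : ℕ in atTop, ∀ Y : ℕ, z0 N < 2 * Y → Y ^ 12 ≤ N →
      ∀ S : Finset ℕ, (∀ b ∈ S, Y < b ∧ b ≤ 2 * Y ∧ Rough (z0 N) b) →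
      ∀ c : ℕ → ℝ, (∀ b ∈ S, |c b| ≤ 1) →
      (#((range N).filter (fun n : ℕ => (Y : ℝ) ^ (7 / 8 : ℝ) <
        |∑ b ∈ S, c b * (gg β ((α : ℤ) * (n : ℤ)) b : ℝ)|)) : ℝ) ≤ (N : ℝ) ^ (7 / 8 + ε) := by
  have hlim : ∀ᶠ M : ℕ in atTop, 4 ≤ (M : ℝ) ^ (3 * ε / 2) :=
    ((tendsto_rpow_atTop (by positivity)).comp tendsto_natCast_atTop_atTop).eventually_ge_atTop 4
  obtain ⟨M, hM4⟩ := hlim.exists
  have hlim2 : ∀ᶠ N : ℕ in atTop, 6 ≤ (N : ℝ) ^ (ε / 2) :=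
    ((tendsto_rpow_atTop (by positivity)).comp tendsto_natCast_atTop_atTop).eventually_ge_atTop 6
  filter_upwards [hlim2, eventually_ge_atTop (2 ^ M), eventually_ge_atTop 16] with N hN6 hNM hN16
  intro Y hY1 hY2 S hS c hc
  have hlog4 : 4 ≤ Nat.log 2 N := Nat.le_log_of_pow_le (by norm_num) (by norm_num; exact hN16)
  have hz100 : 100 ≤ z0 N := by
    calc 100 ≤ 4 ^ 10 := by norm_num
      _ ≤ z0 N := Nat.pow_le_pow_left hlog4 10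
  have hz4 : 4 ≤ (z0 N : ℝ) ^ (3 * ε / 2) := by
    refine hM4.trans (Real.rpow_le_rpow (Nat.cast_nonneg _) ?_ (by positivity))
    exact_mod_cast (block_z0 hNM).2
  have hYpos : 1 ≤ Y := by omega
  have hY4 : 4 ≤ 2 * Y := by omega
  have hb1 : 1 < (2 * Y) ^ 3 := Nat.one_lt_pow (by norm_num) (by omega)
  have hb2 : (2 * Y) ^ 3 ≤ N := by
    by_contra hcon
    push Not at hcon
    have h5 : N ^ 4 < ((2 * Y) ^ 3) ^ 4 := Nat.pow_lt_pow_left hcon (by norm_num)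
    have h6 : ((2 * Y) ^ 3) ^ 4 = 4096 * Y ^ 12 := by ring
    have h7 : 4096 * N ≤ N ^ 4 := by
      calc 4096 * N = 16 ^ 3 * N := by norm_num
        _ ≤ N ^ 3 * N := Nat.mul_le_mul_right _ (Nat.pow_le_pow_left hN16 3)
        _ = N ^ 4 := by ring
    rw [h6] at h5
    omega
  obtain ⟨k, hk⟩ : ∃ k, k = Nat.log ((2 * Y) ^ 3) N := ⟨_, rfl⟩
  have hk1 : 1 ≤ k := by
    rw [hk]
    exact Nat.log_pos hb1 hb2
  have h1 : (2 * Y) ^ (3 * k) ≤ N := by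
    rw [pow_mul, hk]
    exact Nat.pow_log_le_self _ (by omega)
  have h2 : N < (2 * Y) ^ (3 * (k + 1)) := by
    rw [pow_mul, hk]
    exact Nat.lt_pow_succ_log_self hb1 _
  have hk8 : (6 * k) ^ 8 ≤ z0 N := by
    have h3 : 6 * k ≤ Nat.log 2 N := by
      apply Nat.le_log_of_pow_le (by norm_num)
      calc 2 ^ (6 * k) = 4 ^ (3 * k) := by
            rw [show (4 : ℕ) = 2 ^ 2 by norm_num, ← pow_mul]
            congr 1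
            ring
        _ ≤ (2 * Y) ^ (3 * k) := Nat.pow_le_pow_left hY4 _
        _ ≤ N := h1
    calc (6 * k) ^ 8 ≤ Nat.log 2 N ^ 8 := Nat.pow_le_pow_left h3 8
      _ ≤ z0 N := Nat.pow_le_pow_right (by omega) (by norm_num)
  have hmom := moment (α := α) (β := β) hk1 hk8 hYpos
    (fun p hp hzp => hαβ p hp (lt_of_le_of_lt hz100 hzp)) S hS c hc N
  have hreal := block_real hε hYpos hY1.le h1 h2 hY2 hz4 hN6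
  have hpos : 0 < ((Y : ℝ) ^ (7 / 8 : ℝ)) ^ (2 * k) := by positivity
  refine le_of_mul_le_mul_right ?_ hpos
  refine le_trans ?_ (hmom.trans hreal)
  rw [← nsmul_eq_mul]
  refine le_trans (Finset.card_nsmul_le_sum _
    (fun n : ℕ => (∑ b ∈ S, c b * (gg β ((α : ℤ) * (n : ℤ)) b : ℝ)) ^ (2 * k)) _ ?_) ?_
  · intro n hn
    have h3 := (mem_filter.1 hn).2
    have h4 : |∑ b ∈ S, c b * (gg β ((α : ℤ) * (n : ℤ)) b : ℝ)| ^ (2 * k) =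
        (∑ b ∈ S, c b * (gg β ((α : ℤ) * (n : ℤ)) b : ℝ)) ^ (2 * k) :=
      Even.pow_abs (even_two_mul k) _
    show _ ≤ (∑ b ∈ S, c b * (gg β ((α : ℤ) * (n : ℤ)) b : ℝ)) ^ (2 * k)
    rw [← h4]
    exact pow_le_pow_left₀ (by positivity) h3.le _
  · refine Finset.sum_le_sum_of_subset_of_nonneg (Finset.filter_subset _ _) fun n _ _ => ?_
    exact (even_two_mul k).pow_nonneg _

end Pool.Agent.Helper56.PX
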