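import Mathlib
import Pool.Agent.Helper56.PX.RhoPow

/-!
PX-13 Local. The function `hh` and its local factors.

PROOF. `hh_one`: `chi_one`, `gg_one`. `hh_mul`: if `a = 0` then `b = 1` and `hh 0 = 0` (division by `0`); else `chi_mul`,
`gg_mul`, and `(a b, P) = 1` iff both are coprime to `P`. `hh_pow_dvd`: `p ∣ P`, so `p^k` is not coprime to `P`.
`abs_hh_pow_le`: `|χ| ≤ 1`, `abs_gg_pow_le`, and `p^(k - (k+3)/4) / p^k = (1/p)^((k+3)/4)` (`(k+3)/4 ≤ k`).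
Write `u = 1/p ≤ 1/101`. The series `∑_k |hh (p^k)|` is dominated by `1, 4u, 4u, 4u, 4u, 4u², ...`, i.e. by
`4 u^((k+3)/4)`; it is summable, since `u^((k+3)/4) ≤ (u^(1/4))^k` (real power) or by comparison with `4 * (1/2)^k`:
`u^((k+3)/4) ≤ (1/101)^((k+3)/4) ≤ (1/2)^k` (`101^((k+3)/4) ≥ 2^(4 (k+3)/4) ≥ 2^k`, natural division: `4 * ((k+3)/4) ≥ k`).
`tsum_abs_le`: `∑_{k ≥ 1} 4 u^((k+3)/4) = 16 ∑_{j ≥ 1} u^j = 16 u/(1-u) ≤ 17 u`. For a formal proof bound the sum over every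
`range (4 m + 1)` (induction on `m`: block of four terms `k = 4j+1, ..., 4j+4`, each `u^(j+1)`) by
`1 + 16 (u + ... + u^m)`, and pass to the limit (`tsum_le_of_sum_range_le` or `Summable.tsum_le_of_sum_range_le`).
`tsum_ge`: `∑_k hh (p^k) ≥ 1 - ∑_{k ≥ 1} |hh (p^k)| ≥ 1 - 17 u ≥ (1 - u)^34`: `(1 - u)^34 ≤ exp(-34 u) ≤ 1 - 17 u`
for `34 u ≤ 1` (`exp(-t) ≤ 1 - t/2` for `0 ≤ t ≤ 1`, for example `exp(-t) ≤ 1/(1+t)` and `(1 - t/2)(1 + t) ≥ 1`).
For `p ≤ w` (`p ∣ P`) the series has only the term `k = 0`.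
-/

set_option autoImplicit false

namespace Pool.Agent.Helper56.PX

open Finset Pool.Agent.Helper11.Sq

theorem hh_one (P β : ℕ) (x : ℤ) : hh P β x 1 = 1 := by
  unfold hh
  rw [if_pos (Nat.coprime_one_left P), chi_one, gg_one]
  norm_num

private theorem hh_zero (P β : ℕ) (x : ℤ) : hh P β x 0 = 0 := by
  unfold hh
  rw [Nat.cast_zero, div_zero, ite_self]

theorem hh_mul (P β : ℕ) (x : ℤ) {a b : ℕ} (h : a.Coprime b) :
    hh P β x (a * b) = hh P β x a * hh P β x b := by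
  rcases Nat.eq_zero_or_pos a with ha | ha
  · rw [ha, zero_mul, hh_zero, zero_mul]
  rcases Nat.eq_zero_or_pos b with hb | hb
  · rw [hb, mul_zero, hh_zero, mul_zero]
  unfold hh
  by_cases h1 : a.Coprime P
  · by_cases h2 : b.Coprime P
    · rw [if_pos h1, if_pos h2, if_pos (Nat.coprime_mul_iff_left.mpr ⟨h1, h2⟩),
        chi_mul ha.ne' hb.ne', gg_mul β x h]
      push_cast
      have ha' : (a : ℝ) ≠ 0 := by exact_mod_cast ha.ne'
      have hb' : (b : ℝ) ≠ 0 := by exact_mod_cast hb.ne'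
      field_simp
    · rw [if_neg h2, mul_zero, if_neg fun h3 => h2 (Nat.coprime_mul_iff_left.mp h3).2]
  · rw [if_neg h1, zero_mul, if_neg fun h3 => h1 (Nat.coprime_mul_iff_left.mp h3).1]

theorem hh_pow_dvd (P β : ℕ) (x : ℤ) {p : ℕ} (hp : p.Prime) (h : p ∣ P) {k : ℕ} (hk : 1 ≤ k) :
    hh P β x (p ^ k) = 0 := by
  unfold hh
  rw [if_neg]
  intro hc
  have h1 : p.Coprime P := Nat.Coprime.coprime_dvd_left (dvd_pow_self p (by omega)) hc
  exact hp.one_lt.ne' (Nat.Coprime.eq_one_of_dvd h1 h)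

theorem abs_hh_pow_le {P β p : ℕ} (hp : p.Prime) (h2 : p ≠ 2) (hβ : ¬ p ∣ β) (x : ℤ) {k : ℕ}
    (hk : 1 ≤ k) : |hh P β x (p ^ k)| ≤ 4 * (1 / (p : ℝ)) ^ ((k + 3) / 4) := by
  have hp0 : (0 : ℝ) < p := by exact_mod_cast hp.pos
  unfold hh
  split_ifs with hc
  · have h3 : |((chi (p ^ k) : ℤ) : ℝ)| ≤ 1 := by exact_mod_cast abs_chi_le (p ^ k)
    have h4 : |((gg β x (p ^ k) : ℤ) : ℝ)| ≤ 4 * (p : ℝ) ^ (k - (k + 3) / 4) := by
      exact_mod_cast abs_gg_pow_le hp h2 hβ x hk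
    rw [abs_div, abs_mul, Nat.cast_pow, abs_of_pos (pow_pos hp0 k), div_le_iff₀ (pow_pos hp0 k)]
    have h5 : 4 * (1 / (p : ℝ)) ^ ((k + 3) / 4) * (p : ℝ) ^ k =
        4 * (p : ℝ) ^ (k - (k + 3) / 4) := by
      have h6 : (p : ℝ) ^ k = (p : ℝ) ^ ((k + 3) / 4) * (p : ℝ) ^ (k - (k + 3) / 4) := by
        rw [← pow_add]
        congr 1
        omega
      rw [mul_assoc, h6, ← mul_assoc ((1 / (p : ℝ)) ^ ((k + 3) / 4)), ← mul_pow, one_div,
        inv_mul_cancel₀ hp0.ne', one_pow, one_mul]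
    rw [h5]
    calc |((chi (p ^ k) : ℤ) : ℝ)| * |((gg β x (p ^ k) : ℤ) : ℝ)|
        ≤ 1 * |((gg β x (p ^ k) : ℤ) : ℝ)| := mul_le_mul_of_nonneg_right h3 (abs_nonneg _)
      _ ≤ _ := by rw [one_mul]; exact h4
  · rw [abs_zero]
    positivity

private theorem hh_pow_half {P β : ℕ} (hβ : ∀ p : ℕ, p.Prime → 100 < p → ¬ p ∣ β) (x : ℤ)
    {p : ℕ} (hp : p.Prime) (h : 100 < p) (k : ℕ) :
    |hh P β x (p ^ k)| ≤ 4 * (1 / 2 : ℝ) ^ k := by
  rcases Nat.eq_zero_or_pos k with hk | hk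
  · rw [hk, pow_zero, hh_one]
    norm_num
  · refine (abs_hh_pow_le hp (by omega) (hβ p hp h) x hk).trans ?_
    have hp1 : (16 : ℝ) ≤ p := by exact_mod_cast (by omega : 16 ≤ p)
    have h1 : (1 / (p : ℝ)) ≤ 1 / 16 := one_div_le_one_div_of_le (by norm_num) hp1
    have h2 : (1 / (p : ℝ)) ^ ((k + 3) / 4) ≤ (1 / 16 : ℝ) ^ ((k + 3) / 4) :=
      pow_le_pow_left₀ (by positivity) h1 _
    have h3 : (1 / 16 : ℝ) ^ ((k + 3) / 4) = (1 / 2 : ℝ) ^ (4 * ((k + 3) / 4)) := by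
      rw [pow_mul]
      norm_num
    have h4 : (1 / 2 : ℝ) ^ (4 * ((k + 3) / 4)) ≤ (1 / 2 : ℝ) ^ k :=
      pow_le_pow_of_le_one (by norm_num) (by norm_num) (by omega)
    linarith

private theorem summable_big {P β : ℕ} (hβ : ∀ p : ℕ, p.Prime → 100 < p → ¬ p ∣ β) (x : ℤ)
    {p : ℕ} (hp : p.Prime) (h : 100 < p) : Summable (fun k : ℕ => |hh P β x (p ^ k)|) := by
  refine Summable.of_nonneg_of_le (fun k => abs_nonneg _) (fun k => hh_pow_half hβ x hp h k) ?_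
  exact (summable_geometric_of_lt_one (by norm_num) (by norm_num)).mul_left 4

theorem summable_hh_pow {P β : ℕ} (hP : ∀ p : ℕ, p.Prime → p ≤ 100 → p ∣ P)
    (hβ : ∀ p : ℕ, p.Prime → 100 < p → ¬ p ∣ β) (x : ℤ) {p : ℕ} (hp : p.Prime) :
    Summable (fun k : ℕ => |hh P β x (p ^ k)|) := by
  by_cases h : p ≤ 100
  · refine summable_of_ne_finset_zero (s := {0}) ?_
    intro k hk
    rw [Finset.mem_singleton] at hk
    rw [hh_pow_dvd P β x hp (hP p hp h) (by omega), abs_zero]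
  · exact summable_big hβ x hp (by omega)

private theorem sum_block {P β : ℕ} (hβ : ∀ p : ℕ, p.Prime → 100 < p → ¬ p ∣ β) (x : ℤ) {p : ℕ}
    (hp : p.Prime) (h : 100 < p) (m : ℕ) :
    ∑ k ∈ range (4 * m + 1), |hh P β x (p ^ k)| + 17 * (1 / (p : ℝ)) ^ (m + 1) ≤
      1 + 17 * (1 / (p : ℝ)) := by
  have hp1 : (17 : ℝ) ≤ p := by exact_mod_cast (by omega : 17 ≤ p)
  have hu0 : (0 : ℝ) ≤ 1 / (p : ℝ) := by positivity
  have hu : 1 / (p : ℝ) ≤ 1 / 17 := one_div_le_one_div_of_le (by norm_num) hp1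
  induction m with
  | zero =>
    rw [mul_zero, zero_add, Finset.sum_range_one, pow_zero, hh_one, pow_one, abs_one]
  | succ m ih =>
    have e : 4 * (m + 1) + 1 = 4 * m + 1 + 1 + 1 + 1 + 1 := by ring
    rw [e, Finset.sum_range_succ, Finset.sum_range_succ, Finset.sum_range_succ,
      Finset.sum_range_succ]
    have b : ∀ k : ℕ, 1 ≤ k → (k + 3) / 4 = m + 1 →
        |hh P β x (p ^ k)| ≤ 4 * (1 / (p : ℝ)) ^ (m + 1) := by
      intro k hk hk2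
      have := abs_hh_pow_le (P := P) hp (by omega) (hβ p hp h) x hk
      rw [hk2] at this
      exact this
    have b1 := b (4 * m + 1) (by omega) (by omega)
    have b2 := b (4 * m + 1 + 1) (by omega) (by omega)
    have b3 := b (4 * m + 1 + 1 + 1) (by omega) (by omega)
    have b4 := b (4 * m + 1 + 1 + 1 + 1) (by omega) (by omega)
    have h5 : 17 * (1 / (p : ℝ)) ^ (m + 1 + 1) ≤ (1 / (p : ℝ)) ^ (m + 1) := by
      rw [pow_succ (1 / (p : ℝ)) (m + 1)]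
      have h6 : 0 ≤ (1 / (p : ℝ)) ^ (m + 1) := pow_nonneg hu0 _
      nlinarith
    linarith

theorem tsum_abs_le {P β : ℕ} (hβ : ∀ p : ℕ, p.Prime → 100 < p → ¬ p ∣ β) (x : ℤ) {p : ℕ}
    (hp : p.Prime) (h : 100 < p) : ∑' k : ℕ, |hh P β x (p ^ k)| ≤ 1 + 17 / (p : ℝ) := by
  refine Real.tsum_le_of_sum_range_le (fun k => abs_nonneg _) fun n => ?_
  have h1 : ∑ k ∈ range n, |hh P β x (p ^ k)| ≤ ∑ k ∈ range (4 * n + 1), |hh P β x (p ^ k)| :=
    Finset.sum_le_sum_of_subset_of_nonneg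
      (Finset.range_subset_range.mpr (by omega)) fun k _ _ => abs_nonneg _
  have h2 := sum_block (P := P) hβ x hp h n
  have h3 : 0 ≤ 17 * (1 / (p : ℝ)) ^ (n + 1) := by positivity
  have h4 : 17 * (1 / (p : ℝ)) = 17 / (p : ℝ) := by ring
  linarith

theorem tsum_ge {P β : ℕ} (hβ : ∀ p : ℕ, p.Prime → 100 < p → ¬ p ∣ β) (x : ℤ) {p : ℕ}
    (hp : p.Prime) (h : 100 < p) : (1 - 1 / (p : ℝ)) ^ 34 ≤ ∑' k : ℕ, hh P β x (p ^ k) := by
  have hs := summable_big (P := P) hβ x hp h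
  have hs2 : Summable (fun k : ℕ => hh P β x (p ^ k)) := hs.of_abs
  have h1 : (2 : ℝ) ≤ ∑' k : ℕ, (hh P β x (p ^ k) + |hh P β x (p ^ k)|) := by
    have h2 := (hs2.add hs).le_tsum 0 fun k _ => by
      have := neg_abs_le (hh P β x (p ^ k))
      linarith
    rw [pow_zero, hh_one, abs_one] at h2
    linarith
  rw [hs2.tsum_add hs] at h1
  have h3 := tsum_abs_le (P := P) hβ x hp h
  have hp1 : (34 : ℝ) ≤ p := by exact_mod_cast (by omega : 34 ≤ p)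
  have hu0 : (0 : ℝ) ≤ 1 / (p : ℝ) := by positivity
  have hu : 1 / (p : ℝ) ≤ 1 / 34 := one_div_le_one_div_of_le (by norm_num) hp1
  have h4 : 17 / (p : ℝ) = 17 * (1 / (p : ℝ)) := by ring
  have h5 : (1 - 1 / (p : ℝ)) ^ 34 ≤ 1 - 17 * (1 / (p : ℝ)) := by
    set u : ℝ := 1 / (p : ℝ) with hu'
    have b1 : 1 + (34 : ℕ) * u ≤ (1 + u) ^ 34 := one_add_mul_le_pow (by linarith) 34
    have b2 : (1 - u) ^ 34 * (1 + u) ^ 34 ≤ 1 := by
      rw [← mul_pow]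
      exact pow_le_one₀ (by nlinarith) (by nlinarith)
    have b3 : 0 ≤ (1 - u) ^ 34 := pow_nonneg (by linarith) _
    have b4 : (1 - u) ^ 34 * (1 + 34 * u) ≤ 1 := by
      refine le_trans (mul_le_mul_of_nonneg_left ?_ b3) b2
      push_cast at b1
      exact b1
    have b5 : 1 ≤ (1 - 17 * u) * (1 + 34 * u) := by nlinarith
    have b6 : 0 < 1 + 34 * u := by linarith
    exact le_of_mul_le_mul_right (b4.trans b5) b6
  linarith

end Pool.Agent.Helper56.PX
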