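import Mathlib
import Pool.Agent.Helper56.PX.Local

/-!
PX-14 EulerUp. The sum of `|hh|` over the numbers composed of primes of `ss 100 z x`.

PROOF. `card_big_le`: the product of these primes divides `x`, so `2^(number) ≤ x`, `Nat.log` (`Finset.prod_primes_dvd`,
`Finset.pow_card_le_prod` or induction).
`euler_up`: `EulerProduct.summable_and_hasSum_factoredNumbers_prod_filter_prime_tsum` for `f a = |hh P β x a|`
(`hh_one`, `hh_mul`, `summable_hh_pow`): the series over `Nat.factoredNumbers (ss 100 z x)` converges to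
`∏_{p ∈ ss} ∑_k |hh (p^k)| ≤ ∏_{p ∈ ss} (1 + 17/p)` (`tsum_abs_le`; every `p ∈ ss` is a prime `> 100`). A finite sum of
nonnegative terms over a set `T` of factored numbers is at most the sum of the series (`sum_le_hasSum` over the subtype,
`Finset.sum_subtype` or `T.subtype`). Primes `p ≤ z`: `1 + 17/p ≤ (1 + 1/p)^17 ≤ (1 + 1/(p-1))^17` (Bernoulli,
`one_add_mul_le_pow`), product over `p ∈ pr z`: `≤ M z ^ 17`. Primes `p > z` (they divide `x`, at most `Nat.log 2 x`):
`∏ (1 + 17/p) ≤ exp(17 Nat.log 2 x / z) ≤ exp(17/68) ≤ 2`.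
-/

set_option autoImplicit false

namespace Pool.Agent.Helper56.PX

open Finset Pool.Agent.Helper11.Sq

theorem card_big_le (w z x : ℕ) :
    #((ss w z x).filter (fun p => z < p)) ≤ Nat.log 2 x := by
  rcases Nat.eq_zero_or_pos x with hx | hx
  · have h0 : (ss w z x).filter (fun p => z < p) = ∅ := by
      refine Finset.filter_false_of_mem fun p hp h => ?_
      obtain ⟨-, -, h1⟩ := mem_ss.1 hp
      rcases h1 with h1 | h1
      · omega
      · exact h1.2 hx
    rw [h0, Finset.card_empty]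
    exact Nat.zero_le _
  · have hmem : ∀ p ∈ (ss w z x).filter (fun p => z < p), p.Prime ∧ p ∣ x := by
      intro p hp
      obtain ⟨h0, h2⟩ := mem_filter.1 hp
      obtain ⟨h3, -, h1⟩ := mem_ss.1 h0
      rcases h1 with h1 | h1
      · omega
      · exact ⟨h3, h1.1⟩
    have h1 : (∏ p ∈ (ss w z x).filter (fun p => z < p), p) ∣ x :=
      Finset.prod_primes_dvd x (fun p hp => (hmem p hp).1.prime) fun p hp => (hmem p hp).2
    have h2 : 2 ^ #((ss w z x).filter (fun p => z < p)) ≤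
        ∏ p ∈ (ss w z x).filter (fun p => z < p), p := by
      rw [← Finset.prod_const]
      exact Finset.prod_le_prod' fun p hp => (hmem p hp).1.two_le
    exact Nat.le_log_of_pow_le (by norm_num) (h2.trans (Nat.le_of_dvd hx h1))

private theorem exp_quarter {t : ℝ} (ht : t ≤ 1 / 4) : Real.exp t ≤ 2 := by
  have h1 : Real.exp t ≤ Real.exp (1 / 4) := Real.exp_le_exp.2 ht
  have h2 := Real.add_one_le_exp (-(1 / 4 : ℝ))
  have h3 : Real.exp (1 / 4) * Real.exp (-(1 / 4 : ℝ)) = 1 := by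
    rw [← Real.exp_add]
    norm_num
  have h4 := Real.exp_pos (1 / 4)
  nlinarith

private theorem small_part {z : ℕ} {A : Finset ℕ} (hA : ∀ p ∈ A, p.Prime ∧ p ≤ z) :
    ∏ p ∈ A, (1 + 17 / (p : ℝ)) ≤ M z ^ 17 := by
  have hsub : A ⊆ pr z := fun p hp => mem_pr.2 ⟨(hA p hp).2, (hA p hp).1⟩
  unfold M
  rw [← Finset.prod_pow]
  refine (Finset.prod_le_prod (fun p _ => by positivity) fun p hp => ?_).trans
    (Finset.prod_le_prod_of_subset_of_one_le hsub (fun p hp => ?_) fun p hp _ => ?_)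
  · have hp1 : (1 : ℝ) < p := one_lt_of_mem_pr (hsub hp)
    have hp0 : (0 : ℝ) < (p : ℝ) - 1 := by linarith
    have h1 : 1 + 17 / (p : ℝ) ≤ 1 + (17 : ℕ) * (1 / ((p : ℝ) - 1)) := by
      have h2 : 1 / (p : ℝ) ≤ 1 / ((p : ℝ) - 1) := one_div_le_one_div_of_le hp0 (by linarith)
      have h3 : 17 / (p : ℝ) = 17 * (1 / (p : ℝ)) := by ring
      rw [h3]
      push_cast
      linarith
    refine h1.trans (one_add_mul_le_pow ?_ 17)
    have : 0 < 1 / ((p : ℝ) - 1) := by positivity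
    linarith
  · have := one_le_M_factor (hsub hp)
    positivity
  · exact one_le_pow₀ (one_le_M_factor hp)

private theorem big_part {z n : ℕ} {B : Finset ℕ} (hB : ∀ p ∈ B, z < p) (hc : #B ≤ n)
    (hz : 68 * (n + 1) ^ 2 ≤ z) : ∏ p ∈ B, (1 + 17 / (p : ℝ)) ≤ 2 := by
  have hz0 : 0 < z := lt_of_lt_of_le (by positivity) hz
  have hzR : (0 : ℝ) < z := by exact_mod_cast hz0
  have h1 : ∏ p ∈ B, (1 + 17 / (p : ℝ)) ≤ ∏ p ∈ B, Real.exp (17 / (z : ℝ)) := by
    refine Finset.prod_le_prod (fun p _ => by positivity) fun p hp => ?_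
    have hp : (z : ℝ) ≤ p := by exact_mod_cast (hB p hp).le
    have h2 : 17 / (p : ℝ) ≤ 17 / (z : ℝ) := div_le_div_of_nonneg_left (by norm_num) hzR hp
    have h3 := Real.add_one_le_exp (17 / (z : ℝ))
    linarith
  refine h1.trans ?_
  rw [Finset.prod_const, ← Real.exp_nat_mul]
  refine exp_quarter ?_
  have h4 : (#B : ℝ) ≤ n := by exact_mod_cast hc
  have h5 : (68 : ℝ) * ((n : ℝ) + 1) ^ 2 ≤ z := by exact_mod_cast hz
  rw [mul_div_assoc', div_le_iff₀ hzR]
  have h6 : (0 : ℝ) ≤ n := Nat.cast_nonneg n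
  nlinarith

theorem euler_up {P β z x : ℕ} (hP : ∀ p : ℕ, p.Prime → p ≤ 100 → p ∣ P)
    (hβ : ∀ p : ℕ, p.Prime → 100 < p → ¬ p ∣ β) (hz : 68 * (Nat.log 2 x + 1) ^ 2 ≤ z)
    (T : Finset ℕ) (hT : ∀ a ∈ T, a ∈ Nat.factoredNumbers (ss 100 z x)) :
    ∑ a ∈ T, |hh P β x a| ≤ 2 * M z ^ 17 := by
  classical
  have h1 := EulerProduct.summable_and_hasSum_factoredNumbers_prod_filter_prime_tsum
    (f := fun a => |hh P β x a|) (by simp only [hh_one, abs_one])
    (fun {m n} h => by simp only [hh_mul P β x h, abs_mul])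
    (fun {p} hp => by
      simp only [Real.norm_eq_abs, abs_abs]
      exact summable_hh_pow hP hβ x hp) (ss 100 z x)
  have hprime : ∀ p ∈ ss 100 z x, p.Prime := fun p hp => (mem_ss.1 hp).1
  have hfil : (ss 100 z x).filter (fun p => p.Prime) = ss 100 z x :=
    Finset.filter_true_of_mem hprime
  have h2 := h1.2
  rw [hfil] at h2
  have h3 : ∑ a ∈ T, |hh P β x a| =
      ∑ m ∈ T.subtype (fun a => a ∈ Nat.factoredNumbers (ss 100 z x)), |hh P β x (m : ℕ)| :=
    (Finset.sum_subtype_of_mem (fun a => |hh P β x a|) hT).symm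
  rw [h3]
  refine (sum_le_hasSum _ (fun i _ => abs_nonneg _) h2).trans ?_
  have h4 : ∏ p ∈ ss 100 z x, ∑' n : ℕ, |hh P β x (p ^ n)| ≤
      ∏ p ∈ ss 100 z x, (1 + 17 / (p : ℝ)) := by
    refine Finset.prod_le_prod (fun p _ => tsum_nonneg fun _ => abs_nonneg _) fun p hp => ?_
    exact tsum_abs_le hβ x (hprime p hp) (mem_ss.1 hp).2.1
  refine h4.trans ?_
  rw [← Finset.prod_filter_mul_prod_filter_not (ss 100 z x) (fun p => z < p)]
  refine mul_le_mul (big_part (n := Nat.log 2 x) (fun p hp => (mem_filter.1 hp).2)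
    (card_big_le 100 z x) hz) (small_part fun p hp => ?_)
    (Finset.prod_nonneg fun p _ => by positivity) (by norm_num)
  obtain ⟨h5, h6⟩ := mem_filter.1 hp
  exact ⟨hprime p h5, not_lt.1 h6⟩

end Pool.Agent.Helper56.PX
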