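import Mathlib
import Pool.Agent.Helper56.PX.EulerUp

/-!
PX-16 EulerLow. Lower bound of the Euler product.

PROOF. `EulerProduct.summable_and_hasSum_factoredNumbers_prod_filter_prime_tsum` with `f = hh P β x` (`hh_one`, `hh_mul`,
`summable_hh_pow`, `‖hh‖ = |hh|`): `E = ∏_{p ∈ ss 100 z x} ∑'_k hh (p^k)`. By `tsum_ge` (all `p ∈ ss` are primes `> 100`)
`E ≥ ∏_{p ∈ ss} (1 - 1/p)^34`. The primes `p ≤ z` give `≥ (∏_{p ∈ pr z} (1 - 1/p))^34 = M z ^ (-34)`
(`1 - 1/p = (1 + 1/(p-1))⁻¹`; all factors are in `(0, 1]`). The primes `p > z`, at most `ℓ = Nat.log 2 x` of them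
(`card_big_le`), give `≥ (1 - 1/z)^(34 ℓ) ≥ 1 - 34 ℓ / z ≥ 1/2` (Bernoulli).
-/

set_option autoImplicit false

namespace Pool.Agent.Helper56.PX

open Finset Pool.Agent.Helper11.Sq

private theorem elo_pos {p : ℕ} (h : 2 ≤ p) : 0 < 1 - 1 / (p : ℝ) ∧ 1 - 1 / (p : ℝ) ≤ 1 := by
  have h1 : (2 : ℝ) ≤ p := by exact_mod_cast h
  have h2 : 1 / (p : ℝ) < 1 := by
    rw [div_lt_one (by linarith)]
    linarith
  have h3 : 0 < 1 / (p : ℝ) := by positivity
  constructor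
  · linarith
  · linarith

private theorem elo_M (z : ℕ) : (∏ p ∈ pr z, (1 - 1 / (p : ℝ))) * M z = 1 := by
  unfold M
  rw [← Finset.prod_mul_distrib]
  refine Finset.prod_eq_one fun p hp => ?_
  have h1 := one_lt_of_mem_pr hp
  have h2 : (p : ℝ) - 1 ≠ 0 := by linarith
  have h3 : (p : ℝ) ≠ 0 := by linarith
  field_simp
  ring

theorem euler_low {P β z x : ℕ} (hP : ∀ p : ℕ, p.Prime → p ≤ 100 → p ∣ P)
    (hβ : ∀ p : ℕ, p.Prime → 100 < p → ¬ p ∣ β) (hz : 68 * (Nat.log 2 x + 1) ^ 2 ≤ z) :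
    ∃ E : ℝ, HasSum (fun a : Nat.factoredNumbers (ss 100 z x) => hh P β x a) E ∧
      1 / 2 / M z ^ 34 ≤ E := by
  obtain ⟨-, hE⟩ := EulerProduct.summable_and_hasSum_factoredNumbers_prod_filter_prime_tsum
    (f := fun a : ℕ => hh P β x a) (hh_one P β x) (fun {m n} h => hh_mul P β x h)
    (fun {p} hp => by simpa [Real.norm_eq_abs] using summable_hh_pow hP hβ x hp) (ss 100 z x)
  refine ⟨_, hE, ?_⟩
  have hfil : (ss 100 z x).filter Nat.Prime = ss 100 z x :=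
    Finset.filter_true_of_mem fun p hp => (mem_ss.1 hp).1
  rw [hfil]
  have h1 : ∏ p ∈ ss 100 z x, (1 - 1 / (p : ℝ)) ^ 34 ≤
      ∏ p ∈ ss 100 z x, ∑' k : ℕ, hh P β x (p ^ k) :=
    Finset.prod_le_prod (fun p hp => pow_nonneg (elo_pos (mem_ss.1 hp).1.two_le).1.le _)
      fun p hp => tsum_ge hβ x (mem_ss.1 hp).1 (mem_ss.1 hp).2.1
  refine le_trans ?_ h1
  rw [← Finset.prod_filter_mul_prod_filter_not (ss 100 z x) (fun p => p ≤ z)]
  have hMpos : 0 < M z := lt_of_lt_of_le one_pos (one_le_M z)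
  -- the small primes
  have hA : 1 / M z ≤ ∏ p ∈ (ss 100 z x).filter (fun p => p ≤ z), (1 - 1 / (p : ℝ)) := by
    have hsub : (ss 100 z x).filter (fun p => p ≤ z) ⊆ pr z := by
      intro p hp
      rw [mem_filter] at hp
      exact mem_pr.2 ⟨hp.2, (mem_ss.1 hp.1).1⟩
    have h2 := Finset.prod_sdiff (f := fun p : ℕ => (1 - 1 / (p : ℝ))) hsub
    have h3 : ∏ p ∈ pr z \ (ss 100 z x).filter (fun p => p ≤ z), (1 - 1 / (p : ℝ)) ≤ 1 :=
      Finset.prod_le_one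
        (fun p hp => (elo_pos (mem_pr.1 (Finset.sdiff_subset hp)).2.two_le).1.le)
        (fun p hp => (elo_pos (mem_pr.1 (Finset.sdiff_subset hp)).2.two_le).2)
    have h4 : 0 ≤ ∏ p ∈ (ss 100 z x).filter (fun p => p ≤ z), (1 - 1 / (p : ℝ)) :=
      Finset.prod_nonneg fun p hp => (elo_pos (mem_ss.1 (mem_filter.1 hp).1).1.two_le).1.le
    have h5 : ∏ p ∈ pr z, (1 - 1 / (p : ℝ)) ≤
        ∏ p ∈ (ss 100 z x).filter (fun p => p ≤ z), (1 - 1 / (p : ℝ)) := by
      rw [← h2]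
      exact mul_le_of_le_one_left h4 h3
    rw [div_le_iff₀ hMpos]
    exact le_trans (le_of_eq (elo_M z).symm) (mul_le_mul_of_nonneg_right h5 hMpos.le)
  -- the large primes
  have hz0 : 68 * (Nat.log 2 x + 1) ≤ z := by
    refine le_trans ?_ hz
    nlinarith
  have hzR : (68 : ℝ) * ((Nat.log 2 x : ℕ) + 1) ≤ z := by exact_mod_cast hz0
  have hlR : (0 : ℝ) ≤ (Nat.log 2 x : ℕ) := Nat.cast_nonneg _
  have hzpos : (0 : ℝ) < z := by linarith
  have hB : 1 / 2 ≤ ∏ p ∈ (ss 100 z x).filter (fun p => ¬ p ≤ z), (1 - 1 / (p : ℝ)) ^ 34 := by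
    have hcard := card_big_le 100 z x
    have hfe : (ss 100 z x).filter (fun p => ¬ p ≤ z) = (ss 100 z x).filter (fun p => z < p) :=
      Finset.filter_congr fun p _ => not_le
    rw [hfe]
    set S := (ss 100 z x).filter (fun p => z < p) with hS
    have h2 : 0 ≤ 1 - 1 / (z : ℝ) := by
      have : 1 / (z : ℝ) ≤ 1 := by
        rw [div_le_one hzpos]
        linarith
      linarith
    have h3 : ((1 - 1 / (z : ℝ)) ^ 34) ^ #S ≤ ∏ p ∈ S, (1 - 1 / (p : ℝ)) ^ 34 := by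
      rw [← Finset.prod_const]
      refine Finset.prod_le_prod (fun p _ => pow_nonneg h2 _) fun p hp => ?_
      refine pow_le_pow_left₀ h2 ?_ _
      have h4 : (z : ℝ) ≤ p := by
        rw [hS, mem_filter] at hp
        exact_mod_cast hp.2.le
      have h5 : 1 / (p : ℝ) ≤ 1 / (z : ℝ) := one_div_le_one_div_of_le hzpos h4
      linarith
    refine le_trans ?_ h3
    rw [← pow_mul]
    have h4 := one_add_mul_le_pow (a := -(1 / (z : ℝ))) (by linarith) (34 * #S)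
    rw [← sub_eq_add_neg] at h4
    refine le_trans ?_ h4
    have h5 : (#S : ℝ) ≤ (Nat.log 2 x : ℕ) := by exact_mod_cast hcard
    have h6 : (34 * #S : ℝ) * (1 / (z : ℝ)) ≤ 1 / 2 := by
      rw [mul_one_div, div_le_iff₀ hzpos]
      linarith
    push_cast
    linarith
  have hM34 : 0 < M z ^ 34 := by positivity
  rw [Finset.prod_pow]
  calc 1 / 2 / M z ^ 34 = (1 / M z) ^ 34 * (1 / 2) := by
        rw [div_pow, one_pow]
        field_simp
    _ ≤ _ := mul_le_mul (pow_le_pow_left₀ (by positivity) hA _) hB (by norm_num)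
        (pow_nonneg ((by positivity : (0 : ℝ) ≤ 1 / M z).trans hA) _)

end Pool.Agent.Helper56.PX
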