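import Mathlib
import Pool.Agent.Helper56.PX.Block

/-!
PX-12 RSmall. `RR` is small for all `y ≤ D` outside a set of `N^(23/24+ε)` numbers `n < N`.

PROOF. `z = z0 N ≥ 4`. For `i ≤ Nat.log 2 D` with `z < 2^(i+1)` and `y ≤ D` apply `block` (with `ε/2`), `Y = 2^i` (`Y ≤ D`, so
`Y^12 ≤ N`), `S = (Ioc (2^i) (min (2^(i+1)) y)).filter (Rough z)`, `c b = χ(b) 2^i / b` (`|c b| ≤ 1`). Outside the union of
the exceptional sets, at most `(D+1) (Nat.log 2 D + 1) N^(7/8+ε/2) ≤ N^(1/12+7/8+ε)` numbers for large `N`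
(`D ≤ N^(1/12)`, `Nat.log 2 D ≤ Nat.log 2 N`), every block sum `∑_{b ∈ S} χ(b) gg(b) / b` is at most
`2^(-i) (2^i)^(7/8) = 2^(-i/8)` in absolute value. A rough `b > 1` is `> z` (it has a prime factor); so the rough numbers in
`(1, y]` are in the blocks `(2^i, 2^(i+1)]` with `2^(i+1) > z` and `2^i < y`. Let `i0` be the least `i` with `2^(i+1) > z`; then
`2^(i0) > z / 2` and `|RR| ≤ ∑_{i ≥ i0} 2^(-i/8) = 2^(-i0/8) / (1 - 2^(-1/8)) ≤ 12.1 · 2^(1/8) z^(-1/8) ≤ 14 z^(-1/8)`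
(`2^(-1/8) ≤ 0.9175`: `0.9175^8 = 0.5021... > 1/2`; `2^(1/8) ≤ 1.0906`). To avoid infinite sums: finite geometric sum, or
prove by induction on the number of blocks.
-/

set_option autoImplicit false

namespace Pool.Agent.Helper56.PX

open Finset Filter Pool.Agent.Helper11.Sq

open Classical in
/-- one dyadic block of rough numbers -/
private noncomputable def SS (z y i : ℕ) : Finset ℕ :=
  (Ioc (2 ^ i) (min (2 ^ (i + 1)) y)).filter (Rough z)

private theorem mem_SS {z y i b : ℕ} :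
    b ∈ SS z y i ↔ (2 ^ i < b ∧ b ≤ 2 ^ (i + 1) ∧ b ≤ y) ∧ Rough z b := by
  classical
  unfold SS
  rw [mem_filter, mem_Ioc, le_min_iff]

private theorem chi_abs (b : ℕ) : |(chi b : ℝ)| ≤ 1 := by
  rcases chi_tri b with h | h | h <;> rw [h] <;> simp

private theorem r_pow (i : ℕ) : ((2 : ℝ) ^ i) ^ (-(1 / 8) : ℝ) = ((2 : ℝ) ^ (-(1 / 8) : ℝ)) ^ i := by
  rw [← Real.rpow_natCast, ← Real.rpow_natCast, ← Real.rpow_mul (by norm_num),
    ← Real.rpow_mul (by norm_num), mul_comm]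

private theorem r_le : (2 : ℝ) ^ (-(1 / 8) : ℝ) ≤ 0.9175 := by
  by_contra hcon
  rw [not_le] at hcon
  have h1 : ((2 : ℝ) ^ (-(1 / 8) : ℝ)) ^ 8 = 1 / 2 := by
    rw [← Real.rpow_natCast, ← Real.rpow_mul (by norm_num)]
    norm_num
  have h2 : (0.9175 : ℝ) ^ 8 ≤ ((2 : ℝ) ^ (-(1 / 8) : ℝ)) ^ 8 :=
    pow_le_pow_left₀ (by norm_num) hcon.le 8
  rw [h1] at h2
  norm_num at h2

private theorem s_le : (2 : ℝ) ^ (1 / 8 : ℝ) ≤ 1.0906 := by
  by_contra hcon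
  rw [not_le] at hcon
  have h1 : ((2 : ℝ) ^ (1 / 8 : ℝ)) ^ 8 = 2 := by
    rw [← Real.rpow_natCast, ← Real.rpow_mul (by norm_num)]
    norm_num
  have h2 : (1.0906 : ℝ) ^ 8 ≤ ((2 : ℝ) ^ (1 / 8 : ℝ)) ^ 8 :=
    pow_le_pow_left₀ (by norm_num) hcon.le 8
  rw [h1] at h2
  norm_num at h2

/-- the geometric sum -/
private theorem geo {z n : ℕ} (hz : 1 ≤ z) :
    ∑ i ∈ Ico (Nat.log 2 z) n, ((2 : ℝ) ^ i) ^ (-(1 / 8) : ℝ) ≤ 14 * (z : ℝ) ^ (-(1 / 8) : ℝ) := by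
  obtain ⟨r, hr⟩ : ∃ r : ℝ, r = (2 : ℝ) ^ (-(1 / 8) : ℝ) := ⟨_, rfl⟩
  have hr0 : 0 < r := by rw [hr]; positivity
  have hr1 : r ≤ 0.9175 := by rw [hr]; exact r_le
  have hzR : (0 : ℝ) < z := by exact_mod_cast (by omega : 0 < z)
  rw [Finset.sum_congr rfl fun i _ => r_pow i, ← hr]
  have h1 := geom_sum_Ico_le_of_lt_one (m := Nat.log 2 z) (n := n) hr0.le (by linarith : r < 1)
  refine h1.trans ?_
  have h2 : r ^ Nat.log 2 z ≤ 1.0906 * (z : ℝ) ^ (-(1 / 8) : ℝ) := by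
    rw [hr, ← r_pow]
    have h3 : (z : ℝ) / 2 ≤ (2 : ℝ) ^ Nat.log 2 z := by
      have h4 : z < 2 ^ (Nat.log 2 z + 1) := Nat.lt_pow_succ_log_self (by norm_num) z
      have h5 : (z : ℝ) < (2 : ℝ) ^ (Nat.log 2 z + 1) := by exact_mod_cast h4
      rw [pow_succ] at h5
      linarith
    calc ((2 : ℝ) ^ Nat.log 2 z) ^ (-(1 / 8) : ℝ) ≤ ((z : ℝ) / 2) ^ (-(1 / 8) : ℝ) :=
          Real.rpow_le_rpow_of_nonpos (by positivity) h3 (by norm_num)
      _ = (2 : ℝ) ^ (1 / 8 : ℝ) * (z : ℝ) ^ (-(1 / 8) : ℝ) := by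
          rw [Real.div_rpow hzR.le (by norm_num), Real.rpow_neg (by norm_num : (0 : ℝ) ≤ 2)]
          field_simp
      _ ≤ _ := mul_le_mul_of_nonneg_right s_le (by positivity)
  have h6 : 0 < (z : ℝ) ^ (-(1 / 8) : ℝ) := by positivity
  rw [div_le_iff₀ (by linarith)]
  nlinarith

private theorem RR_le {β : ℕ} {x : ℤ} {z y D : ℕ} (hz : 1 ≤ z) (hy : y ≤ D)
    (h : ∀ i ≤ Nat.log 2 D, z < 2 ^ (i + 1) →
      |∑ b ∈ SS z y i, (chi b : ℝ) * (gg β x b : ℝ) / (b : ℝ)| ≤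
        ((2 : ℝ) ^ i) ^ (-(1 / 8) : ℝ)) :
    |RR β x z y| ≤ 14 * (z : ℝ) ^ (-(1 / 8) : ℝ) := by
  classical
  have h1 : RR β x z y = ∑ i ∈ range (Nat.log 2 D + 1),
      ∑ b ∈ SS z y i, (chi b : ℝ) * (gg β x b : ℝ) / (b : ℝ) := by
    unfold RR
    rw [← Finset.sum_fiberwise_of_maps_to (g := fun b => Nat.log 2 (b - 1))
      (t := range (Nat.log 2 D + 1))]
    · refine Finset.sum_congr rfl fun i _ => Finset.sum_congr ?_ fun _ _ => rfl
      ext b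
      rw [mem_SS, mem_filter, mem_filter, mem_Ioc]
      constructor
      · rintro ⟨⟨⟨h2, h3⟩, h4⟩, h5⟩
        rw [Nat.log_eq_iff (Or.inr ⟨by norm_num, by omega⟩)] at h5
        exact ⟨⟨by omega, by omega, h3⟩, h4⟩
      · rintro ⟨⟨h2, h3, h4⟩, h5⟩
        have h6 : 1 ≤ 2 ^ i := Nat.one_le_two_pow
        refine ⟨⟨⟨by omega, h4⟩, h5⟩, ?_⟩
        rw [Nat.log_eq_iff (Or.inr ⟨by norm_num, by omega⟩)]
        omega
    · intro b hb
      rw [mem_filter, mem_Ioc] at hb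
      rw [mem_range, Nat.lt_succ_iff]
      exact Nat.log_mono_right (by omega)
  rw [h1]
  refine (Finset.abs_sum_le_sum_abs _ _).trans ?_
  refine le_trans ?_ (geo (n := Nat.log 2 D + 1) hz)
  rw [← Finset.sum_filter_add_sum_filter_not (range (Nat.log 2 D + 1)) (fun i => z < 2 ^ (i + 1))]
  have h2 : ∑ i ∈ (range (Nat.log 2 D + 1)).filter (fun i => ¬ z < 2 ^ (i + 1)),
      |∑ b ∈ SS z y i, (chi b : ℝ) * (gg β x b : ℝ) / (b : ℝ)| = 0 := by
    refine Finset.sum_eq_zero fun i hi => ?_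
    rw [mem_filter] at hi
    have h3 : SS z y i = ∅ := by
      rw [Finset.eq_empty_iff_forall_notMem]
      intro b hb
      rw [mem_SS] at hb
      obtain ⟨⟨h4, h5, -⟩, h6⟩ := hb
      have h7 : 1 ≤ 2 ^ i := Nat.one_le_two_pow
      have h8 := h6.2 b.minFac (Nat.minFac_prime (by omega)) (Nat.minFac_dvd b)
      have h9 := Nat.minFac_le (n := b) (by omega)
      omega
    rw [h3, Finset.sum_empty, abs_zero]
  rw [h2, add_zero]
  have h3 : (range (Nat.log 2 D + 1)).filter (fun i => z < 2 ^ (i + 1)) ⊆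
      Ico (Nat.log 2 z) (Nat.log 2 D + 1) := by
    intro i hi
    rw [mem_filter, mem_range] at hi
    rw [mem_Ico]
    exact ⟨Nat.lt_succ_iff.mp (Nat.log_lt_of_lt_pow (by omega) hi.2), hi.1⟩
  refine le_trans (Finset.sum_le_sum fun i hi => ?_)
    (Finset.sum_le_sum_of_subset_of_nonneg h3 fun i _ _ => by positivity)
  rw [mem_filter, mem_range] at hi
  exact h i (by omega) hi.2

private theorem log_le {ε : ℝ} (hε : 0 < ε) :
    ∀ᶠ N : ℕ in atTop, 2 * ((Nat.log 2 N : ℝ) + 1) ≤ (N : ℝ) ^ ε := by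
  have hl2 : 0 < Real.log 2 := Real.log_pos (by norm_num)
  have h1 := (isLittleO_log_rpow_atTop hε).def (show 0 < Real.log 2 / 4 by positivity)
  have h2 := tendsto_natCast_atTop_atTop (R := ℝ) |>.eventually h1
  have h3 : ∀ᶠ N : ℕ in atTop, (4 : ℝ) ≤ (N : ℝ) ^ ε :=
    ((tendsto_rpow_atTop hε).comp tendsto_natCast_atTop_atTop).eventually (eventually_ge_atTop 4)
  filter_upwards [h2, h3, eventually_ge_atTop 1] with N h4 h5 h6
  have hN : (1 : ℝ) ≤ N := by exact_mod_cast h6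
  rw [Real.norm_of_nonneg (Real.log_nonneg hN), Real.norm_of_nonneg (by positivity)] at h4
  have h7 : (Nat.log 2 N : ℝ) * Real.log 2 ≤ Real.log N := by
    rw [← Real.log_pow]
    refine Real.log_le_log (by positivity) ?_
    exact_mod_cast Nat.pow_log_le_self 2 (by omega)
  have h8 : (Nat.log 2 N : ℝ) ≤ (N : ℝ) ^ ε / 4 := by
    have h9 : (Nat.log 2 N : ℝ) * Real.log 2 ≤ ((N : ℝ) ^ ε / 4) * Real.log 2 := by linarith
    exact le_of_mul_le_mul_right h9 hl2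
  linarith

theorem r_small {α β : ℕ} (hαβ : ∀ p : ℕ, p.Prime → 100 < p → ¬ p ∣ α ∧ ¬ p ∣ β) {ε : ℝ}
    (hε : 0 < ε) : ∀ᶠ N : ℕ in atTop, ∀ D : ℕ, D ^ 12 ≤ N →
      (#((range N).filter (fun n : ℕ => ∃ y ≤ D, 14 * (z0 N : ℝ) ^ (-(1 / 8) : ℝ) <
        |RR β ((α : ℤ) * (n : ℤ)) (z0 N) y|)) : ℝ) ≤ (N : ℝ) ^ (23 / 24 + ε) := by
  classical
  filter_upwards [block hαβ (half_pos hε), log_le (half_pos hε), eventually_ge_atTop 2] with
    N hblock hlog hN2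
  intro D hD
  have hNR : (0 : ℝ) < N := by exact_mod_cast (by omega : 0 < N)
  have hz1 : 1 ≤ z0 N := by
    unfold z0
    exact Nat.one_le_pow _ _ (Nat.log_pos (by norm_num) hN2)
  -- the exceptional sets
  obtain ⟨E, hE⟩ : ∃ E : ℕ → ℕ → Finset ℕ, E = fun y i => (range N).filter (fun n : ℕ =>
      ((2 ^ i : ℕ) : ℝ) ^ (7 / 8 : ℝ) < |∑ b ∈ SS (z0 N) y i,
        ((chi b : ℝ) * ((2 ^ i : ℕ) : ℝ) / (b : ℝ)) * (gg β ((α : ℤ) * (n : ℤ)) b : ℝ)|) :=
    ⟨_, rfl⟩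
  have hEc : ∀ y i, i ≤ Nat.log 2 D → z0 N < 2 ^ (i + 1) →
      ((#(E y i) : ℕ) : ℝ) ≤ (N : ℝ) ^ (7 / 8 + ε / 2) := by
    intro y i hi hzi
    rw [hE]
    refine hblock (2 ^ i) (by rw [pow_succ] at hzi; omega) ?_ (SS (z0 N) y i) ?_
      (fun b => (chi b : ℝ) * ((2 ^ i : ℕ) : ℝ) / (b : ℝ)) ?_
    · rcases Nat.eq_zero_or_pos D with h0 | h0
      · subst h0
        rw [Nat.log_zero_right, Nat.le_zero] at hi
        subst hi
        norm_num
        omega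
      · refine le_trans (Nat.pow_le_pow_left ?_ 12) hD
        exact (Nat.pow_le_pow_right (by norm_num) hi).trans (Nat.pow_log_le_self 2 (by omega))
    · intro b hb
      rw [mem_SS] at hb
      refine ⟨hb.1.1, ?_, hb.2⟩
      have := hb.1.2.1
      rw [pow_succ] at this
      omega
    · intro b hb
      rw [mem_SS] at hb
      have hb1 : ((2 ^ i : ℕ) : ℝ) ≤ b := by exact_mod_cast hb.1.1.le
      have hb0 : (0 : ℝ) < b := by
        have : 0 < b := by have := hb.1.1; omega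
        exact_mod_cast this
      have h0 : (0 : ℝ) ≤ ((2 ^ i : ℕ) : ℝ) := Nat.cast_nonneg _
      rw [abs_div, abs_mul, abs_of_nonneg h0, abs_of_pos hb0, div_le_one hb0]
      calc |(chi b : ℝ)| * ((2 ^ i : ℕ) : ℝ) ≤ 1 * ((2 ^ i : ℕ) : ℝ) :=
            mul_le_mul_of_nonneg_right (chi_abs b) (by positivity)
        _ ≤ b := by rw [one_mul]; exact hb1
  have hsub : (range N).filter (fun n : ℕ => ∃ y ≤ D, 14 * (z0 N : ℝ) ^ (-(1 / 8) : ℝ) <
        |RR β ((α : ℤ) * (n : ℤ)) (z0 N) y|) ⊆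
      (range (D + 1)).biUnion (fun y => ((range (Nat.log 2 D + 1)).filter
        (fun i => z0 N < 2 ^ (i + 1))).biUnion (fun i => E y i)) := by
    intro n hn
    rw [mem_filter] at hn
    obtain ⟨hnN, y, hy, hlt⟩ := hn
    rw [mem_biUnion]
    refine ⟨y, mem_range.mpr (by omega), ?_⟩
    rw [mem_biUnion]
    by_contra hcon
    push Not at hcon
    refine absurd hlt (not_lt.mpr (RR_le hz1 hy fun i hi hzi => ?_))
    have h1 := hcon i (by rw [mem_filter, mem_range]; exact ⟨by omega, hzi⟩)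
    rw [hE] at h1
    rw [mem_filter] at h1
    push Not at h1
    have h2 := h1 hnN
    have h3 : ∑ b ∈ SS (z0 N) y i,
        ((chi b : ℝ) * ((2 ^ i : ℕ) : ℝ) / (b : ℝ)) * (gg β ((α : ℤ) * (n : ℤ)) b : ℝ) =
        (2 : ℝ) ^ i * ∑ b ∈ SS (z0 N) y i,
          (chi b : ℝ) * (gg β ((α : ℤ) * (n : ℤ)) b : ℝ) / (b : ℝ) := by
      rw [Finset.mul_sum]
      refine Finset.sum_congr rfl fun b _ => ?_
      push_cast
      ring
    rw [h3, abs_mul, abs_of_pos (by positivity : (0 : ℝ) < (2 : ℝ) ^ i)] at h2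
    have h4 : (((2 ^ i : ℕ) : ℝ)) ^ (7 / 8 : ℝ) =
        (2 : ℝ) ^ i * ((2 : ℝ) ^ i) ^ (-(1 / 8) : ℝ) := by
      push_cast
      have h5 : (0 : ℝ) < (2 : ℝ) ^ i := by positivity
      nth_rewrite 2 [← Real.rpow_one ((2 : ℝ) ^ i)]
      rw [← Real.rpow_add h5]
      norm_num
    rw [h4] at h2
    exact le_of_mul_le_mul_left h2 (by positivity)
  have hcount : ((#((range (D + 1)).biUnion (fun y => ((range (Nat.log 2 D + 1)).filter
        (fun i => z0 N < 2 ^ (i + 1))).biUnion (fun i => E y i))) : ℕ) : ℝ) ≤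
      ((D : ℝ) + 1) * (((Nat.log 2 D : ℝ) + 1) * (N : ℝ) ^ (7 / 8 + ε / 2)) := by
    have h1 : ∀ y, ((#(((range (Nat.log 2 D + 1)).filter
        (fun i => z0 N < 2 ^ (i + 1))).biUnion (fun i => E y i)) : ℕ) : ℝ) ≤
        ((Nat.log 2 D : ℝ) + 1) * (N : ℝ) ^ (7 / 8 + ε / 2) := by
      intro y
      have h2 : ((#(((range (Nat.log 2 D + 1)).filter
        (fun i => z0 N < 2 ^ (i + 1))).biUnion (fun i => E y i)) : ℕ) : ℝ) ≤
          ∑ i ∈ (range (Nat.log 2 D + 1)).filter (fun i => z0 N < 2 ^ (i + 1)),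
            ((#(E y i) : ℕ) : ℝ) := by
        exact_mod_cast Finset.card_biUnion_le
      refine h2.trans ?_
      have h3 : ∑ i ∈ (range (Nat.log 2 D + 1)).filter (fun i => z0 N < 2 ^ (i + 1)),
            ((#(E y i) : ℕ) : ℝ) ≤
          ∑ _i ∈ (range (Nat.log 2 D + 1)).filter (fun i => z0 N < 2 ^ (i + 1)),
            (N : ℝ) ^ (7 / 8 + ε / 2) := by
        refine Finset.sum_le_sum fun i hi => ?_
        rw [mem_filter, mem_range] at hi
        exact hEc y i (by omega) hi.2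
      refine h3.trans ?_
      rw [Finset.sum_const, nsmul_eq_mul]
      refine mul_le_mul_of_nonneg_right ?_ (by positivity)
      have h4 : #((range (Nat.log 2 D + 1)).filter (fun i => z0 N < 2 ^ (i + 1))) ≤
          Nat.log 2 D + 1 := (Finset.card_filter_le _ _).trans (by rw [card_range])
      exact_mod_cast h4
    have h2 : ((#((range (D + 1)).biUnion (fun y => ((range (Nat.log 2 D + 1)).filter
        (fun i => z0 N < 2 ^ (i + 1))).biUnion (fun i => E y i))) : ℕ) : ℝ) ≤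
        ∑ y ∈ range (D + 1), ((#(((range (Nat.log 2 D + 1)).filter
          (fun i => z0 N < 2 ^ (i + 1))).biUnion (fun i => E y i)) : ℕ) : ℝ) := by
      exact_mod_cast Finset.card_biUnion_le
    refine h2.trans ((Finset.sum_le_sum fun y _ => h1 y).trans (le_of_eq ?_))
    rw [Finset.sum_const, card_range, nsmul_eq_mul]
    push_cast
    ring
  have hcard : ((#((range N).filter (fun n : ℕ => ∃ y ≤ D, 14 * (z0 N : ℝ) ^ (-(1 / 8) : ℝ) <
        |RR β ((α : ℤ) * (n : ℤ)) (z0 N) y|)) : ℕ) : ℝ) ≤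
      ((#((range (D + 1)).biUnion (fun y => ((range (Nat.log 2 D + 1)).filter
        (fun i => z0 N < 2 ^ (i + 1))).biUnion (fun i => E y i))) : ℕ) : ℝ) := by
    exact_mod_cast Finset.card_le_card hsub
  refine (hcard.trans hcount).trans ?_
  have hN1 : (1 : ℝ) ≤ (N : ℝ) ^ (1 / 12 : ℝ) :=
    Real.one_le_rpow (by exact_mod_cast (by omega : 1 ≤ N)) (by norm_num)
  have hDR : (D : ℝ) ≤ (N : ℝ) ^ (1 / 12 : ℝ) := by
    have h1 : (D : ℝ) ^ 12 ≤ (N : ℝ) := by exact_mod_cast hD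
    have h2 : ((D : ℝ) ^ 12) ^ (1 / 12 : ℝ) ≤ (N : ℝ) ^ (1 / 12 : ℝ) :=
      Real.rpow_le_rpow (by positivity) h1 (by norm_num)
    have h3 : ((D : ℝ) ^ 12) ^ (1 / 12 : ℝ) = D := by
      rw [← Real.rpow_natCast, ← Real.rpow_mul (by positivity)]
      norm_num
    rwa [h3] at h2
  have hDN : Nat.log 2 D ≤ Nat.log 2 N := by
    refine Nat.log_mono_right ?_
    exact le_trans (Nat.le_self_pow (by norm_num) D) hD
  have hDNR : (Nat.log 2 D : ℝ) ≤ (Nat.log 2 N : ℝ) := by exact_mod_cast hDN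
  calc ((D : ℝ) + 1) * (((Nat.log 2 D : ℝ) + 1) * (N : ℝ) ^ (7 / 8 + ε / 2)) ≤
      (2 * (N : ℝ) ^ (1 / 12 : ℝ)) * (((Nat.log 2 N : ℝ) + 1) * (N : ℝ) ^ (7 / 8 + ε / 2)) := by
        refine mul_le_mul (by linarith) ?_ (by positivity) (by positivity)
        exact mul_le_mul_of_nonneg_right (by linarith) (by positivity)
    _ = (2 * ((Nat.log 2 N : ℝ) + 1)) * ((N : ℝ) ^ (1 / 12 : ℝ) * (N : ℝ) ^ (7 / 8 + ε / 2)) := by
        ring
    _ ≤ (N : ℝ) ^ (ε / 2) * ((N : ℝ) ^ (1 / 12 : ℝ) * (N : ℝ) ^ (7 / 8 + ε / 2)) :=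
        mul_le_mul_of_nonneg_right hlog (by positivity)
    _ = (N : ℝ) ^ (23 / 24 + ε) := by
        rw [← Real.rpow_add hNR, ← Real.rpow_add hNR]
        congr 1
        ring

end Pool.Agent.Helper56.PX
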