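import Mathlib
import Pool.Agent.Helper56.PX.EulerUp

/-!
PX-15 Rankin. Rankin's trick for the tail over `a > Y`.

PROOF. Let `σ = 1/80` and `f a = |hh P β x a| a^σ` (real power; `f 1 = 1`, multiplicative on coprime numbers:
`Real.mul_rpow`). Local factor at a prime `p > 100`, `u = p^(-19/20)` (so `u ≤ 1/17`, `p^(19/20) ≥ 101^(19/20) ≥ 17`):
`f (p^k) ≤ 4 (1/p)^((k+3)/4) p^(k σ) ≤ 4 u^((k+3)/4)` for `k ≥ 1`, because `k ≤ 4 ((k+3)/4)`, so
`p^(kσ) ≤ (p^(1/20))^((k+3)/4)`. Hence (as in module Local) `∑_k f (p^k) ≤ 1 + 16 u/(1-u) ≤ 1 + 17 u`, and summable.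
For `p ≤ 100`: only `k = 0`. `EulerProduct.summable_and_hasSum_factoredNumbers_prod_filter_prime_tsum`:
`∑_{a ∈ T} f a ≤ ∏_{p ∈ ss} (1 + 17 p^(-19/20)) ≤ exp(17 ∑_{p ∈ ss} p^(-19/20))`. The primes `p ≤ z` contribute at most
`∑_{m=1}^z m^(-19/20) ≤ 20 z^(1/20)` (induction on `z`: `20 (z+1)^(1/20) - 20 z^(1/20) ≥ (z+1)^(-19/20)`, by concavity /
the mean value theorem, or the integral test), the primes `p > z` at most `(Nat.log 2 x) z^(-19/20) ≤ 1`
(`card_big_le`; `(Nat.log 2 x)² ≤ z`, `z ≥ 1`).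
For `a > Y`: `|hh a| ≤ f a * Y^(-σ)` (`a^σ ≥ Y^σ`).
-/

set_option autoImplicit false

namespace Pool.Agent.Helper56.PX

open Finset Pool.Agent.Helper11.Sq

private theorem rk_block {g : ℕ → ℝ} {u : ℝ} (hu0 : 0 ≤ u) (hu : 17 * u ≤ 1) (g0 : g 0 ≤ 1)
    (gn : ∀ k, 0 ≤ g k) (gk : ∀ k, 1 ≤ k → g k ≤ 4 * u ^ ((k + 3) / 4)) (n : ℕ) :
    ∑ k ∈ range n, g k ≤ 1 + 17 * u := by
  have key : ∀ m : ℕ, ∑ k ∈ range (4 * m + 1), g k ≤ 1 + 17 * u - 17 * u ^ (m + 1) := by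
    intro m
    induction m with
    | zero =>
      simp only [mul_zero, zero_add, range_one, sum_singleton, pow_one]
      linarith
    | succ m ih =>
      have e : 4 * (m + 1) + 1 = 4 * m + 1 + 1 + 1 + 1 + 1 := by ring
      rw [e, sum_range_succ, sum_range_succ, sum_range_succ, sum_range_succ]
      have h1 := gk (4 * m + 1) (by omega)
      have h2 := gk (4 * m + 1 + 1) (by omega)
      have h3 := gk (4 * m + 1 + 1 + 1) (by omega)
      have h4 := gk (4 * m + 1 + 1 + 1 + 1) (by omega)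
      have d1 : (4 * m + 1 + 3) / 4 = m + 1 := by omega
      have d2 : (4 * m + 1 + 1 + 3) / 4 = m + 1 := by omega
      have d3 : (4 * m + 1 + 1 + 1 + 3) / 4 = m + 1 := by omega
      have d4 : (4 * m + 1 + 1 + 1 + 1 + 3) / 4 = m + 1 := by omega
      rw [d1] at h1
      rw [d2] at h2
      rw [d3] at h3
      rw [d4] at h4
      have h5 : 0 ≤ u ^ (m + 1) := pow_nonneg hu0 _
      have h6 : 17 * u ^ (m + 1 + 1) ≤ u ^ (m + 1) := by
        rw [pow_succ u (m + 1)]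
        nlinarith
      linarith
  have h1 : ∑ k ∈ range n, g k ≤ ∑ k ∈ range (4 * n + 1), g k := by
    apply sum_le_sum_of_subset_of_nonneg
    · intro k hk
      rw [mem_range] at hk ⊢
      omega
    · intro k _ _
      exact gn k
  have h2 := key n
  have h3 : 0 ≤ u ^ (n + 1) := pow_nonneg hu0 _
  linarith

private theorem rk_sum (z : ℕ) :
    ∑ m ∈ Icc 1 z, (m : ℝ) ^ (-(19 / 20) : ℝ) ≤ 20 * (z : ℝ) ^ (1 / 20 : ℝ) := by
  induction z with
  | zero => simp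
  | succ z ih =>
    rw [sum_Icc_succ_top (by omega)]
    have hz : (0 : ℝ) < ((z + 1 : ℕ) : ℝ) := by positivity
    have h1 := rpow_one_add_le_one_add_mul_self (s := -(1 / ((z + 1 : ℕ) : ℝ))) (by
      rw [neg_le_neg_iff, div_le_one hz]
      push_cast
      have : (0 : ℝ) ≤ z := Nat.cast_nonneg z
      linarith) (p := 1 / 20) (by norm_num) (by norm_num)
    have h2 : 1 + -(1 / ((z + 1 : ℕ) : ℝ)) = (z : ℝ) / ((z + 1 : ℕ) : ℝ) := by
      field_simp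
      push_cast
      ring
    rw [h2, Real.div_rpow (Nat.cast_nonneg z) hz.le] at h1
    have hp : 0 < ((z + 1 : ℕ) : ℝ) ^ (1 / 20 : ℝ) := Real.rpow_pos_of_pos hz _
    rw [div_le_iff₀ hp] at h1
    have h3 : ((z + 1 : ℕ) : ℝ) ^ (-(19 / 20) : ℝ) =
        ((z + 1 : ℕ) : ℝ) ^ (1 / 20 : ℝ) * (1 / ((z + 1 : ℕ) : ℝ)) := by
      rw [one_div ((z + 1 : ℕ) : ℝ), ← Real.rpow_neg_one ((z + 1 : ℕ) : ℝ), ← Real.rpow_add hz]
      norm_num
    rw [h3]
    nlinarith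

private theorem rk_u {p : ℕ} (hp : 100 < p) : 17 * (p : ℝ) ^ (-(19 / 20) : ℝ) ≤ 1 := by
  have hp0 : (0 : ℝ) < p := by
    have : 0 < p := by omega
    exact_mod_cast this
  have h1 : (17 : ℝ) ≤ (p : ℝ) ^ (19 / 20 : ℝ) := by
    have h2 : (17 : ℝ) ^ (20 : ℕ) ≤ (p : ℝ) ^ (19 : ℕ) := by
      have h3 : (101 : ℝ) ≤ p := by exact_mod_cast hp
      have h4 : (101 : ℝ) ^ 19 ≤ (p : ℝ) ^ 19 := pow_le_pow_left₀ (by norm_num) h3 19
      refine le_trans ?_ h4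
      norm_num
    have h5 : (17 : ℝ) = ((17 : ℝ) ^ (20 : ℕ)) ^ (1 / 20 : ℝ) := by
      rw [← Real.rpow_natCast (17 : ℝ) 20, ← Real.rpow_mul (by norm_num)]
      norm_num
    have h6 : (p : ℝ) ^ (19 / 20 : ℝ) = ((p : ℝ) ^ (19 : ℕ)) ^ (1 / 20 : ℝ) := by
      rw [← Real.rpow_natCast (p : ℝ) 19, ← Real.rpow_mul hp0.le]
      norm_num
    rw [h5, h6]
    exact Real.rpow_le_rpow (by positivity) h2 (by norm_num)
  rw [Real.rpow_neg hp0.le, ← div_eq_mul_inv, div_le_one (by linarith)]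
  exact h1

private theorem rk_term {P β p : ℕ} (hp : p.Prime) (h100 : 100 < p) (hβ : ¬ p ∣ β) (x : ℤ) {k : ℕ}
    (hk : 1 ≤ k) : |hh P β x (p ^ k)| * ((p ^ k : ℕ) : ℝ) ^ (1 / 80 : ℝ) ≤
      4 * ((p : ℝ) ^ (-(19 / 20) : ℝ)) ^ ((k + 3) / 4) := by
  have hp0 : (0 : ℝ) < p := by
    have : 0 < p := by omega
    exact_mod_cast this
  have hp1 : (1 : ℝ) ≤ p := by
    have : 1 ≤ p := by omega
    exact_mod_cast this
  have h1 := abs_hh_pow_le (P := P) hp (by omega) hβ x hk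
  have h2 : ((p ^ k : ℕ) : ℝ) ^ (1 / 80 : ℝ) ≤ ((p : ℝ) ^ (1 / 20 : ℝ)) ^ ((k + 3) / 4) := by
    rw [Nat.cast_pow, ← Real.rpow_natCast, ← Real.rpow_natCast, ← Real.rpow_mul hp0.le,
      ← Real.rpow_mul hp0.le]
    apply Real.rpow_le_rpow_of_exponent_le hp1
    have h3 : k ≤ 4 * ((k + 3) / 4) := by omega
    have h4 : (k : ℝ) ≤ 4 * (((k + 3) / 4 : ℕ) : ℝ) := by exact_mod_cast h3
    linarith
  have h5 : (p : ℝ) ^ (-(19 / 20) : ℝ) = (1 / (p : ℝ)) * (p : ℝ) ^ (1 / 20 : ℝ) := by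
    rw [one_div, ← Real.rpow_neg_one (p : ℝ), ← Real.rpow_add hp0]
    norm_num
  rw [h5, mul_pow, ← mul_assoc]
  exact mul_le_mul h1 h2 (by positivity) (by positivity)

private theorem rk_count {z x : ℕ} (hz : 68 * (Nat.log 2 x + 1) ^ 2 ≤ z) :
    ∑ p ∈ ss 100 z x, (p : ℝ) ^ (-(19 / 20) : ℝ) ≤ 20 * (z : ℝ) ^ (1 / 20 : ℝ) + 1 := by
  rw [← sum_filter_add_sum_filter_not (ss 100 z x) (fun p => p ≤ z)]
  have h1 : ∑ p ∈ (ss 100 z x).filter (fun p => p ≤ z), (p : ℝ) ^ (-(19 / 20) : ℝ) ≤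
      20 * (z : ℝ) ^ (1 / 20 : ℝ) := by
    refine le_trans ?_ (rk_sum z)
    apply sum_le_sum_of_subset_of_nonneg
    · intro p hp
      rw [mem_filter, mem_ss] at hp
      rw [mem_Icc]
      exact ⟨hp.1.1.pos, hp.2⟩
    · intro m _ _
      positivity
  have hz1 : 1 ≤ z := by nlinarith [Nat.zero_le (Nat.log 2 x)]
  have hz1' : (1 : ℝ) ≤ z := by exact_mod_cast hz1
  have h2 : ∑ p ∈ (ss 100 z x).filter (fun p => ¬ p ≤ z), (p : ℝ) ^ (-(19 / 20) : ℝ) ≤ 1 := by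
    have h3 : ∀ p ∈ (ss 100 z x).filter (fun p => ¬ p ≤ z),
        (p : ℝ) ^ (-(19 / 20) : ℝ) ≤ (z : ℝ) ^ (-(19 / 20) : ℝ) := by
      intro p hp
      rw [mem_filter] at hp
      have h4 : (z : ℝ) ≤ p := by
        have : z ≤ p := by omega
        exact_mod_cast this
      exact Real.rpow_le_rpow_of_nonpos (by linarith) h4 (by norm_num)
    have h5 := sum_le_card_nsmul _ _ _ h3
    have h6 : #((ss 100 z x).filter (fun p => ¬ p ≤ z)) ≤ Nat.log 2 x := by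
      have h7 := card_big_le 100 z x
      have h8 : (ss 100 z x).filter (fun p => ¬ p ≤ z) = (ss 100 z x).filter (fun p => z < p) := by
        apply filter_congr
        intro p _
        exact not_le
      rw [h8]
      exact h7
    rw [nsmul_eq_mul] at h5
    refine le_trans h5 ?_
    have h9 : (Nat.log 2 x : ℝ) ≤ (z : ℝ) ^ (19 / 20 : ℝ) := by
      have h10 : (Nat.log 2 x) ^ 2 ≤ z := by nlinarith [Nat.zero_le (Nat.log 2 x)]
      have h11 : ((Nat.log 2 x : ℝ)) ^ (2 : ℕ) ≤ z := by exact_mod_cast h10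
      have h12 : (Nat.log 2 x : ℝ) ≤ (z : ℝ) ^ (1 / 2 : ℝ) := by
        rw [← Real.sqrt_eq_rpow]
        exact Real.le_sqrt_of_sq_le h11
      refine le_trans h12 ?_
      exact Real.rpow_le_rpow_of_exponent_le hz1' (by norm_num)
    have h13 : (#((ss 100 z x).filter (fun p => ¬ p ≤ z)) : ℝ) ≤ (z : ℝ) ^ (19 / 20 : ℝ) := by
      refine le_trans ?_ h9
      exact_mod_cast h6
    have h14 : 0 < (z : ℝ) ^ (19 / 20 : ℝ) := Real.rpow_pos_of_pos (by linarith) _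
    rw [Real.rpow_neg (by linarith), ← div_eq_mul_inv, div_le_one h14]
    exact h13
  linarith

theorem euler_rankin {P β z x Y : ℕ} (hP : ∀ p : ℕ, p.Prime → p ≤ 100 → p ∣ P)
    (hβ : ∀ p : ℕ, p.Prime → 100 < p → ¬ p ∣ β) (hz : 68 * (Nat.log 2 x + 1) ^ 2 ≤ z)
    (hY : 1 ≤ Y) (T : Finset ℕ)
    (hT : ∀ a ∈ T, a ∈ Nat.factoredNumbers (ss 100 z x) ∧ Y < a) :
    ∑ a ∈ T, |hh P β x a| ≤
      (Y : ℝ) ^ (-(1 / 80) : ℝ) * Real.exp (17 * (20 * (z : ℝ) ^ (1 / 20 : ℝ) + 1)) := by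
  classical
  set f : ℕ → ℝ := fun a => |hh P β x a| * (a : ℝ) ^ (1 / 80 : ℝ) with hf
  have fnn : ∀ a, 0 ≤ f a := fun a => by rw [hf]; positivity
  have f1 : f 1 = 1 := by
    rw [hf]
    simp only [hh_one, abs_one, Nat.cast_one, Real.one_rpow, mul_one]
  have fmul : ∀ {m n : ℕ}, Nat.Coprime m n → f (m * n) = f m * f n := by
    intro m n hmn
    rw [hf]
    simp only
    rw [hh_mul P β x hmn, abs_mul, Nat.cast_mul,
      Real.mul_rpow (Nat.cast_nonneg m) (Nat.cast_nonneg n)]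
    ring
  have f0 : ∀ p : ℕ, f (p ^ 0) ≤ 1 := fun p => by rw [pow_zero, f1]
  have hloc : ∀ p : ℕ, p.Prime → 100 < p → ∀ n,
      ∑ k ∈ range n, f (p ^ k) ≤ 1 + 17 * (p : ℝ) ^ (-(19 / 20) : ℝ) := by
    intro p hp h100 n
    exact rk_block (g := fun k => f (p ^ k)) (Real.rpow_nonneg (Nat.cast_nonneg p) _) (rk_u h100)
      (f0 p) (fun k => fnn _) (fun k hk => rk_term hp h100 (hβ p hp h100) x hk) n
  have hloc' : ∀ p : ℕ, p.Prime → p ≤ 100 → ∀ n, ∑ k ∈ range n, f (p ^ k) ≤ 1 + 17 * 0 := by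
    intro p hp h100 n
    refine rk_block (g := fun k => f (p ^ k)) le_rfl (by norm_num) (f0 p) (fun k => fnn _)
      (fun k hk => ?_) n
    have h1 : f (p ^ k) = 0 := by
      rw [hf]
      simp only
      rw [hh_pow_dvd P β x hp (hP p hp h100) hk, abs_zero, zero_mul]
    simp only [h1]
    positivity
  have hsum : ∀ {p : ℕ}, p.Prime → Summable (fun n : ℕ => ‖f (p ^ n)‖) := by
    intro p hp
    have e : (fun n : ℕ => ‖f (p ^ n)‖) = fun n : ℕ => f (p ^ n) := by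
      funext n
      exact Real.norm_of_nonneg (fnn _)
    rw [e]
    rcases Nat.lt_or_ge 100 p with h | h
    · exact summable_of_sum_range_le (fun n => fnn _) (hloc p hp h)
    · exact summable_of_sum_range_le (fun n => fnn _) (hloc' p hp h)
  have hE := (EulerProduct.summable_and_hasSum_factoredNumbers_prod_filter_prime_tsum f1 fmul
    hsum (ss 100 z x)).2
  have hprod : ∏ p ∈ ss 100 z x with p.Prime, ∑' n : ℕ, f (p ^ n) ≤
      Real.exp (17 * (20 * (z : ℝ) ^ (1 / 20 : ℝ) + 1)) := by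
    have e1 : (ss 100 z x).filter (fun p => p.Prime) = ss 100 z x := by
      apply filter_true_of_mem
      intro p hp
      rw [mem_ss] at hp
      exact hp.1
    rw [e1]
    have h1 : ∏ p ∈ ss 100 z x, ∑' n : ℕ, f (p ^ n) ≤
        ∏ p ∈ ss 100 z x, Real.exp (17 * (p : ℝ) ^ (-(19 / 20) : ℝ)) := by
      apply prod_le_prod
      · intro p _
        exact tsum_nonneg fun n => fnn _
      · intro p hp
        rw [mem_ss] at hp
        have h2 := Real.tsum_le_of_sum_range_le (fun n => fnn _) (hloc p hp.1 hp.2.1)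
        have h3 := Real.add_one_le_exp (17 * (p : ℝ) ^ (-(19 / 20) : ℝ))
        linarith
    refine le_trans h1 ?_
    rw [← Real.exp_sum, ← mul_sum]
    apply Real.exp_le_exp.2
    have h4 := rk_count hz
    linarith
  have hT1 : ∑ a ∈ T, f a ≤ Real.exp (17 * (20 * (z : ℝ) ^ (1 / 20 : ℝ) + 1)) := by
    have h1 : ∑ a ∈ T.subtype (fun a => a ∈ Nat.factoredNumbers (ss 100 z x)), f a =
        ∑ a ∈ T, f a := sum_subtype_of_mem f fun a ha => (hT a ha).1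
    rw [← h1]
    exact le_trans (sum_le_hasSum _ (fun i _ => fnn _) hE) hprod
  have hY0 : (0 : ℝ) < Y := by exact_mod_cast hY
  have hterm : ∀ a ∈ T, |hh P β x a| ≤ (Y : ℝ) ^ (-(1 / 80) : ℝ) * f a := by
    intro a ha
    have hYa : (Y : ℝ) ≤ a := by
      have := (hT a ha).2.le
      exact_mod_cast this
    have h1 : (1 : ℝ) ≤ (Y : ℝ) ^ (-(1 / 80) : ℝ) * (a : ℝ) ^ (1 / 80 : ℝ) := by
      rw [Real.rpow_neg hY0.le, ← div_eq_inv_mul, one_le_div (Real.rpow_pos_of_pos hY0 _)]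
      exact Real.rpow_le_rpow hY0.le hYa (by norm_num)
    have h2 : (Y : ℝ) ^ (-(1 / 80) : ℝ) * f a =
        |hh P β x a| * ((Y : ℝ) ^ (-(1 / 80) : ℝ) * (a : ℝ) ^ (1 / 80 : ℝ)) := by
      rw [hf]
      ring
    rw [h2]
    exact le_mul_of_one_le_right (abs_nonneg _) h1
  calc ∑ a ∈ T, |hh P β x a| ≤ ∑ a ∈ T, (Y : ℝ) ^ (-(1 / 80) : ℝ) * f a := sum_le_sum hterm
    _ = (Y : ℝ) ^ (-(1 / 80) : ℝ) * ∑ a ∈ T, f a := by rw [mul_sum]
    _ ≤ _ := mul_le_mul_of_nonneg_left hT1 (Real.rpow_nonneg hY0.le _)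

end Pool.Agent.Helper56.PX
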