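import Mathlib
import Pool.Agent.Helper56.PX.Local

/-!
PX-17 Split. `HH` as a sum over the numbers composed of primes of `ss` times the rough part.

PROOF. Let `s = ss 100 z x`. Step 1 (decomposition): every `q ≥ 1` is `a b` with `a ∈ Nat.factoredNumbers s` and no prime
of `s` dividing `b` (`Nat.recOnMul` or strong induction on `q`: `q = p q'`, put `p` into `a` if `p ∈ s`, else into `b`), and
the pair is unique (if `a b = a' b'` then `(a, b') = 1`, so `a ∣ a'`, and conversely). `(a, b) = 1`. So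
`HH = ∑_{q ≤ D} hh q = ∑_{a ≤ D, a factored} ∑_{b ≤ D / a, b free of primes of s} hh a * hh b`
(`Finset.sum_bij'` or `sum_nbij` from the sigma set; `hh_mul`; `a b ≤ D ↔ b ≤ D / a`).
Step 2: for `1 < b`, free of primes of `s`: if a prime `p ≤ 100` divides `b` then `hh b = 0` (`p ∣ P`). Otherwise all prime
factors of `b` are `> z` and do not divide `x` (`x ≠ 0`, definition of `ss`), and are prime to `P`, so
`hh b = χ(b) gg b / b`; if `b` is not squarefree, `p^2 ∣ b`, `b = p^v b'` with `v ≥ 2`, `(p, b') = 1`: `gg b = 0`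
(`gg_mul`, `gg_pow_zero`). So the inner sum over `1 < b` is the sum of `χ(b) gg b / b` over the rough `b` (in the sense of
`Rough z`) free of primes of `s`. For a rough `b` divisible by a prime `p ∈ s`: `p > z`, so `p ∣ x`, and `b = p b'`,
`(p, b') = 1`: `gg b = 0` (`gg_prime_zero`). So the inner sum is `1 + RR β x z (D / a)` (`hh_one` for `b = 1`; `D / a ≥ 1`).
-/

set_option autoImplicit false

namespace Pool.Agent.Helper56.PX

open Finset Pool.Agent.Helper11.Sq

private theorem split_exists {s : Finset ℕ} (hs : ∀ p ∈ s, p.Prime) (q : ℕ) (hq : q ≠ 0) :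
    ∃ a b : ℕ, q = a * b ∧ a ∈ Nat.factoredNumbers s ∧ ∀ p ∈ s, ¬ p ∣ b := by
  induction q using Nat.recOnMul with
  | zero => exact absurd rfl hq
  | one =>
    refine ⟨1, 1, rfl, Nat.mem_factoredNumbers'.2 fun p hp h => ?_, fun p hp h => ?_⟩
    · exact absurd (Nat.dvd_one.1 h) hp.one_lt.ne'
    · exact absurd (Nat.dvd_one.1 h) (hs p hp).one_lt.ne'
  | prime r hr =>
    by_cases h : r ∈ s
    · refine ⟨r, 1, (mul_one _).symm, Nat.mem_factoredNumbers'.2 fun p hp h' => ?_, fun p hp h' => ?_⟩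
      · rw [(Nat.prime_dvd_prime_iff_eq hp hr).1 h']
        exact h
      · exact absurd (Nat.dvd_one.1 h') (hs p hp).one_lt.ne'
    · refine ⟨1, r, (one_mul _).symm, Nat.mem_factoredNumbers'.2 fun p hp h' => ?_, fun p hp h' => ?_⟩
      · exact absurd (Nat.dvd_one.1 h') hp.one_lt.ne'
      · rw [(Nat.prime_dvd_prime_iff_eq (hs p hp) hr).1 h'] at hp
        exact h hp
  | mul u v hu hv =>
    obtain ⟨a, b, h1, h2, h3⟩ := hu (left_ne_zero_of_mul hq)
    obtain ⟨a', b', h1', h2', h3'⟩ := hv (right_ne_zero_of_mul hq)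
    refine ⟨a * a', b * b', by rw [h1, h1']; ring, Nat.mul_mem_factoredNumbers h2 h2', fun p hp h => ?_⟩
    rcases (hs p hp).dvd_mul.1 h with h' | h'
    · exact h3 p hp h'
    · exact h3' p hp h'

private theorem split_coprime {s : Finset ℕ} {a b : ℕ} (ha : a ∈ Nat.factoredNumbers s)
    (hb : ∀ p ∈ s, ¬ p ∣ b) : a.Coprime b :=
  Nat.coprime_of_dvd fun p hp h h' => hb p (Nat.mem_factoredNumbers'.1 ha p hp h) h'

private theorem split_unique {s : Finset ℕ} {a b a' b' : ℕ} (ha : a ∈ Nat.factoredNumbers s)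
    (hb : ∀ p ∈ s, ¬ p ∣ b) (ha' : a' ∈ Nat.factoredNumbers s) (hb' : ∀ p ∈ s, ¬ p ∣ b')
    (h : a * b = a' * b') : a = a' ∧ b = b' := by
  have h1 : a ∣ a' := (split_coprime ha hb').dvd_of_dvd_mul_right (Dvd.intro _ h)
  have h2 : a' ∣ a := (split_coprime ha' hb).dvd_of_dvd_mul_right (Dvd.intro _ h.symm)
  have h3 : a = a' := Nat.dvd_antisymm h1 h2
  refine ⟨h3, ?_⟩
  rw [← h3] at h
  exact Nat.eq_of_mul_eq_mul_left (Nat.pos_of_ne_zero (Nat.ne_zero_of_mem_factoredNumbers ha)) h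

open Classical in
private theorem inner {P β z x : ℕ} (hP : ∀ p : ℕ, p.Prime → (p ∣ P ↔ p ≤ 100))
    (hβ : ∀ p : ℕ, p.Prime → 100 < p → ¬ p ∣ β) (hx : x ≠ 0) (hz : 100 ≤ z) (y : ℕ) (hy : 1 ≤ y) :
    ∑ b ∈ (Icc 1 y).filter (fun b => ∀ p ∈ ss 100 z x, ¬ p ∣ b), hh P β x b = 1 + RR β x z y := by
  have hone : ∀ p ∈ ss 100 z x, ¬ p ∣ 1 := fun p hp h =>
    absurd (Nat.dvd_one.1 h) (mem_ss.1 hp).1.one_lt.ne'
  have h1 : Icc 1 y = insert 1 (Ioc 1 y) := by
    ext b
    rw [mem_insert, mem_Icc, mem_Ioc]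
    omega
  rw [h1, filter_insert, if_pos hone, sum_insert (by simp), hh_one]
  congr 1
  unfold RR
  rw [sum_filter, sum_filter]
  refine sum_congr rfl fun b hb => ?_
  have hb1 := mem_Ioc.1 hb
  have hb0 : b ≠ 0 := by omega
  by_cases hF : ∀ p ∈ ss 100 z x, ¬ p ∣ b
  · rw [if_pos hF]
    by_cases hR : Rough z b
    · rw [if_pos hR]
      unfold hh
      rw [if_pos]
      refine Nat.coprime_of_dvd fun p hp h h' => ?_
      have h2 := hR.2 p hp h
      have h3 := (hP p hp).1 h'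
      omega
    · rw [if_neg hR]
      by_cases hsmall : ∃ p : ℕ, p.Prime ∧ p ≤ 100 ∧ p ∣ b
      · obtain ⟨p, hp, h2, h3⟩ := hsmall
        unfold hh
        rw [if_neg]
        intro hc
        exact Nat.not_coprime_of_dvd_of_dvd hp.one_lt h3 ((hP p hp).2 h2) hc
      · push Not at hsmall
        have hbig : ∀ p : ℕ, p.Prime → p ∣ b → 100 < p ∧ z < p ∧ ¬ p ∣ x := by
          intro p hp h
          have h2 : 100 < p := by
            by_contra hcon
            exact hsmall p hp (not_lt.1 hcon) h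
          have h3 : p ∉ ss 100 z x := fun h' => hF p h' h
          rw [mem_ss] at h3
          push Not at h3
          have h4 := h3 hp h2
          exact ⟨h2, h4.1, fun h' => hx (h4.2 h')⟩
        have hns : ¬ Squarefree b := fun h => hR ⟨h, fun p hp h' => (hbig p hp h').2.1⟩
        rw [Nat.squarefree_iff_prime_squarefree] at hns
        push Not at hns
        obtain ⟨p, hp, hpp⟩ := hns
        have hpb : p ∣ b := (Dvd.intro _ rfl).trans hpp
        obtain ⟨h2, h3, h4⟩ := hbig p hp hpb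
        obtain ⟨v, b', h5, h6⟩ := Nat.exists_eq_pow_mul_and_not_dvd hb0 p hp.one_lt.ne'
        have hv : 2 ≤ v := by
          by_contra hcon
          have h7 : v = 0 ∨ v = 1 := by omega
          rcases h7 with h7 | h7
          · rw [h7, pow_zero, one_mul] at h6
            rw [h6] at hpb
            exact h5 hpb
          · rw [h7, pow_one] at h6
            rw [h6] at hpp
            exact h5 (Nat.dvd_of_mul_dvd_mul_left hp.pos hpp)
        have hcop : (p ^ v).Coprime b' := Nat.Coprime.pow_left _ ((Nat.Prime.coprime_iff_not_dvd hp).2 h5)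
        have hgg : gg β x b = 0 := by
          rw [h6, gg_mul β x hcop, gg_pow_zero hp (by omega) (hβ p hp h2)
            (fun h => h4 (Int.natCast_dvd_natCast.1 h)) hv, zero_mul]
        unfold hh
        rw [hgg]
        simp
  · rw [if_neg hF]
    by_cases hR : Rough z b
    · rw [if_pos hR]
      push Not at hF
      obtain ⟨p, hp, hpb⟩ := hF
      obtain ⟨h2, h3, h4⟩ := mem_ss.1 hp
      have h5 := hR.2 p h2 hpb
      have h6 : p ∣ x := by
        rcases h4 with h4 | h4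
        · omega
        · exact h4.1
      obtain ⟨b', rfl⟩ := hpb
      have hcop : p.Coprime b' := Nat.coprime_of_squarefree_mul hR.1
      have hgg : gg β x (p * b') = 0 := by
        rw [gg_mul β x hcop, gg_prime_zero h2 (hβ p h2 h3) (Int.natCast_dvd_natCast.2 h6), zero_mul]
      rw [hgg]
      simp
    · rw [if_neg hR]

open Classical in
theorem HH_split {P β z x : ℕ} (hP : ∀ p : ℕ, p.Prime → (p ∣ P ↔ p ≤ 100))
    (hβ : ∀ p : ℕ, p.Prime → 100 < p → ¬ p ∣ β) (hx : x ≠ 0) (hz : 100 ≤ z) (D : ℕ) :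
    HH P β x D = ∑ a ∈ (Icc 1 D).filter (fun a => a ∈ Nat.factoredNumbers (ss 100 z x)),
      hh P β x a * (1 + RR β x z (D / a)) := by
  have hs : ∀ p ∈ ss 100 z x, p.Prime := fun p hp => (mem_ss.1 hp).1
  have h1 : ∀ a ∈ (Icc 1 D).filter (fun a => a ∈ Nat.factoredNumbers (ss 100 z x)),
      hh P β x a * (1 + RR β x z (D / a)) =
        ∑ b ∈ (Icc 1 (D / a)).filter (fun b => ∀ p ∈ ss 100 z x, ¬ p ∣ b), hh P β x (a * b) := by
    intro a ha
    rw [mem_filter, mem_Icc] at ha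
    rw [← inner hP hβ hx hz (D / a) ((Nat.one_le_div_iff (by omega)).2 ha.1.2), mul_sum]
    refine sum_congr rfl fun b hb => ?_
    rw [hh_mul P β x (split_coprime ha.2 (mem_filter.1 hb).2)]
  rw [sum_congr rfl h1, sum_sigma']
  unfold HH
  symm
  refine Finset.sum_bij (fun x _ => x.1 * x.2) ?_ ?_ ?_ ?_
  · rintro ⟨a, b⟩ hab
    rw [mem_sigma, mem_filter, mem_filter, mem_Icc, mem_Icc] at hab
    obtain ⟨⟨⟨h2, h3⟩, h4⟩, ⟨h5, h6⟩, h7⟩ := hab
    rw [mem_Icc]
    refine ⟨Nat.mul_pos h2 h5, ?_⟩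
    rw [mul_comm]
    exact (Nat.le_div_iff_mul_le h2).1 h6
  · rintro ⟨a, b⟩ hab ⟨a', b'⟩ hab' h
    rw [mem_sigma, mem_filter, mem_filter] at hab hab'
    obtain ⟨h2, h3⟩ := split_unique hab.1.2 hab.2.2 hab'.1.2 hab'.2.2 h
    dsimp only at h2 h3
    subst h2
    subst h3
    rfl
  · intro q hq
    rw [mem_Icc] at hq
    obtain ⟨a, b, h2, h3, h4⟩ := split_exists hs q (by omega)
    have ha0 : 0 < a := Nat.pos_of_ne_zero (Nat.ne_zero_of_mem_factoredNumbers h3)
    have hb0 : 0 < b := by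
      rcases Nat.eq_zero_or_pos b with h | h
      · rw [h, mul_zero] at h2
        omega
      · exact h
    refine ⟨⟨a, b⟩, ?_, h2.symm⟩
    rw [mem_sigma, mem_filter, mem_filter, mem_Icc, mem_Icc]
    refine ⟨⟨⟨ha0, ?_⟩, h3⟩, ⟨hb0, ?_⟩, h4⟩
    · calc a = a * 1 := (mul_one a).symm
        _ ≤ a * b := Nat.mul_le_mul_left a hb0
        _ ≤ D := by rw [← h2]; exact hq.2
    · rw [Nat.le_div_iff_mul_le ha0, mul_comm, ← h2]
      exact hq.2
  · rintro ⟨a, b⟩ _
    rfl

end Pool.Agent.Helper56.PX
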