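import Mathlib
import Pool.Agent.Helper56.PX.RSmall
import Pool.Agent.Helper56.PX.EulerLow
import Pool.Agent.Helper56.PX.Rankin
import Pool.Agent.Helper56.PX.Split

/-!
PX-18 Model. The truncated singular series is `≥ 1 / log N` outside a set of `N^(23/24+ε)` numbers `n < N`.

PROOF. Let `z = z0 N`, `x = α n`. Take `n < N`, `n ≠ 0`, outside the exceptional set of `r_small` (with `ε/2`). As
`x ≤ α N`, `68 (Nat.log 2 x + 1)² ≤ (Nat.log 2 N)^10 = z` for large `N`, `z ≥ 100`. `HH_split`: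
`HH = ∑_{a ≤ D} hh a + ∑_{a ≤ D} hh a RR(D / a) ≥ (E - ∑_{a > D} |hh a|) - 14 z^(-1/8) ∑_{a ≤ D} |hh a|`,
all sums over `a ∈ Nat.factoredNumbers (ss 100 z x)` (`D / a ≤ D`). Here `E ≥ 1/2 / M z^34` (`euler_low`), the tail is
`≤ D^(-1/80) exp(17 (20 z^(1/20) + 1))` (`euler_rankin` for finite sets; pass to the limit: `E` is a limit of finite sums over
`T`, `∑_T hh = ∑_{T, a ≤ D} + ∑_{T, a > D}`; take `T ⊇` all factored `a ≤ D`), and the last sum `≤ 2 M z^17` (`euler_up`).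
`M z ≤ exp 9 (2 log z)^8` (`M_le`), `log z = 10 log (Nat.log 2 N)`, `z^(1/20) = (Nat.log 2 N)^(1/2)`,
`z^(-1/8) = (Nat.log 2 N)^(-5/4)`, `D^(-1/80) ≤ N^(-1/1600)`. So with `ℓ = Nat.log 2 N → ∞` (`log N ≤ ℓ + 1`,
`N ≥ 2^ℓ`) the lower bound is
`1/2 / (exp 9 (20 log ℓ)^8)^34 - exp(-ℓ log 2 / 1600 + 340 ℓ^(1/2) + 17) - 28 ℓ^(-5/4) (exp 9 (20 log ℓ)^8)^17`, which is
`≥ 1 / (ℓ / 2) ≥ 1 / log N` for large `ℓ` (powers of `log ℓ` are `o(ℓ^(1/8))`). `log N ≥ ℓ log 2 ≥ ℓ/2`.
The exceptional set has at most `N^(23/24 + ε/2) + 1 ≤ N^(23/24+ε)` elements for large `N`.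
-/

set_option autoImplicit false

namespace Pool.Agent.Helper56.PX

open Finset Filter Pool.Agent.Helper11.Sq

private lemma tendsto_log2 : Tendsto (fun N : ℕ => Nat.log 2 N) atTop atTop := by
  rw [tendsto_atTop]
  intro b
  filter_upwards [eventually_ge_atTop (2 ^ b)] with N hN
  have h2 : (0 : ℕ) < 2 ^ b := by positivity
  exact Nat.le_log_of_pow_le (by norm_num) hN

/-- `M (ℓ ^ 10) ^ 51 = o(ℓ)` -/
private lemma tendsto_M51 : Tendsto (fun l : ℕ => M (l ^ 10) ^ 51 / (l : ℝ)) atTop (nhds 0) := by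
  have h1 : Tendsto (fun x : ℝ => Real.log x ^ 408 / x) atTop (nhds 0) := by
    have := (Real.isLittleO_pow_log_id_atTop (n := 408)).tendsto_div_nhds_zero
    simpa using this
  have h2 := (h1.comp tendsto_natCast_atTop_atTop).const_mul ((Real.exp 9 * 20 ^ 8) ^ 51)
  rw [mul_zero] at h2
  apply squeeze_zero' (g := fun x : ℕ => (Real.exp 9 * 20 ^ 8) ^ 51 *
    (Real.log x ^ 408 / x))
  · filter_upwards with x
    have := one_le_M (x ^ 10)
    positivity
  · filter_upwards [eventually_ge_atTop 2] with x hx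
    have h20 : 2 ≤ x ^ 10 := hx.trans (Nat.le_self_pow (by norm_num) x)
    have h3 := M_le h20
    have h3' : M (x ^ 10) ≤ Real.exp 9 * (20 * Real.log x) ^ 8 := by
      refine h3.trans (le_of_eq ?_)
      push_cast
      rw [Real.log_pow]
      push_cast
      ring
    have h4 : M (x ^ 10) ^ 51 ≤ (Real.exp 9 * (20 * Real.log x) ^ 8) ^ 51 :=
      pow_le_pow_left₀ (by linarith [one_le_M (x ^ 10)]) h3' 51
    have h5 : (Real.exp 9 * (20 * Real.log x) ^ 8) ^ 51 =
        (Real.exp 9 * 20 ^ 8) ^ 51 * Real.log x ^ 408 := by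
      rw [mul_pow 20, ← mul_assoc, mul_pow, ← pow_mul]
    rw [h5] at h4
    have hx0 : (0 : ℝ) < x := by exact_mod_cast (by omega : 0 < x)
    calc M (x ^ 10) ^ 51 / (x : ℝ) ≤ (Real.exp 9 * 20 ^ 8) ^ 51 * Real.log x ^ 408 / x := by
          gcongr
      _ = _ := by rw [mul_div_assoc]
  · exact h2

private lemma tendsto_exp_part : Tendsto (fun l : ℕ => (l : ℝ) *
    Real.exp (340 * Real.sqrt l + 17 - l / 3200)) atTop (nhds 0) := by
  -- `s = √l`, `s² exp(340 s + 17 - s²/3200) ≤ s² exp(-s) exp 17` for `s ≥ 3200 * 341`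
  have h1 : Tendsto (fun s : ℝ => s ^ 2 * Real.exp (-s)) atTop (nhds 0) :=
    Real.tendsto_pow_mul_exp_neg_atTop_nhds_zero 2
  have hs : Tendsto (fun l : ℕ => Real.sqrt (l : ℝ)) atTop atTop :=
    Real.tendsto_sqrt_atTop.comp tendsto_natCast_atTop_atTop
  have h2 := (h1.comp hs).mul_const (Real.exp 17)
  rw [zero_mul] at h2
  apply squeeze_zero' (g := fun l : ℕ => ((fun s : ℝ => s ^ 2 * Real.exp (-s)) ∘
    fun l : ℕ => Real.sqrt (l : ℝ)) l * Real.exp 17)
  · filter_upwards with l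
    positivity
  · filter_upwards [hs.eventually_ge_atTop (3200 * 341)] with l hl
    simp only [Function.comp]
    rw [Real.sq_sqrt (Nat.cast_nonneg l), mul_assoc, ← Real.exp_add]
    apply mul_le_mul_of_nonneg_left _ (Nat.cast_nonneg l)
    apply Real.exp_le_exp.2
    have h3 : Real.sqrt l * Real.sqrt l = l := Real.mul_self_sqrt (Nat.cast_nonneg l)
    nlinarith
  · exact h2

/-- the numerical inequality -/
private lemma numeric : ∀ᶠ N : ℕ in atTop, ∀ D : ℕ, N ≤ D ^ 20 →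
    1 / Real.log N ≤ 1 / 2 / M (z0 N) ^ 34 -
      (D : ℝ) ^ (-(1 / 80) : ℝ) * Real.exp (17 * (20 * (z0 N : ℝ) ^ (1 / 20 : ℝ) + 1)) -
      14 * (z0 N : ℝ) ^ (-(1 / 8) : ℝ) * (2 * M (z0 N) ^ 17) := by
  have hlog : Tendsto (fun N : ℕ => Nat.log 2 N) atTop atTop := tendsto_log2
  have e1 := (tendsto_M51.comp hlog).eventually_le_const (show (0 : ℝ) < 1 / 168 by norm_num)
  have e2 := (tendsto_exp_part.comp hlog).eventually_le_const (show (0 : ℝ) < 1 by norm_num)
  filter_upwards [e1, e2, hlog.eventually_ge_atTop 1, eventually_ge_atTop 2] with N h1 h2 h3 hN D hD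
  simp only [Function.comp] at h1 h2
  unfold z0
  set l := Nat.log 2 N with hl
  have hl0 : (0 : ℝ) < l := by exact_mod_cast h3
  have hl1 : (1 : ℝ) ≤ l := by exact_mod_cast h3
  set m := M (l ^ 10) with hm
  have hm1 : 1 ≤ m := one_le_M _
  have hm0 : 0 < m := by linarith
  have h4 : m ^ 51 ≤ l / 168 := by
    rw [div_le_iff₀ hl0] at h1
    linarith
  have h5 : m ^ 34 ≤ m ^ 51 := pow_le_pow_right₀ hm1 (by norm_num)
  have hN0 : 0 < N := by omega
  have hNr : (0 : ℝ) < N := by exact_mod_cast hN0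
  have hpow : 2 ^ l ≤ N := Nat.pow_log_le_self 2 (by omega)
  have hlogN : (l : ℝ) / 2 ≤ Real.log N := by
    have h6 : (l : ℝ) * Real.log 2 ≤ Real.log N := by
      rw [← Real.log_pow]
      apply Real.log_le_log (by positivity)
      exact_mod_cast hpow
    have h7 : (1 : ℝ) / 2 ≤ Real.log 2 := by
      have := Real.log_two_gt_d9
      linarith
    nlinarith
  -- the three terms
  have t3 : 1 / Real.log N ≤ 1 / 6 / m ^ 34 := by
    rw [div_div, div_le_div_iff₀ (by linarith) (by positivity)]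
    nlinarith
  have hz8 : ((l ^ 10 : ℕ) : ℝ) ^ (-(1 / 8) : ℝ) ≤ 1 / l := by
    push_cast
    rw [← Real.rpow_natCast, ← Real.rpow_mul hl0.le, one_div (l : ℝ), ← Real.rpow_neg_one]
    apply Real.rpow_le_rpow_of_exponent_le hl1
    norm_num
  have t2 : 14 * ((l ^ 10 : ℕ) : ℝ) ^ (-(1 / 8) : ℝ) * (2 * m ^ 17) ≤ 1 / 6 / m ^ 34 := by
    calc 14 * ((l ^ 10 : ℕ) : ℝ) ^ (-(1 / 8) : ℝ) * (2 * m ^ 17)
        ≤ 14 * (1 / l) * (2 * m ^ 17) := by gcongr
      _ ≤ 1 / 6 / m ^ 34 := by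
          rw [div_div, le_div_iff₀ (by positivity)]
          have e : 14 * (1 / (l : ℝ)) * (2 * m ^ 17) * (6 * m ^ 34) = 168 * m ^ 51 / l := by
            field_simp
            ring
          rw [e, div_le_one hl0]
          linarith
  have hz20 : ((l ^ 10 : ℕ) : ℝ) ^ (1 / 20 : ℝ) = Real.sqrt l := by
    push_cast
    rw [← Real.rpow_natCast, ← Real.rpow_mul hl0.le, Real.sqrt_eq_rpow]
    norm_num
  have hD0 : (0 : ℝ) < D := by
    have : 0 < D := by
      rcases Nat.eq_zero_or_pos D with h | h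
      · rw [h] at hD; simp at hD; omega
      · exact h
    exact_mod_cast this
  have hDpow : (D : ℝ) ^ (-(1 / 80) : ℝ) ≤ Real.exp (-(l / 3200)) := by
    have h6 : (l : ℝ) / 2 ≤ 20 * Real.log D := by
      refine hlogN.trans ?_
      rw [show (20 : ℝ) * Real.log D = Real.log ((D : ℝ) ^ 20) by rw [Real.log_pow]; norm_num]
      apply Real.log_le_log hNr
      exact_mod_cast hD
    rw [Real.rpow_def_of_pos hD0]
    apply Real.exp_le_exp.2
    linarith
  have t1 : (D : ℝ) ^ (-(1 / 80) : ℝ) *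
      Real.exp (17 * (20 * ((l ^ 10 : ℕ) : ℝ) ^ (1 / 20 : ℝ) + 1)) ≤ 1 / 6 / m ^ 34 := by
    rw [hz20]
    have h6 : (D : ℝ) ^ (-(1 / 80) : ℝ) * Real.exp (17 * (20 * Real.sqrt l + 1)) ≤
        Real.exp (340 * Real.sqrt l + 17 - l / 3200) := by
      calc _ ≤ Real.exp (-(l / 3200)) * Real.exp (17 * (20 * Real.sqrt l + 1)) := by gcongr
        _ = _ := by
            rw [← Real.exp_add]
            congr 1
            ring
    refine h6.trans ?_
    rw [div_div, le_div_iff₀ (by positivity)]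
    have h7 : 6 * m ^ 34 ≤ l := by linarith
    have h8 := Real.exp_pos (340 * Real.sqrt l + 17 - l / 3200)
    nlinarith
  have e : (1 : ℝ) / 2 / m ^ 34 = 1 / 6 / m ^ 34 + 1 / 6 / m ^ 34 + 1 / 6 / m ^ 34 := by ring
  linarith

open Classical in
/-- the deterministic lower bound -/
private lemma lower {P β z x : ℕ} (hP : ∀ p : ℕ, p.Prime → (p ∣ P ↔ p ≤ 100))
    (hβ : ∀ p : ℕ, p.Prime → 100 < p → ¬ p ∣ β) (hx : x ≠ 0) (hz1 : 100 ≤ z)
    (hz : 68 * (Nat.log 2 x + 1) ^ 2 ≤ z) {D : ℕ} (hD : 1 ≤ D) {r : ℝ} (hr0 : 0 ≤ r)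
    (hr : ∀ y ≤ D, |RR β x z y| ≤ r) :
    1 / 2 / M z ^ 34 -
      (D : ℝ) ^ (-(1 / 80) : ℝ) * Real.exp (17 * (20 * (z : ℝ) ^ (1 / 20 : ℝ) + 1)) -
      r * (2 * M z ^ 17) ≤ HH P β x D := by
  have hP' : ∀ p : ℕ, p.Prime → p ≤ 100 → p ∣ P := fun p hp h => (hP p hp).2 h
  obtain ⟨E, hE, hE2⟩ := euler_low (P := P) (β := β) (z := z) (x := x) hP' hβ hz
  set s := ss 100 z x with hs
  set tail : ℝ := (D : ℝ) ^ (-(1 / 80) : ℝ) *
    Real.exp (17 * (20 * (z : ℝ) ^ (1 / 20 : ℝ) + 1)) with htail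
  set A := (Icc 1 D).filter (fun a => a ∈ Nat.factoredNumbers s) with hA
  have hA' : ∀ a ∈ A, a ∈ Nat.factoredNumbers s := fun a ha => (mem_filter.1 ha).2
  have h1 : E ≤ ∑ a ∈ A, hh P β x a + tail := by
    set T0 : Finset (Nat.factoredNumbers s) := A.attach.map
      ⟨fun a => ⟨a.1, hA' a.1 a.2⟩, fun a b hab => Subtype.ext (Subtype.mk.inj hab)⟩ with hT0
    refine le_of_tendsto hE ?_
    filter_upwards [eventually_ge_atTop T0] with T hT
    set T' : Finset ℕ := T.map ⟨Subtype.val, Subtype.val_injective⟩ with hT'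
    have h2 : ∑ a ∈ T, hh P β x (a : ℕ) = ∑ a ∈ T', hh P β x a := by
      rw [hT', Finset.sum_map]
      rfl
    have hmem : ∀ a ∈ T', a ∈ Nat.factoredNumbers s := by
      intro a ha
      rw [hT', Finset.mem_map] at ha
      obtain ⟨b, _, rfl⟩ := ha
      exact b.2
    have h3 : T'.filter (fun a => a ≤ D) = A := by
      ext a
      rw [mem_filter]
      constructor
      · rintro ⟨ha, haD⟩
        rw [hA, mem_filter, mem_Icc]
        have h4 := hmem a ha
        exact ⟨⟨Nat.pos_of_ne_zero (Nat.ne_zero_of_mem_factoredNumbers h4), haD⟩, h4⟩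
      · intro ha
        refine ⟨?_, ?_⟩
        · rw [hT', Finset.mem_map]
          refine ⟨⟨a, hA' a ha⟩, hT ?_, rfl⟩
          rw [hT0, Finset.mem_map]
          exact ⟨⟨a, ha⟩, mem_attach _ _, rfl⟩
        · rw [hA, mem_filter, mem_Icc] at ha
          exact ha.1.2
    rw [h2, ← Finset.sum_filter_add_sum_filter_not T' (fun a => a ≤ D), h3]
    have h4 : ∑ a ∈ T'.filter (fun a => ¬ a ≤ D), hh P β x a ≤ tail := by
      refine (Finset.sum_le_sum fun a _ => le_abs_self _).trans ?_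
      apply euler_rankin (P := P) (β := β) (z := z) (x := x) hP' hβ hz hD
      intro a ha
      rw [mem_filter] at ha
      exact ⟨hmem a ha.1, by omega⟩
    linarith
  have h2 : -(r * (2 * M z ^ 17)) ≤ ∑ a ∈ A, hh P β x a * RR β x z (D / a) := by
    have h3 : |∑ a ∈ A, hh P β x a * RR β x z (D / a)| ≤ r * (2 * M z ^ 17) := by
      refine (Finset.abs_sum_le_sum_abs _ _).trans ?_
      have h4 := euler_up (P := P) (β := β) (z := z) (x := x) hP' hβ hz A hA'
      calc ∑ a ∈ A, |hh P β x a * RR β x z (D / a)| ≤ ∑ a ∈ A, r * |hh P β x a| := by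
            apply Finset.sum_le_sum
            intro a _
            rw [abs_mul, mul_comm]
            exact mul_le_mul_of_nonneg_right (hr _ (Nat.div_le_self _ _)) (abs_nonneg _)
        _ = r * ∑ a ∈ A, |hh P β x a| := by rw [Finset.mul_sum]
        _ ≤ _ := mul_le_mul_of_nonneg_left h4 hr0
    linarith [neg_abs_le (∑ a ∈ A, hh P β x a * RR β x z (D / a))]
  rw [HH_split (P := P) (β := β) (z := z) (x := x) hP hβ hx hz1 D]
  have h3 : ∑ a ∈ A, hh P β x a * (1 + RR β x z (D / a)) =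
      ∑ a ∈ A, hh P β x a + ∑ a ∈ A, hh P β x a * RR β x z (D / a) := by
    rw [← Finset.sum_add_distrib]
    refine Finset.sum_congr rfl fun a _ => ?_
    ring
  rw [h3]
  linarith

theorem model {α β : ℕ} (hα : 0 < α)
    (hαβ : ∀ p : ℕ, p.Prime → 100 < p → ¬ p ∣ α ∧ ¬ p ∣ β) {ε : ℝ} (hε : 0 < ε) :
    ∀ᶠ N : ℕ in atTop, ∀ D : ℕ, D ^ 12 ≤ N → N ≤ D ^ 20 →
      (#((range N).filter (fun n : ℕ => HH (PP 100) β ((α : ℤ) * (n : ℤ)) D <
        1 / Real.log N)) : ℝ) ≤ (N : ℝ) ^ (23 / 24 + ε) := by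
  have hlog : Tendsto (fun N : ℕ => Nat.log 2 N) atTop atTop := tendsto_log2
  set a0 := Nat.log 2 α + 1 with ha0
  have hpoly : ∀ᶠ l : ℕ in atTop, 68 * (a0 + l + 2) ^ 2 ≤ l ^ 10 := by
    filter_upwards [eventually_ge_atTop (a0 + 2), eventually_ge_atTop 3] with l h1 h2
    calc 68 * (a0 + l + 2) ^ 2 ≤ 68 * (2 * l) ^ 2 := by
          apply Nat.mul_le_mul_left
          exact Nat.pow_le_pow_left (by omega) 2
      _ = 272 * l ^ 2 := by ring
      _ ≤ 3 ^ 8 * l ^ 2 := Nat.mul_le_mul_right _ (by norm_num)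
      _ ≤ l ^ 8 * l ^ 2 := Nat.mul_le_mul_right _ (Nat.pow_le_pow_left h2 8)
      _ = l ^ 10 := by ring
  have hpow : ∀ᶠ N : ℕ in atTop, (N : ℝ) ^ (23 / 24 + ε / 2) + 1 ≤ (N : ℝ) ^ (23 / 24 + ε) := by
    have h1 : Tendsto (fun N : ℕ => (N : ℝ) ^ (ε / 2)) atTop atTop :=
      (tendsto_rpow_atTop (by positivity)).comp tendsto_natCast_atTop_atTop
    filter_upwards [h1.eventually_ge_atTop 2, eventually_ge_atTop 1] with N h2 h3
    have hN : (1 : ℝ) ≤ N := by exact_mod_cast h3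
    have h4 : (N : ℝ) ^ (23 / 24 + ε) = (N : ℝ) ^ (23 / 24 + ε / 2) * (N : ℝ) ^ (ε / 2) := by
      rw [← Real.rpow_add (by linarith)]
      congr 1
      ring
    have h5 : 1 ≤ (N : ℝ) ^ (23 / 24 + ε / 2) := Real.one_le_rpow hN (by positivity)
    rw [h4]
    nlinarith
  filter_upwards [r_small (α := α) (β := β) hαβ (ε := ε / 2) (by positivity), numeric,
    hlog.eventually hpoly, hpow, hlog.eventually_ge_atTop 100, eventually_ge_atTop 2]
    with N h1 h2 h3 h4 h5 hN D hD1 hD2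
  have h6 := h1 D hD1
  have h7 := h2 D hD2
  have hD : 1 ≤ D := by
    rcases Nat.eq_zero_or_pos D with h | h
    · rw [h] at hD2; simp at hD2; omega
    · exact h
  have hz100 : 100 ≤ z0 N := by
    unfold z0
    exact h5.trans (Nat.le_self_pow (by norm_num) _)
  set bad := (range N).filter (fun n : ℕ => ∃ y ≤ D, 14 * (z0 N : ℝ) ^ (-(1 / 8) : ℝ) <
    |RR β ((α : ℤ) * (n : ℤ)) (z0 N) y|) with hbad
  have hsub : (range N).filter (fun n : ℕ => HH (PP 100) β ((α : ℤ) * (n : ℤ)) D <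
      1 / Real.log N) ⊆ insert 0 bad := by
    intro n hn
    rw [mem_filter, mem_range] at hn
    rw [mem_insert, hbad, mem_filter, mem_range]
    by_cases hn0 : n = 0
    · exact Or.inl hn0
    · right
      refine ⟨hn.1, ?_⟩
      by_contra hcon
      push Not at hcon
      have hx0 : α * n ≠ 0 := Nat.mul_ne_zero hα.ne' hn0
      have hxlog : Nat.log 2 (α * n) ≤ a0 + Nat.log 2 N + 1 := by
        have h8 : α * n < 2 ^ (a0 + Nat.log 2 N + 1 + 1) := by
          have h9 : α < 2 ^ a0 := Nat.lt_pow_succ_log_self (by norm_num) α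
          have h10 : N < 2 ^ (Nat.log 2 N + 1) := Nat.lt_pow_succ_log_self (by norm_num) N
          calc α * n ≤ 2 ^ a0 * 2 ^ (Nat.log 2 N + 1) :=
                Nat.mul_le_mul h9.le (by omega)
            _ = 2 ^ (a0 + Nat.log 2 N + 1) := by rw [← pow_add, ← add_assoc]
            _ < 2 ^ (a0 + Nat.log 2 N + 1 + 1) := Nat.pow_lt_pow_right (by norm_num) (by omega)
        have := Nat.log_lt_of_lt_pow hx0 h8
        omega
      have hz : 68 * (Nat.log 2 (α * n) + 1) ^ 2 ≤ z0 N := by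
        refine le_trans ?_ h3
        apply Nat.mul_le_mul_left
        exact Nat.pow_le_pow_left (by omega) 2
      have h8 := lower (P := PP 100) (β := β) (z := z0 N) (x := α * n) (D := D)
        (r := 14 * (z0 N : ℝ) ^ (-(1 / 8) : ℝ)) (fun p hp => prime_dvd_PP hp)
        (fun p hp h => (hαβ p hp h).2) hx0 hz100 hz hD (by positivity)
        (by
          intro y hy
          have := hcon y hy
          push_cast
          exact this)
      have h9 := hn.2
      push_cast at h8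
      linarith
  have h8 : (#((range N).filter (fun n : ℕ => HH (PP 100) β ((α : ℤ) * (n : ℤ)) D <
      1 / Real.log N)) : ℝ) ≤ (bad.card : ℝ) + 1 := by
    have := (Finset.card_le_card hsub).trans (Finset.card_insert_le _ _)
    exact_mod_cast this
  linarith

end Pool.Agent.Helper56.PX
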