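import Mathlib
import Pool.Agent.Helper56.PX.Defs

/-!
PX-23 Second. Second moment of the piece with large denominators.

PROOF. `piece_le` (Helper11/Sq/Mom) with `U' = max U (z²)` (`Y₁ = D`, `Y₂ = z`; the sum over `range U` is at most the sum over
`range U'`). Its right side is `5 U' B² ∑_{q ∈ Ioc D z, (q,P)=1} #{(i,j) : q ∣ F_i - F_j} / q`. Exchange the sums: the pairs
`i = j` give `J ∑_{q ≤ z} 1/q ≤ J (1 + log z)` (`sum_inv_Ioc_le` in Helper11/Sq/Sums: `∑_{q ∈ Ioc Y z} 1/q ≤ 1 + log z`).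
For `i ≠ j`: `F_i ≠ F_j` (`F_strictMono`), `m = |F_i - F_j| ≤ F β k₀ P J`, `m ≠ 0`, and
`∑_{q > D, q ∣ m} 1/q ≤ #m.divisors / D ≤ K / D`; there are at most `J²` such pairs.
-/

set_option autoImplicit false

namespace Pool.Agent.Helper56.PX

open Finset Pool.Agent.Helper10 Pool.Agent.Helper11.Sq

private theorem sec_pair {β k₀ P J z D : ℕ} {K : ℝ} (hβ : 0 < β) (hP : 0 < P) (hD : 1 ≤ D)
    (hK0 : 0 ≤ K)
    (hK : ∀ m : ℕ, m ≠ 0 → m ≤ F β k₀ P J → (#m.divisors : ℝ) ≤ K) {i j : ℕ} (hi : i < J)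
    (hj : j < J) :
    ∑ q ∈ Ioc D z, (if (q : ℤ) ∣ (F β k₀ P i : ℤ) - F β k₀ P j then 1 / (q : ℝ) else 0) ≤
      (if i = j then 1 + Real.log z else 0) + K / D := by
  have hD0 : (0 : ℝ) < D := by exact_mod_cast hD
  have hKD : 0 ≤ K / D := by positivity
  have hlog : 0 ≤ Real.log z := Real.log_natCast_nonneg z
  by_cases hij : i = j
  · rw [if_pos hij]
    have h1 : ∑ q ∈ Ioc D z, (if (q : ℤ) ∣ (F β k₀ P i : ℤ) - F β k₀ P j then 1 / (q : ℝ) else 0) ≤
        ∑ q ∈ Ioc D z, 1 / (q : ℝ) := by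
      refine Finset.sum_le_sum fun q _ => ?_
      split_ifs
      · exact le_rfl
      · positivity
    have h2 := sum_inv_Ioc_le D z
    linarith
  · rw [if_neg hij, zero_add, ← Finset.sum_filter]
    have hm := F_strictMono (k₀ := k₀) hβ hP
    have hi' := hm hi
    have hj' := hm hj
    set m : ℕ := ((F β k₀ P i : ℤ) - F β k₀ P j).natAbs with hmdef
    have hm0 : m ≠ 0 := by
      intro h0
      apply hij
      apply hm.injective
      rw [hmdef, Int.natAbs_eq_zero] at h0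
      omega
    have hmle : m ≤ F β k₀ P J := by omega
    have h1 := hK m hm0 hmle
    calc ∑ q ∈ (Ioc D z).filter (fun q : ℕ => (q : ℤ) ∣ (F β k₀ P i : ℤ) - F β k₀ P j),
          1 / (q : ℝ) ≤
        ∑ q ∈ (Ioc D z).filter (fun q : ℕ => (q : ℤ) ∣ (F β k₀ P i : ℤ) - F β k₀ P j),
          1 / (D : ℝ) := by
          refine Finset.sum_le_sum fun q hq => ?_
          rw [mem_filter, mem_Ioc] at hq
          have : (D : ℝ) ≤ q := by exact_mod_cast hq.1.1.le
          exact one_div_le_one_div_of_le hD0 this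
      _ = (#((Ioc D z).filter (fun q : ℕ => (q : ℤ) ∣ (F β k₀ P i : ℤ) - F β k₀ P j)) : ℝ) *
          (1 / (D : ℝ)) := by rw [Finset.sum_const, nsmul_eq_mul]
      _ ≤ K * (1 / (D : ℝ)) := by
          refine mul_le_mul_of_nonneg_right ?_ (by positivity)
          refine le_trans ?_ h1
          have h2 : #((Ioc D z).filter (fun q : ℕ => (q : ℤ) ∣ (F β k₀ P i : ℤ) - F β k₀ P j)) ≤
              #m.divisors := by
            refine Finset.card_le_card fun q hq => ?_
            rw [mem_filter] at hq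
            rw [Nat.mem_divisors]
            refine ⟨?_, hm0⟩
            have h3 := Int.natAbs_dvd_natAbs.2 hq.2
            rw [Int.natAbs_natCast] at h3
            exact h3
          exact_mod_cast h2
      _ = K / D := by ring

theorem second {α β k₀ P a J z D U : ℕ} {B K : ℝ} (hB : ∀ y, |Lam P y| ≤ B)
    (hα : ∀ q : ℕ, q.Coprime P → q.Coprime α) (hβ : 0 < β) (hP : 0 < P) (hD : 1 ≤ D)
    (hz : 1 ≤ z) (hK0 : 0 ≤ K)
    (hK : ∀ m : ℕ, m ≠ 0 → m ≤ F β k₀ P J → (#m.divisors : ℝ) ≤ K) :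
    ∑ u ∈ range U, ‖Piece α β k₀ P a J z D z u‖ ^ 2 ≤
      5 * ((max U (z ^ 2) : ℕ) : ℝ) * (B ^ 2 * ((J : ℝ) * (1 + Real.log z) +
        (J : ℝ) ^ 2 * K / D)) := by
  classical
  have h3 := piece_le (α := α) (β := β) (k₀ := k₀) (a := a) (J := J) (z := z) (Y₁ := D) (Y₂ := z)
    (U := max U (z ^ 2)) hB hα hD hz (le_max_right _ _)
  have h4 : ∑ u ∈ range U, ‖Piece α β k₀ P a J z D z u‖ ^ 2 ≤
      ∑ u ∈ range (max U (z ^ 2)), ‖Piece α β k₀ P a J z D z u‖ ^ 2 := by
    apply Finset.sum_le_sum_of_subset_of_nonneg (Finset.range_mono (le_max_left _ _))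
    intro _ _ _; positivity
  refine (h4.trans h3).trans ?_
  refine mul_le_mul_of_nonneg_left ?_ (by positivity)
  refine mul_le_mul_of_nonneg_left ?_ (by positivity)
  have h5 : ∀ q ∈ (Ioc D z).filter (fun q => q.Coprime P),
      (#((range J ×ˢ range J).filter
        (fun p => (q : ℤ) ∣ (F β k₀ P p.1 : ℤ) - F β k₀ P p.2)) : ℝ) / q =
      ∑ p ∈ range J ×ˢ range J,
        (if (q : ℤ) ∣ (F β k₀ P p.1 : ℤ) - F β k₀ P p.2 then 1 / (q : ℝ) else 0) := by
    intro q _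
    rw [← Finset.sum_filter, Finset.sum_const, nsmul_eq_mul, mul_one_div]
  rw [Finset.sum_congr rfl h5]
  have h6 : ∑ q ∈ (Ioc D z).filter (fun q => q.Coprime P), ∑ p ∈ range J ×ˢ range J,
        (if (q : ℤ) ∣ (F β k₀ P p.1 : ℤ) - F β k₀ P p.2 then 1 / (q : ℝ) else 0) ≤
      ∑ q ∈ Ioc D z, ∑ p ∈ range J ×ˢ range J,
        (if (q : ℤ) ∣ (F β k₀ P p.1 : ℤ) - F β k₀ P p.2 then 1 / (q : ℝ) else 0) := by
    apply Finset.sum_le_sum_of_subset_of_nonneg (Finset.filter_subset _ _)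
    intro q _ _
    refine Finset.sum_nonneg fun p _ => ?_
    split_ifs
    · positivity
    · exact le_rfl
  refine h6.trans ?_
  rw [Finset.sum_comm]
  have h7 : ∀ p ∈ range J ×ˢ range J, ∑ q ∈ Ioc D z,
      (if (q : ℤ) ∣ (F β k₀ P p.1 : ℤ) - F β k₀ P p.2 then 1 / (q : ℝ) else 0) ≤
      (if p.1 = p.2 then 1 + Real.log z else 0) + K / D := by
    intro p hp
    rw [mem_product, mem_range, mem_range] at hp
    exact sec_pair hβ hP hD hK0 hK hp.1 hp.2
  refine (Finset.sum_le_sum h7).trans (le_of_eq ?_)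
  rw [Finset.sum_add_distrib, Finset.sum_product, Finset.sum_const, Finset.card_product,
    card_range, nsmul_eq_mul]
  have h8 : ∀ i ∈ range J, ∑ j ∈ range J, (if (i, j).1 = (i, j).2 then 1 + Real.log z else 0) =
      1 + Real.log z := by
    intro i hi
    simp only []
    rw [Finset.sum_ite_eq, if_pos hi]
  rw [Finset.sum_congr rfl h8, Finset.sum_const, card_range, nsmul_eq_mul]
  push_cast
  ring

end Pool.Agent.Helper56.PX
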