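import Mathlib
import Pool.Agent.Helper56.PX.Defs

/-!
PX-24 VPart. The factor `(z + 1 - y) ((U - U₁)/y + 1)` in a short interval.

`zz α P a U = Nat.sqrt (α (a + P U)) + 1` (Helper11/Sq/Asym).

PROOF. `E = EE X`, `E^24 ≤ X < (E+1)^24`, `E → ∞`. Let `A = α (a + P U)`, `A₁ = α (a + P U₁) - f` (natural numbers;
`f ≤ X/E ≤ X/4`, `α P U₁ ≥ X`, so `A₁ ≥ X/2`, `A ≥ X`). `A - A₁ ≤ α P (U - U₁) + f ≤ (2 α P + 1) X / E ≤ 3 α P X / E`.
`√A - √A₁ = (A - A₁)/(√A + √A₁) ≤ 3 α P √X / E`. `y = Nat.sqrt A₁ > √A₁ - 1 ≥ √X/2` for large `X`, `z ≤ √A + 1`. So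
`z + 1 - y ≤ 3 α P √X / E + 3 ≤ 4 α P √X / E` (`√X ≥ E^12 ≥ 3 E`) and
`(U - U₁)/y + 1 ≤ (2X/E)/(√X/2) + 1 = 4 √X / E + 1 ≤ 5 √X / E`. The product is `≤ 20 α P X / E²`: `C = 20 α P`.
-/

set_option autoImplicit false

namespace Pool.Agent.Helper56.PX

open Finset Filter Pool.Agent.Helper11.Sq

theorem four_le_EE {X : ℕ} (hX : 4 ^ 24 ≤ X) : 4 ≤ EE X := by
  by_contra hcon
  push Not at hcon
  have h1 := lt_EE_pow X
  have h2 : (EE X + 1) ^ 24 ≤ 4 ^ 24 := Nat.pow_le_pow_left (by omega) 24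
  omega

theorem v_part {α P : ℕ} (a : ℕ) (hα : 0 < α) (hP : 0 < P) : ∀ᶠ X : ℕ in atTop, ∀ U₁ U f : ℕ,
    X ≤ U₁ → U₁ ≤ U → U ≤ 2 * X → EE X * (U - U₁) ≤ 2 * X → EE X * f ≤ X →
    1 ≤ Nat.sqrt (α * (a + P * U₁) - f) ∧ f < α * (a + P * U₁) ∧
    (((zz α P a U + 1 - Nat.sqrt (α * (a + P * U₁) - f) : ℕ) : ℝ) *
      (((U - U₁) / Nat.sqrt (α * (a + P * U₁) - f) + 1 : ℕ) : ℝ)) ≤
      20 * α * P * (X : ℝ) / (EE X : ℝ) ^ 2 := by
  filter_upwards [eventually_ge_atTop (4 ^ 24)] with X hX U₁ U f h1 h2 h3 h4 h5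
  have hE : 4 ≤ EE X := four_le_EE hX
  have hEX : EE X ^ 24 ≤ X := EE_pow_le X
  generalize EE X = E at *
  have hf4 : 4 * f ≤ X := le_trans (Nat.mul_le_mul_right f hE) h5
  have hαP : 1 ≤ α * P := Nat.mul_pos hα hP
  have hA1 : U₁ ≤ α * (a + P * U₁) := by
    calc U₁ = 1 * U₁ := (one_mul _).symm
      _ ≤ (α * P) * U₁ := Nat.mul_le_mul_right _ hαP
      _ = α * (P * U₁) := by ring
      _ ≤ α * (a + P * U₁) := Nat.mul_le_mul_left _ (by omega)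
  have hA0 : U ≤ α * (a + P * U) := by
    calc U = 1 * U := (one_mul _).symm
      _ ≤ (α * P) * U := Nat.mul_le_mul_right _ hαP
      _ = α * (P * U) := by ring
      _ ≤ α * (a + P * U) := Nat.mul_le_mul_left _ (by omega)
  have hX0 : 4 ≤ X := le_trans (by norm_num) hX
  have hflt : f < α * (a + P * U₁) := by omega
  -- the difference
  have hdiff : α * (a + P * U) = α * (a + P * U₁) + α * P * (U - U₁) := by
    obtain ⟨d, rfl⟩ := Nat.exists_eq_add_of_le h2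
    rw [Nat.add_sub_cancel_left]
    ring
  obtain ⟨A₁, hA₁⟩ : ∃ A₁, A₁ = α * (a + P * U₁) - f := ⟨_, rfl⟩
  obtain ⟨A, hA⟩ : ∃ A, A = α * (a + P * U) := ⟨_, rfl⟩
  have hAA : A = A₁ + f + α * P * (U - U₁) := by omega
  have hA₁X : X ≤ 2 * A₁ := by omega
  have hAX : X ≤ A := by omega
  unfold zz
  rw [← hA, ← hA₁]
  -- reals
  obtain ⟨s, hs⟩ : ∃ s, s = Real.sqrt (X : ℝ) := ⟨_, rfl⟩
  have hXr : (0 : ℝ) ≤ X := Nat.cast_nonneg X
  have hss : s * s = X := by rw [hs]; exact Real.mul_self_sqrt hXr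
  have hs0 : 0 ≤ s := by rw [hs]; exact Real.sqrt_nonneg _
  have hEr : (4 : ℝ) ≤ E := by exact_mod_cast hE
  have hE0 : (0 : ℝ) < E := by linarith
  have hsE : (E : ℝ) ^ 12 ≤ s := by
    rw [hs]
    apply Real.le_sqrt_of_sq_le
    rw [← pow_mul]
    exact_mod_cast hEX
  have hE3 : 4 * (E : ℝ) ≤ s := by
    refine le_trans ?_ hsE
    calc 4 * (E : ℝ) ≤ E * E := by nlinarith
      _ = (E : ℝ) ^ 2 := by ring
      _ ≤ (E : ℝ) ^ 12 := pow_le_pow_right₀ (by linarith) (by norm_num)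
  have hspos : 0 < s := by linarith
  obtain ⟨r, hr⟩ : ∃ r, r = Real.sqrt (A : ℝ) := ⟨_, rfl⟩
  obtain ⟨r₁, hr₁⟩ : ∃ r, r = Real.sqrt (A₁ : ℝ) := ⟨_, rfl⟩
  have hrr : r * r = A := by rw [hr]; exact Real.mul_self_sqrt (Nat.cast_nonneg A)
  have hrr₁ : r₁ * r₁ = A₁ := by rw [hr₁]; exact Real.mul_self_sqrt (Nat.cast_nonneg A₁)
  have hr0 : 0 ≤ r := by rw [hr]; exact Real.sqrt_nonneg _
  have hr₁0 : 0 ≤ r₁ := by rw [hr₁]; exact Real.sqrt_nonneg _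
  have hsr : s ≤ r := by
    rw [hs, hr]
    exact Real.sqrt_le_sqrt (by exact_mod_cast hAX)
  have hA₁r : (X : ℝ) ≤ 2 * A₁ := by exact_mod_cast hA₁X
  -- `r₁ ≥ 0.7 s`
  have hr₁s : 7 * s ≤ 10 * r₁ := by
    have h6 : (7 * s) * (7 * s) ≤ (10 * r₁) * (10 * r₁) := by nlinarith
    exact le_of_not_gt fun hlt => by nlinarith
  have hαPr : (1 : ℝ) ≤ (α : ℝ) * P := by exact_mod_cast hαP
  have hUr : (E : ℝ) * ((U - U₁ : ℕ) : ℝ) ≤ 2 * (s * s) := by rw [hss]; exact_mod_cast h4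
  have hfr : (E : ℝ) * (f : ℝ) ≤ s * s := by rw [hss]; exact_mod_cast h5
  have hAAr : (A : ℝ) = A₁ + f + (α : ℝ) * P * ((U - U₁ : ℕ) : ℝ) := by exact_mod_cast hAA
  -- the integer square roots
  have hz : ((Nat.sqrt A : ℕ) : ℝ) ≤ r := by
    rw [hr]
    exact Real.nat_sqrt_le_real_sqrt
  have hy : r₁ ≤ ((Nat.sqrt A₁ : ℕ) : ℝ) + 1 := by
    rw [hr₁]
    exact Real.real_sqrt_le_nat_sqrt_succ
  obtain ⟨y, hyd⟩ : ∃ y, y = Nat.sqrt A₁ := ⟨_, rfl⟩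
  rw [← hyd] at hy ⊢
  have hy2 : s ≤ 2 * (y : ℝ) := by nlinarith
  have hy0 : (0 : ℝ) < y := by linarith
  have hy1 : 1 ≤ y := by
    have : 0 < y := by exact_mod_cast hy0
    omega
  refine ⟨hy1, hflt, ?_⟩
  -- first factor
  have hyz : y ≤ Nat.sqrt A + 1 + 1 := by
    have : y ≤ Nat.sqrt A := by rw [hyd]; exact Nat.sqrt_le_sqrt (by omega)
    omega
  have hfirst : (((Nat.sqrt A + 1 + 1 - y : ℕ) : ℝ)) ≤ 4 * ((α : ℝ) * P) * s / E := by
    rw [Nat.cast_sub hyz]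
    push_cast
    rw [le_div_iff₀ hE0]
    have h7 : (r - r₁) * E ≤ 3 * ((α : ℝ) * P) * s := by
      have h8 : ((r - r₁) * E) * r ≤ (3 * ((α : ℝ) * P) * s) * r := by
        have h9 : (r - r₁) * r ≤ r * r - r₁ * r₁ := by
          have : r₁ ≤ r := by
            rw [hr, hr₁]
            exact Real.sqrt_le_sqrt (by exact_mod_cast (by omega : A₁ ≤ A))
          nlinarith
        have h10 : (r * r - r₁ * r₁) * E ≤ 3 * ((α : ℝ) * P) * (s * s) := by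
          rw [hrr, hrr₁, hAAr]
          have h11 : ((A₁ : ℝ) + f + (α : ℝ) * P * ((U - U₁ : ℕ) : ℝ) - A₁) * E =
              E * f + (α : ℝ) * P * (E * ((U - U₁ : ℕ) : ℝ)) := by ring
          rw [h11]
          have h12 : (α : ℝ) * P * (E * ((U - U₁ : ℕ) : ℝ)) ≤ (α : ℝ) * P * (2 * (s * s)) :=
            mul_le_mul_of_nonneg_left hUr (by linarith)
          have h13 : s * s ≤ (α : ℝ) * P * (s * s) := by
            nlinarith [mul_self_nonneg s]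
          linarith
        calc ((r - r₁) * E) * r = ((r - r₁) * r) * E := by ring
          _ ≤ (r * r - r₁ * r₁) * E := mul_le_mul_of_nonneg_right h9 hE0.le
          _ ≤ 3 * ((α : ℝ) * P) * (s * s) := h10
          _ ≤ 3 * ((α : ℝ) * P) * (s * r) := by
              apply mul_le_mul_of_nonneg_left _ (by linarith)
              exact mul_le_mul_of_nonneg_left hsr hs0
          _ = _ := by ring
      exact le_of_mul_le_mul_right h8 (by linarith)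
    have h14 : 3 * (E : ℝ) ≤ ((α : ℝ) * P) * s := by
      calc 3 * (E : ℝ) ≤ s := by linarith
        _ = 1 * s := (one_mul _).symm
        _ ≤ _ := mul_le_mul_of_nonneg_right hαPr hs0
    have h15 : ((Nat.sqrt A : ℝ) + 1 + 1 - y) * E ≤ (r - r₁ + 3) * E :=
      mul_le_mul_of_nonneg_right (by linarith) hE0.le
    linarith
  -- second factor
  have hsecond : ((((U - U₁) / y + 1 : ℕ) : ℝ)) ≤ 5 * s / E := by
    push_cast
    have h16 : (((U - U₁) / y : ℕ) : ℝ) ≤ ((U - U₁ : ℕ) : ℝ) / (y : ℝ) := Nat.cast_div_le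
    have h17 : ((U - U₁ : ℕ) : ℝ) / (y : ℝ) ≤ 4 * s / E := by
      rw [div_le_div_iff₀ hy0 hE0]
      have h18 : 2 * (s * s) ≤ 4 * s * y := by nlinarith
      linarith
    have h19 : (1 : ℝ) ≤ s / E := by
      rw [le_div_iff₀ hE0]
      linarith
    have h20 : 5 * s / E = 4 * s / E + s / E := by ring
    linarith
  calc (((Nat.sqrt A + 1 + 1 - y : ℕ) : ℝ)) * ((((U - U₁) / y + 1 : ℕ) : ℝ)) ≤
      (4 * ((α : ℝ) * P) * s / E) * (5 * s / E) :=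
        mul_le_mul hfirst hsecond (Nat.cast_nonneg _) (by positivity)
    _ = 20 * α * P * (s * s) / (E : ℝ) ^ 2 := by
        field_simp
        ring
    _ = _ := by rw [hss]

end Pool.Agent.Helper56.PX
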