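import Mathlib
import Pool.Agent.Helper10.DivBound
import Pool.Agent.Helper56.PX.BadHH
import Pool.Agent.Helper56.PX.Second
import Pool.Agent.Helper56.PX.VPart

/-!
PX-25 Short. Bad `u` with large singular series in a short interval.

PROOF. `E = EE X`, `D = E²`, `J = E⁵`, `z = zz α P a U`, `f = F β k₀ P J ≤ β (k₀ + P)^4 E^20` (`F_le` in Helper11/Sq/Asym), so
`E f ≤ X` for large `X`, `y = Nat.sqrt (α (a + P U₁) - f)`. `z² ≥ α (a + P U) ≥ X` (`zz_sq`), so `z ≥ E^12 ≥ D`;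
`z² ≤ 4 α (a + 2 P X) + 4 ≤ 9 α P X` for large `X` (`zz_le` in Asym). `τ = 1/(2 log X)`.
For a `u` of the set, `bad_HH` (hypotheses: `hD.hk`; `F_j ≤ f < α (a + P U₁) ≤ α (a + P u)` for `j < J` by `F_strictMono`,
`v_part`; `hD.hcop`; `y² ≤ α (a + P U₁) - f`; `α (a + P u) ≤ z²` as `u < U`) gives
`J L τ ≤ V + ‖Piece(D, z)‖ + 2 B E⁴ + C E^11 / z ≤ V + ‖Piece‖ + J L τ / 2` for large `X` (`J = E⁵`, `z ≥ E^12`, and
`E ≥ X^(1/24)/2` beats `log X`). So `V ≥ J L τ / 4` or `‖Piece‖ ≥ J L τ / 4`, and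
`# ≤ (4/(J L τ)) ∑_{u ∈ Ico U₁ U} V + (4/(J L τ))² ∑_{u < 2X} ‖Piece‖²`.
First term (`V_sum_le` in Helper11/Sq/Hyper, `v_part`): `≤ (8 log X / L) 20 α P X / E² ≤ X^(11/12+ε)/2` (`E² ≥ X^(1/12)/4`).
Second term (`second` with the range `2X`; `K = C' X^(ε/2)` from `divisor_bound q` (Helper10/DivBound:
`tau n ^ q ≤ C n` for all `n ≠ 0`, `tau n = #n.divisors`) with `q ≥ 2/ε`, `m ≤ f ≤ X`):
`≤ (64 log² X / (J² L²)) 5 (9 α P X) B² (J (1 + log z) + J² K / E²) ≤ X^(11/12+ε)/2` for large `X`.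
-/

set_option autoImplicit false

namespace Pool.Agent.Helper56.PX

open Finset Filter Pool.Agent.Helper11.Sq

private theorem evlog (c δ : ℝ) (hδ : 0 < δ) :
    ∀ᶠ X : ℕ in atTop, c * (1 + Real.log X) ^ 3 ≤ (X : ℝ) ^ δ := by
  have h1 : ∀ᶠ X : ℕ in atTop, 1 + Real.log X ≤ (X : ℝ) ^ (δ / 4) := by
    have ha : ∀ᶠ x : ℝ in atTop, Real.log x ≤ 1 / 2 * x ^ (δ / 4) := by
      have h2 := (isLittleO_log_rpow_atTop (show 0 < δ / 4 by linarith)).def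
        (show (0 : ℝ) < 1 / 2 by norm_num)
      filter_upwards [h2, eventually_ge_atTop (1 : ℝ)] with x hx hx1
      rw [Real.norm_of_nonneg (Real.log_nonneg hx1), Real.norm_of_nonneg
        (Real.rpow_nonneg (by linarith) _)] at hx
      exact hx
    have hb : ∀ᶠ x : ℝ in atTop, (2 : ℝ) ≤ x ^ (δ / 4) :=
      (tendsto_rpow_atTop (show 0 < δ / 4 by linarith)).eventually_ge_atTop 2
    have hc : ∀ᶠ x : ℝ in atTop, 1 + Real.log x ≤ x ^ (δ / 4) := by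
      filter_upwards [ha, hb] with x h3 h4
      linarith
    exact tendsto_natCast_atTop_atTop.eventually hc
  have h2 : ∀ᶠ X : ℕ in atTop, |c| ≤ (X : ℝ) ^ (δ / 4) :=
    tendsto_natCast_atTop_atTop.eventually
      ((tendsto_rpow_atTop (show 0 < δ / 4 by linarith)).eventually_ge_atTop |c|)
  filter_upwards [h1, h2, eventually_ge_atTop 1] with X h3 h4 h5
  have hX : (1 : ℝ) ≤ X := by exact_mod_cast h5
  have hl : 0 ≤ 1 + Real.log X := by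
    have := Real.log_nonneg hX
    linarith
  have h6 : (X : ℝ) ^ δ = (X : ℝ) ^ (δ / 4) * ((X : ℝ) ^ (δ / 4)) ^ 3 := by
    rw [← pow_succ', ← Real.rpow_natCast, ← Real.rpow_mul (by linarith)]
    congr 1
    push_cast
    ring
  rw [h6]
  calc c * (1 + Real.log X) ^ 3 ≤ |c| * (1 + Real.log X) ^ 3 :=
        mul_le_mul_of_nonneg_right (le_abs_self c) (by positivity)
    _ ≤ (X : ℝ) ^ (δ / 4) * ((X : ℝ) ^ (δ / 4)) ^ 3 :=
        mul_le_mul h4 (pow_le_pow_left₀ hl h3 3) (by positivity) (by positivity)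

private theorem div_K (ε : ℝ) (hε : 0 < ε) : ∃ C₀ : ℝ, 1 ≤ C₀ ∧ ∀ X m : ℕ, 1 ≤ X → m ≠ 0 → m ≤ X →
    (#m.divisors : ℝ) ≤ C₀ * (X : ℝ) ^ ε := by
  obtain ⟨q, hq⟩ : ∃ q : ℕ, 1 / ε < q := exists_nat_gt _
  have hq0 : (0 : ℝ) < q := lt_trans (by positivity) hq
  have hqn : q ≠ 0 := by
    rintro rfl
    simp at hq0
  obtain ⟨C, hC1, hC⟩ := Pool.Agent.Helper10.divisor_bound q
  have hC1' : (1 : ℝ) ≤ C := by exact_mod_cast hC1
  refine ⟨C, hC1', fun X m hX hm hmX => ?_⟩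
  have h1 : ((#m.divisors : ℝ)) ^ q ≤ (C : ℝ) * X := by
    have h2 := hC m hm
    unfold Pool.Agent.Helper10.tau at h2
    have h3 : ((#m.divisors : ℝ)) ^ q ≤ (C : ℝ) * m := by exact_mod_cast h2
    refine h3.trans (mul_le_mul_of_nonneg_left ?_ (by linarith))
    exact_mod_cast hmX
  have hX1 : (1 : ℝ) ≤ X := by exact_mod_cast hX
  refine le_of_pow_le_pow_left₀ hqn (by positivity) (h1.trans ?_)
  rw [mul_pow, ← Real.rpow_natCast ((X : ℝ) ^ ε) q, ← Real.rpow_mul (by linarith)]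
  refine mul_le_mul (le_self_pow₀ hC1' hqn) ?_ (by linarith) (by positivity)
  conv_lhs => rw [← Real.rpow_one (X : ℝ)]
  refine Real.rpow_le_rpow_of_exponent_le hX1 ?_
  rw [div_lt_iff₀ hε] at hq
  linarith

private theorem card_aux (S : Finset ℕ) (v p : ℕ → ℝ) (M : ℝ) (hM : 0 < M) (hv : ∀ u, 0 ≤ v u)
    (hp : ∀ u, 0 ≤ p u) (h : ∀ u ∈ S, M / 2 ≤ v u + p u) :
    (#S : ℝ) ≤ 4 / M * ∑ u ∈ S, v u + (4 / M) ^ 2 * ∑ u ∈ S, p u ^ 2 := by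
  rw [Finset.mul_sum, Finset.mul_sum, ← Finset.sum_add_distrib]
  have h1 : (#S : ℝ) = ∑ u ∈ S, (1 : ℝ) := by simp
  rw [h1]
  refine Finset.sum_le_sum fun u hu => ?_
  have h2 := h u hu
  have h3 := hv u
  have h4 := hp u
  by_cases h5 : M / 4 ≤ v u
  · have h6 : 1 ≤ 4 / M * v u := by
      rw [div_mul_eq_mul_div, le_div_iff₀ hM]
      linarith
    have h7 : 0 ≤ (4 / M) ^ 2 * p u ^ 2 := by positivity
    linarith
  · have h5' : M / 4 ≤ p u := by linarith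
    have h6 : 1 ≤ 4 / M * p u := by
      rw [div_mul_eq_mul_div, le_div_iff₀ hM]
      linarith
    have h7 : 1 ≤ (4 / M) ^ 2 * p u ^ 2 := by
      rw [← mul_pow]
      exact one_le_pow₀ h6
    have h8 : 0 ≤ 4 / M * v u := by positivity
    linarith

/-- `X ^ (1/12) ≤ 4 E ^ 2` -/
private theorem EE_sq (X : ℕ) (hE : 1 ≤ EE X) : (X : ℝ) ^ ((1 : ℝ) / 12) ≤ 4 * (EE X : ℝ) ^ 2 := by
  have h1 : (X : ℝ) ≤ (2 * (EE X : ℝ)) ^ 24 := by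
    have h2 := lt_EE_pow X
    have h3 : (EE X + 1) ^ 24 ≤ (2 * EE X) ^ 24 := Nat.pow_le_pow_left (by omega) 24
    have h4 : X ≤ (2 * EE X) ^ 24 := by omega
    exact_mod_cast h4
  calc (X : ℝ) ^ ((1 : ℝ) / 12) ≤ ((2 * (EE X : ℝ)) ^ 24) ^ ((1 : ℝ) / 12) :=
        Real.rpow_le_rpow (by positivity) h1 (by norm_num)
    _ = (2 * (EE X : ℝ)) ^ 2 := by
        rw [← Real.rpow_natCast, ← Real.rpow_mul (by positivity)]
        rw [← Real.rpow_natCast (2 * (EE X : ℝ)) 2]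
        norm_num
    _ = 4 * (EE X : ℝ) ^ 2 := by ring

/-- `X ^ (1/24) ≤ 2 E` -/
private theorem EE_one (X : ℕ) (hE : 1 ≤ EE X) : (X : ℝ) ^ ((1 : ℝ) / 24) ≤ 2 * (EE X : ℝ) := by
  have h1 : (X : ℝ) ≤ (2 * (EE X : ℝ)) ^ 24 := by
    have h2 := lt_EE_pow X
    have h3 : (EE X + 1) ^ 24 ≤ (2 * EE X) ^ 24 := Nat.pow_le_pow_left (by omega) 24
    have h4 : X ≤ (2 * EE X) ^ 24 := by omega
    exact_mod_cast h4
  calc (X : ℝ) ^ ((1 : ℝ) / 24) ≤ ((2 * (EE X : ℝ)) ^ 24) ^ ((1 : ℝ) / 24) :=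
        Real.rpow_le_rpow (by positivity) h1 (by norm_num)
    _ = 2 * (EE X : ℝ) := by
        rw [← Real.rpow_natCast, ← Real.rpow_mul (by positivity)]
        norm_num

private theorem EE_ge (b : ℕ) : ∀ᶠ X : ℕ in atTop, b ≤ EE X := by
  filter_upwards [eventually_ge_atTop (b ^ 24)] with U hU
  by_contra hcon
  push Not at hcon
  have h1 := lt_EE_pow U
  have h2 : (EE U + 1) ^ 24 ≤ b ^ 24 := Nat.pow_le_pow_left hcon 24
  omega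

/-- the numerical part -/
private theorem numer {x e ℓ lg L B c₀ c₁ c₃ C₀ xh lz mx : ℝ} (hx : 0 < x) (he : 1 ≤ e) (hlg : 0 < lg)
    (hℓ : ℓ = 1 + lg) (hL : 0 < L) (hc₀ : 0 ≤ c₀) (hc₃ : 1 ≤ c₃) (hC₀ : 1 ≤ C₀)
    (hxh : 1 ≤ xh) (hlz : lz ≤ c₃ * ℓ) (hlz0 : 0 ≤ lz) (hmx : mx ≤ c₁ * x) (hmx0 : 0 ≤ mx) :
    4 / (e ^ 5 * L * (1 / (2 * lg))) * (e ^ 5 * (c₀ * x / e ^ 2)) +
      (4 / (e ^ 5 * L * (1 / (2 * lg)))) ^ 2 *
        (5 * mx * (B ^ 2 * (e ^ 5 * lz + (e ^ 5) ^ 2 * (C₀ * xh) / e ^ 2))) ≤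
      (8 * c₀ / L + 320 * c₁ * B ^ 2 * (c₃ + C₀) / L ^ 2) * ℓ ^ 3 * xh * (x / e ^ 2) := by
  have hℓ1 : 1 ≤ ℓ := by linarith
  have hlgℓ : lg ≤ ℓ := by linarith
  have he0 : 0 < e := by linarith
  have hlgℓ3 : lg ≤ ℓ ^ 3 * xh := by
    calc lg ≤ ℓ := hlgℓ
      _ ≤ ℓ ^ 3 := le_self_pow₀ hℓ1 (by norm_num)
      _ ≤ ℓ ^ 3 * xh := le_mul_of_one_le_right (by positivity) hxh
  have h1 : 4 / (e ^ 5 * L * (1 / (2 * lg))) * (e ^ 5 * (c₀ * x / e ^ 2)) =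
      8 * c₀ / L * lg * (x / e ^ 2) := by
    field_simp
    ring
  have h2 : (4 / (e ^ 5 * L * (1 / (2 * lg)))) ^ 2 *
        (5 * mx * (B ^ 2 * (e ^ 5 * lz + (e ^ 5) ^ 2 * (C₀ * xh) / e ^ 2))) =
      320 * B ^ 2 / L ^ 2 * (lg ^ 2 * (lz / e ^ 5 + C₀ * xh / e ^ 2)) * mx := by
    field_simp
    ring
  have h3 : lz / e ^ 5 ≤ c₃ * ℓ / e ^ 2 := by
    rw [div_le_div_iff₀ (by positivity) (by positivity)]
    refine mul_le_mul hlz (pow_le_pow_right₀ he (by norm_num)) (by positivity) (by positivity)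
  have h4 : lg ^ 2 * (lz / e ^ 5 + C₀ * xh / e ^ 2) ≤ (c₃ + C₀) * (ℓ ^ 3 * xh) / e ^ 2 := by
    calc lg ^ 2 * (lz / e ^ 5 + C₀ * xh / e ^ 2) ≤ ℓ ^ 2 * (c₃ * ℓ / e ^ 2 + C₀ * xh / e ^ 2) := by
          refine mul_le_mul (pow_le_pow_left₀ hlg.le hlgℓ 2) ?_ (by positivity) (by positivity)
          linarith
      _ = ℓ ^ 2 * (c₃ * ℓ + C₀ * xh) / e ^ 2 := by ring
      _ ≤ (c₃ + C₀) * (ℓ ^ 3 * xh) / e ^ 2 := by
          refine div_le_div_of_nonneg_right ?_ (by positivity)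
          have h5 : c₃ * ℓ ≤ c₃ * (ℓ * xh) := mul_le_mul_of_nonneg_left
            (le_mul_of_one_le_right (by linarith) hxh) (by linarith)
          have h6 : C₀ * xh ≤ C₀ * (ℓ * xh) := mul_le_mul_of_nonneg_left
            (le_mul_of_one_le_left (by linarith) hℓ1) (by linarith)
          calc ℓ ^ 2 * (c₃ * ℓ + C₀ * xh) ≤ ℓ ^ 2 * (c₃ * (ℓ * xh) + C₀ * (ℓ * xh)) :=
                mul_le_mul_of_nonneg_left (by linarith) (by positivity)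
            _ = (c₃ + C₀) * (ℓ ^ 3 * xh) := by ring
  rw [h1, h2]
  calc 8 * c₀ / L * lg * (x / e ^ 2) + 320 * B ^ 2 / L ^ 2 * (lg ^ 2 * (lz / e ^ 5 + C₀ * xh / e ^ 2)) * mx
      ≤ 8 * c₀ / L * (ℓ ^ 3 * xh) * (x / e ^ 2) +
        320 * B ^ 2 / L ^ 2 * ((c₃ + C₀) * (ℓ ^ 3 * xh) / e ^ 2) * (c₁ * x) := by
        refine add_le_add ?_ ?_
        · refine mul_le_mul_of_nonneg_right (mul_le_mul_of_nonneg_left hlgℓ3 (by positivity)) (by positivity)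
        · refine mul_le_mul ?_ hmx hmx0 (by positivity)
          exact mul_le_mul_of_nonneg_left h4 (by positivity)
    _ = (8 * c₀ / L + 320 * c₁ * B ^ 2 * (c₃ + C₀) / L ^ 2) * ℓ ^ 3 * xh * (x / e ^ 2) := by ring

open Classical in
theorem short {α β k₀ P w a : ℕ} {B L C : ℝ} (hD : Data α β k₀ P w a B L) (hC : 0 ≤ C)
    (hrate : ∀ y : ℕ, |Lam P y - L| ≤ C / ((y : ℝ) + 1)) {ε : ℝ} (hε : 0 < ε) :
    ∀ᶠ X : ℕ in atTop, ∀ U₁ U : ℕ, X ≤ U₁ → U₁ ≤ U → U ≤ 2 * X → EE X * (U - U₁) ≤ 2 * X →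
      (#((Ico U₁ U).filter (fun u => BadU α β P a u ∧ 1 / (2 * Real.log X) ≤
        HH P β ((α : ℤ) * ((a : ℤ) + (P : ℤ) * (u : ℤ))) (EE X ^ 2))) : ℝ) ≤
        (X : ℝ) ^ (11 / 12 + ε) := by
  have hB0 : 0 ≤ B := (abs_nonneg _).trans (hD.hB 0)
  have hL0 := hD.hL0
  have hα0 := hD.hα0
  have hP0 := hD.hP0
  have hβ0 := hD.hβ0
  obtain ⟨C₀, hC₀1, hC₀⟩ := div_K (ε / 2) (by linarith)
  obtain ⟨cF, hcF⟩ : ∃ cF : ℕ, cF = β * (k₀ + P) ^ 4 := ⟨_, rfl⟩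
  obtain ⟨c₀, hc₀⟩ : ∃ c₀ : ℝ, c₀ = 20 * α * P := ⟨_, rfl⟩
  obtain ⟨c₁, hc₁⟩ : ∃ c₁ : ℝ, c₁ = 8 * (α * (a + P)) := ⟨_, rfl⟩
  obtain ⟨c₃, hc₃⟩ : ∃ c₃ : ℝ, c₃ = 1 + Real.log c₁ := ⟨_, rfl⟩
  have hc₀0 : 0 ≤ c₀ := by rw [hc₀]; positivity
  have hαP : 1 ≤ α * (a + P) := Nat.mul_pos hα0 (by omega)
  have hc₁8 : 8 ≤ c₁ := by
    have h1 : (1 : ℝ) ≤ α * (a + P) := by exact_mod_cast hαP
    rw [hc₁]
    linarith
  have hc₃1 : 1 ≤ c₃ := by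
    have := Real.log_nonneg (show 1 ≤ c₁ by linarith)
    rw [hc₃]
    linarith
  obtain ⟨c, hc⟩ : ∃ c : ℝ, c = 8 * c₀ / L + 320 * c₁ * B ^ 2 * (c₃ + C₀) / L ^ 2 := ⟨_, rfl⟩
  have hc0 : 0 ≤ c := by rw [hc]; positivity
  filter_upwards [v_part a hα0 hP0, EE_ge cF, EE_ge 1, evlog (8 * (2 * B + C) / L) (1 / 24) (by norm_num),
    evlog (4 * c) (ε / 2) (by linarith), eventually_ge_atTop 2] with X hv hE1 hE2 hlog1 hlog2 hX2
  intro U₁ U hU₁ hU₁U hU hEU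
  obtain ⟨E, hE⟩ : ∃ E, E = EE X := ⟨_, rfl⟩
  rw [← hE] at hE1 hE2 hEU hv
  rw [← hE]
  have hEX : E ^ 24 ≤ X := by rw [hE]; exact EE_pow_le X
  have hEsq : (X : ℝ) ^ ((1 : ℝ) / 12) ≤ 4 * (E : ℝ) ^ 2 := by rw [hE]; exact EE_sq X (hE ▸ hE2)
  have hEon : (X : ℝ) ^ ((1 : ℝ) / 24) ≤ 2 * (E : ℝ) := by rw [hE]; exact EE_one X (hE ▸ hE2)
  have hx2 : (2 : ℝ) ≤ X := by exact_mod_cast hX2
  have he1 : (1 : ℝ) ≤ E := by exact_mod_cast hE2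
  have hlg : 0 < Real.log X := Real.log_pos (by linarith)
  obtain ⟨f, hf⟩ : ∃ f, f = F β k₀ P (E ^ 5) := ⟨_, rfl⟩
  have hfle : f ≤ cF * (E ^ 5) ^ 4 := by
    rw [hf, hcF]
    exact F_le (Nat.one_le_pow _ _ hE2)
  have hEf : E * f ≤ X := by
    calc E * f ≤ E * (cF * (E ^ 5) ^ 4) := Nat.mul_le_mul_left _ hfle
      _ ≤ E * (E * (E ^ 5) ^ 4) := Nat.mul_le_mul_left _ (Nat.mul_le_mul_right _ hE1)
      _ = E ^ 22 := by ring
      _ ≤ E ^ 24 := Nat.pow_le_pow_right hE2 (by norm_num)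
      _ ≤ X := hEX
  have hfX : f ≤ X := (Nat.le_mul_of_pos_left f hE2).trans hEf
  obtain ⟨hy1, hflt, hprod⟩ := hv U₁ U f hU₁ hU₁U hU hEU hEf
  obtain ⟨y, hy⟩ : ∃ y, y = Nat.sqrt (α * (a + P * U₁) - f) := ⟨_, rfl⟩
  obtain ⟨z, hz⟩ : ∃ z, z = zz α P a U := ⟨_, rfl⟩
  rw [← hy, ← hz] at hprod
  rw [← hy] at hy1
  have hyy : y ^ 2 ≤ α * (a + P * U₁) - f := by
    rw [hy, sq]
    exact Nat.sqrt_le _
  have hUX : X ≤ U := hU₁.trans hU₁U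
  have hzsq : α * (a + P * U) ≤ z ^ 2 := by rw [hz]; exact zz_sq α P a U
  have hzX : X ≤ z ^ 2 := by
    refine hUX.trans (le_trans ?_ hzsq)
    calc U ≤ P * U := Nat.le_mul_of_pos_left U hP0
      _ ≤ a + P * U := Nat.le_add_left _ _
      _ ≤ α * (a + P * U) := Nat.le_mul_of_pos_left _ hα0
  have hzE : E ^ 12 ≤ z := by
    have h1 : (E ^ 12) ^ 2 ≤ z ^ 2 := by
      calc (E ^ 12) ^ 2 = E ^ 24 := by ring
        _ ≤ X := hEX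
        _ ≤ z ^ 2 := hzX
    exact (Nat.pow_le_pow_iff_left (by norm_num)).1 h1
  have hD1 : 1 ≤ E ^ 2 := Nat.one_le_pow _ _ hE2
  have hDz : E ^ 2 ≤ z := (Nat.pow_le_pow_right hE2 (by norm_num)).trans hzE
  have hz1 : 1 ≤ z := hD1.trans hDz
  have hzle : z ^ 2 ≤ 8 * (α * (a + P)) * X := by
    have h1 := zz_le α P a (U := U) (by omega) hα0 hP0
    rw [← hz] at h1
    calc z ^ 2 ≤ 4 * (α * (a + P)) * U := h1
      _ ≤ 4 * (α * (a + P)) * (2 * X) := Nat.mul_le_mul_left _ hU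
      _ = 8 * (α * (a + P)) * X := by ring
  have hzleR : (z : ℝ) ^ 2 ≤ c₁ * X := by
    rw [hc₁]
    exact_mod_cast hzle
  obtain ⟨M, hM⟩ : ∃ M : ℝ, M = (E : ℝ) ^ 5 * L * (1 / (2 * Real.log X)) := ⟨_, rfl⟩
  have hM0 : 0 < M := by rw [hM]; positivity
  -- the error terms
  have herr : 2 * B * ((E ^ 2 : ℕ) : ℝ) ^ 2 + C * ((E ^ 5 : ℕ) : ℝ) * ((E ^ 2 : ℕ) : ℝ) ^ 3 / z ≤ M / 2 := by
    have hzE' : (E : ℝ) ^ 12 ≤ z := by exact_mod_cast hzE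
    have h1 : C * ((E ^ 5 : ℕ) : ℝ) * ((E ^ 2 : ℕ) : ℝ) ^ 3 / z ≤ C * (E : ℝ) ^ 4 := by
      rw [div_le_iff₀ (by exact_mod_cast hz1)]
      push_cast
      calc C * (E : ℝ) ^ 5 * ((E : ℝ) ^ 2) ^ 3 = C * (E : ℝ) ^ 11 := by ring
        _ ≤ C * ((E : ℝ) ^ 4 * z) := by
            refine mul_le_mul_of_nonneg_left ?_ hC
            calc (E : ℝ) ^ 11 ≤ (E : ℝ) ^ 16 := pow_le_pow_right₀ he1 (by norm_num)
              _ = (E : ℝ) ^ 4 * (E : ℝ) ^ 12 := by ring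
              _ ≤ (E : ℝ) ^ 4 * z := mul_le_mul_of_nonneg_left hzE' (by positivity)
        _ = C * (E : ℝ) ^ 4 * z := by ring
    have h2 : 8 * (2 * B + C) / L * Real.log X ≤ 2 * E := by
      refine le_trans ?_ (hlog1.trans hEon)
      refine mul_le_mul_of_nonneg_left ?_ (by positivity)
      calc Real.log X ≤ 1 + Real.log X := by linarith
        _ ≤ (1 + Real.log X) ^ 3 := le_self_pow₀ (by linarith) (by norm_num)
    have h3 : 4 * (2 * B + C) * Real.log X ≤ E * L := by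
      rw [div_mul_eq_mul_div, div_le_iff₀ hL0] at h2
      linarith
    have h4 : (2 * B + C) * (E : ℝ) ^ 4 ≤ M / 2 := by
      rw [hM]
      have h5 : (E : ℝ) ^ 5 * L * (1 / (2 * Real.log X)) / 2 = (E : ℝ) ^ 4 * (E * L) / (4 * Real.log X) := by
        field_simp
        ring
      rw [h5, le_div_iff₀ (by positivity)]
      calc (2 * B + C) * (E : ℝ) ^ 4 * (4 * Real.log X) = (E : ℝ) ^ 4 * (4 * (2 * B + C) * Real.log X) := by ring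
        _ ≤ (E : ℝ) ^ 4 * (E * L) := mul_le_mul_of_nonneg_left h3 (by positivity)
    have h6 : 2 * B * ((E ^ 2 : ℕ) : ℝ) ^ 2 = 2 * B * (E : ℝ) ^ 4 := by
      push_cast
      ring
    rw [h6]
    linarith
  obtain ⟨S, hS⟩ : ∃ S : Finset ℕ, S = (Ico U₁ U).filter (fun u => BadU α β P a u ∧ 1 / (2 * Real.log X) ≤
        HH P β ((α : ℤ) * ((a : ℤ) + (P : ℤ) * (u : ℤ))) (E ^ 2)) := ⟨_, rfl⟩
  rw [← hS]
  -- the basic inequality
  have hbasic : ∀ u ∈ S, M / 2 ≤ (V α β k₀ P a (E ^ 5) y z u : ℝ) +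
      ‖Piece α β k₀ P a (E ^ 5) z (E ^ 2) z u‖ := by
    intro u hu
    rw [hS, Finset.mem_filter, Finset.mem_Ico] at hu
    obtain ⟨⟨hu1, hu2⟩, hbad, hτ⟩ := hu
    have hmono : α * (a + P * U₁) ≤ α * (a + P * u) :=
      Nat.mul_le_mul_left _ (Nat.add_le_add_left (Nat.mul_le_mul_left _ hu1) _)
    have hFj : ∀ j < E ^ 5, F β k₀ P j ≤ f := by
      intro j hj
      rw [hf]
      exact (F_strictMono hβ0 hP0).monotone hj.le
    have hlt : ∀ j < E ^ 5, F β k₀ P j < α * (a + P * u) := fun j hj =>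
      lt_of_le_of_lt (hFj j hj) (lt_of_lt_of_le hflt hmono)
    have h1 := bad_HH (α := α) (β := β) (k₀ := k₀) (P := P) (a := a) (J := E ^ 5) (y := y) (z := z)
      (D := E ^ 2) (u := u) hD.hB hC hrate hD.hk hlt (fun j hj => hD.hcop u j hbad (hlt j hj))
      (fun j hj => by
        have h2 := hFj j hj
        omega)
      (le_trans (Nat.mul_le_mul_left _ (Nat.add_le_add_left (Nat.mul_le_mul_left _ hu2.le) _)) hzsq)
      hbad hD1 hDz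
    have h2 : M ≤ ((E ^ 5 : ℕ) : ℝ) * L * HH P β ((α : ℤ) * ((a : ℤ) + (P : ℤ) * (u : ℤ))) (E ^ 2) := by
      rw [hM]
      push_cast
      exact mul_le_mul_of_nonneg_left hτ (by positivity)
    linarith
  have hcard := card_aux S (fun u => (V α β k₀ P a (E ^ 5) y z u : ℝ))
    (fun u => ‖Piece α β k₀ P a (E ^ 5) z (E ^ 2) z u‖) M hM0 (fun u => Nat.cast_nonneg _)
    (fun u => norm_nonneg _) hbasic
  have hSsub1 : S ⊆ Ico U₁ U := by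
    rw [hS]
    exact Finset.filter_subset _ _
  have hSsub2 : S ⊆ range (2 * X) := by
    intro u hu
    have h1 := Finset.mem_Ico.1 (hSsub1 hu)
    rw [Finset.mem_range]
    omega
  have hV : ∑ u ∈ S, (V α β k₀ P a (E ^ 5) y z u : ℝ) ≤ (E : ℝ) ^ 5 * (c₀ * X / (E : ℝ) ^ 2) := by
    calc ∑ u ∈ S, (V α β k₀ P a (E ^ 5) y z u : ℝ) ≤ ∑ u ∈ Ico U₁ U, (V α β k₀ P a (E ^ 5) y z u : ℝ) :=
          Finset.sum_le_sum_of_subset_of_nonneg hSsub1 fun u _ _ => Nat.cast_nonneg _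
      _ = ((∑ u ∈ Ico U₁ U, V α β k₀ P a (E ^ 5) y z u : ℕ) : ℝ) := by push_cast; rfl
      _ ≤ ((E ^ 5 * ((z + 1 - y) * ((U - U₁) / y + 1)) : ℕ) : ℝ) := by
          exact_mod_cast V_sum_le hD.hα hy1
      _ = (E : ℝ) ^ 5 * (((z + 1 - y : ℕ) : ℝ) * (((U - U₁) / y + 1 : ℕ) : ℝ)) := by
          rw [Nat.cast_mul, Nat.cast_mul, Nat.cast_pow]
      _ ≤ (E : ℝ) ^ 5 * (c₀ * X / (E : ℝ) ^ 2) := by
          rw [hc₀]
          exact mul_le_mul_of_nonneg_left hprod (by positivity)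
  obtain ⟨xh, hxh⟩ : ∃ xh : ℝ, xh = (X : ℝ) ^ (ε / 2) := ⟨_, rfl⟩
  have hxh1 : 1 ≤ xh := by
    rw [hxh]
    exact Real.one_le_rpow (by linarith) (by linarith)
  have hPc : ∑ u ∈ S, ‖Piece α β k₀ P a (E ^ 5) z (E ^ 2) z u‖ ^ 2 ≤
      5 * ((max (2 * X) (z ^ 2) : ℕ) : ℝ) * (B ^ 2 * ((E : ℝ) ^ 5 * (1 + Real.log z) +
        ((E : ℝ) ^ 5) ^ 2 * (C₀ * xh) / (E : ℝ) ^ 2)) := by
    have h1 := second (α := α) (β := β) (k₀ := k₀) (P := P) (a := a) (J := E ^ 5) (z := z) (D := E ^ 2)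
      (U := 2 * X) (B := B) (K := C₀ * xh) hD.hB hD.hα hβ0 hP0 hD1 hz1 (by positivity) (by
        intro m hm hmf
        rw [hxh]
        exact hC₀ X m (by omega) hm (by rw [← hf] at hmf; exact hmf.trans hfX))
    rw [Nat.cast_pow E 5, Nat.cast_pow E 2] at h1
    exact (Finset.sum_le_sum_of_subset_of_nonneg hSsub2 fun u _ _ => by positivity).trans h1
  have hmax : ((max (2 * X) (z ^ 2) : ℕ) : ℝ) ≤ c₁ * X := by
    rw [Nat.cast_max, max_le_iff]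
    refine ⟨?_, by push_cast; exact hzleR⟩
    push_cast
    nlinarith
  have hlz : 1 + Real.log z ≤ c₃ * (1 + Real.log X) := by
    have hzR : (1 : ℝ) ≤ z := by exact_mod_cast hz1
    have h1 : Real.log ((z : ℝ) ^ 2) ≤ Real.log (c₁ * X) := Real.log_le_log (by positivity) hzleR
    rw [Real.log_pow, Real.log_mul (by linarith) (by linarith)] at h1
    have h2 := Real.log_nonneg (show 1 ≤ c₁ by linarith)
    have h3 := Real.log_nonneg hzR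
    have h4 : 0 ≤ Real.log c₁ * Real.log X := by positivity
    rw [hc₃]
    push_cast at h1
    nlinarith
  have hlz0 : 0 ≤ 1 + Real.log z := by
    have hzR : (1 : ℝ) ≤ z := by exact_mod_cast hz1
    have h3 := Real.log_nonneg hzR
    linarith
  have hnum := numer (x := X) (e := E) (ℓ := 1 + Real.log X) (lg := Real.log X) (L := L) (B := B) (c₀ := c₀)
    (c₁ := c₁) (c₃ := c₃) (C₀ := C₀) (xh := xh) (lz := 1 + Real.log z)
    (mx := ((max (2 * X) (z ^ 2) : ℕ) : ℝ)) (by linarith) he1 hlg rfl hL0 hc₀0 hc₃1 hC₀1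
    hxh1 hlz hlz0 hmax (Nat.cast_nonneg _)
  rw [← hc, ← hM] at hnum
  have hxe : (X : ℝ) / (E : ℝ) ^ 2 ≤ 4 * (X : ℝ) ^ ((11 : ℝ) / 12) := by
    rw [div_le_iff₀ (by positivity)]
    have h1 : (X : ℝ) = (X : ℝ) ^ ((11 : ℝ) / 12) * (X : ℝ) ^ ((1 : ℝ) / 12) := by
      rw [← Real.rpow_add (by linarith)]
      norm_num
    have h2 : (0 : ℝ) ≤ (X : ℝ) ^ ((11 : ℝ) / 12) := Real.rpow_nonneg (by linarith) _
    calc (X : ℝ) = (X : ℝ) ^ ((11 : ℝ) / 12) * (X : ℝ) ^ ((1 : ℝ) / 12) := h1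
      _ ≤ (X : ℝ) ^ ((11 : ℝ) / 12) * (4 * (E : ℝ) ^ 2) := mul_le_mul_of_nonneg_left hEsq h2
      _ = 4 * (X : ℝ) ^ ((11 : ℝ) / 12) * (E : ℝ) ^ 2 := by ring
  calc (#S : ℝ) ≤ 4 / M * ∑ u ∈ S, (V α β k₀ P a (E ^ 5) y z u : ℝ) +
        (4 / M) ^ 2 * ∑ u ∈ S, ‖Piece α β k₀ P a (E ^ 5) z (E ^ 2) z u‖ ^ 2 := hcard
    _ ≤ 4 / M * ((E : ℝ) ^ 5 * (c₀ * X / (E : ℝ) ^ 2)) + (4 / M) ^ 2 *
        (5 * ((max (2 * X) (z ^ 2) : ℕ) : ℝ) * (B ^ 2 * ((E : ℝ) ^ 5 * (1 + Real.log z) +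
        ((E : ℝ) ^ 5) ^ 2 * (C₀ * xh) / (E : ℝ) ^ 2))) := by
        refine add_le_add (mul_le_mul_of_nonneg_left hV (by positivity))
          (mul_le_mul_of_nonneg_left hPc (by positivity))
    _ ≤ c * (1 + Real.log X) ^ 3 * xh * (X / (E : ℝ) ^ 2) := hnum
    _ ≤ c * (1 + Real.log X) ^ 3 * xh * (4 * (X : ℝ) ^ ((11 : ℝ) / 12)) := by
        refine mul_le_mul_of_nonneg_left hxe (by positivity)
    _ = (4 * c * (1 + Real.log X) ^ 3) * xh * (X : ℝ) ^ ((11 : ℝ) / 12) := by ring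
    _ ≤ (X : ℝ) ^ (ε / 2) * xh * (X : ℝ) ^ ((11 : ℝ) / 12) := by
        refine mul_le_mul_of_nonneg_right ?_ (by positivity)
        exact mul_le_mul_of_nonneg_right hlog2 (by linarith)
    _ = (X : ℝ) ^ (11 / 12 + ε) := by
        rw [hxh, ← Real.rpow_add (by linarith), ← Real.rpow_add (by linarith)]
        congr 1
        ring

end Pool.Agent.Helper56.PX
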