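import Mathlib
import Pool.Agent.Helper56.PX.Short
import Pool.Agent.Helper56.PX.Model

/-!
PX-26 Dyadic. The number of bad `u` in a residue class.

PROOF. `dyadic`: `E = EE X → ∞`. `model` (with `ε/2`) for `N = 3 P X` (`P = PP 100`), `D = E²`: `D^12 = E^24 ≤ X ≤ N`, and
`N ≤ 3 P (2E)^24 ≤ E^40 = D^20` for large `X` (`X < (E+1)^24 ≤ (2E)^24`). For `u < 2X` the number `n = a + P u` is `< N` for
`X > a` (`P ≥ 1`), `u ↦ n` is injective, so at most `N^(23/24+ε/2)` of the `u ∈ [X, 2X)` have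
`HH ... D < 1/log N`; and `1/log N ≥ 1/(2 log X)` if `N ≤ X²`. The other bad `u` are covered by the `E` intervals
`[X + i s, min (2X) (X + (i+1) s))`, `i < E`, `s = ⌈X/E⌉ ≤ X/E + 1` (`E s ≤ X + E ≤ 2X`, `E s ≥ X`), `short` (with `ε/2`):
`≤ E X^(11/12+ε/2) ≤ X^(23/24+ε/2)` (`E ≤ X^(1/24)`). The sum of the two is `≤ X^(23/24+ε)` for large `X`.
(`badCount` is defined with the classical decidability instance; use `convert` or `Finset.filter_congr_decidable` if needed.)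
`class_power`: let `X₀` be the bound of `dyadic` and `θ = 23/24 + ε`, `θ > 0`. `badCount 0 U ≤ C₀ + C₁ U^θ` by strong induction on
`U`: for `U ≤ 2 X₀ + 2` it is `≤ U ≤ C₀` (`badCount_le`); else with `X = U - U/2 = ⌈U/2⌉`:
`badCount 0 U ≤ badCount 0 X + badCount X (2X)` (`badCount_split`, `badCount` monotone in the last argument,
`U ≤ 2X`) `≤ C₀ + C₁ X^θ + X^θ`, and `X ≤ (2/3) U`, so it suffices that `(C₁ + 1)(2/3)^θ ≤ C₁`, e.g.
`C₁ = (2/3)^θ / (1 - (2/3)^θ)`. Then `C = C₀ + C₁`.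
-/

set_option autoImplicit false

namespace Pool.Agent.Helper56.PX

open Finset Filter Pool.Agent.Helper11.Sq

private theorem EE_tendsto : Tendsto EE atTop atTop := by
  rw [tendsto_atTop]
  intro M
  filter_upwards [eventually_ge_atTop ((M + 1) ^ 24)] with X hX
  by_contra hcon
  push Not at hcon
  have h1 := lt_EE_pow X
  have h2 : (EE X + 1) ^ 24 ≤ (M + 1) ^ 24 := Nat.pow_le_pow_left (by omega) 24
  omega

open Classical in
private theorem cover {X E s : ℕ} (hs : X ≤ E * s) (Q : ℕ → Prop) :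
    #((Ico X (2 * X)).filter Q) ≤
      ∑ i ∈ range E, #((Ico (min (2 * X) (X + i * s)) (min (2 * X) (X + (i + 1) * s))).filter Q) := by
  have hsub : (Ico X (2 * X)).filter Q ⊆ (range E).biUnion (fun i =>
      (Ico (min (2 * X) (X + i * s)) (min (2 * X) (X + (i + 1) * s))).filter Q) := by
    intro u hu
    rw [mem_filter, mem_Ico] at hu
    obtain ⟨⟨h1, h2⟩, h3⟩ := hu
    have hspos : 0 < s := by
      rcases Nat.eq_zero_or_pos s with h | h
      · subst h; omega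
      · exact h
    rw [mem_biUnion]
    refine ⟨(u - X) / s, ?_, ?_⟩
    · rw [mem_range, Nat.div_lt_iff_lt_mul hspos]
      omega
    · rw [mem_filter, mem_Ico]
      have h4 : (u - X) / s * s ≤ u - X := Nat.div_mul_le_self _ _
      have h5 : u - X < ((u - X) / s + 1) * s := by
        rw [mul_comm]; exact Nat.lt_mul_div_succ _ hspos
      refine ⟨⟨?_, ?_⟩, h3⟩
      · exact (min_le_right _ _).trans (by omega)
      · rw [lt_min_iff]
        omega
  exact (card_le_card hsub).trans card_biUnion_le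

open Classical in
private theorem first_set {α β P a X : ℕ} {D : ℕ} (hP0 : 0 < P) (hX : 3 * P + a + 2 ≤ X) :
    #((Ico X (2 * X)).filter (fun u : ℕ => HH P β ((α : ℤ) * ((a : ℤ) + (P : ℤ) * (u : ℤ))) D
      < 1 / (2 * Real.log X))) ≤ #((range (3 * P * X)).filter (fun n : ℕ =>
        HH P β ((α : ℤ) * (n : ℤ)) D < 1 / Real.log ((3 * P * X : ℕ) : ℝ))) := by
  have hX2 : (2 : ℝ) ≤ (X : ℝ) := by
    have : 2 ≤ X := by omega
    exact_mod_cast this
  have hP1 : (1 : ℝ) ≤ (P : ℝ) := by exact_mod_cast hP0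
  have hPX : (3 * P : ℝ) ≤ (X : ℝ) := by
    have : 3 * P ≤ X := by omega
    exact_mod_cast this
  have hlog : 1 / (2 * Real.log X) ≤ 1 / Real.log ((3 * P * X : ℕ) : ℝ) := by
    push_cast
    have f1 : (1 : ℝ) < (3 * P * X : ℝ) := by nlinarith
    have f2 : Real.log (3 * P * X : ℝ) ≤ 2 * Real.log X := by
      have e : (2 : ℝ) * Real.log X = Real.log ((X : ℝ) ^ 2) := by
        rw [Real.log_pow]; norm_num
      rw [e]
      apply Real.log_le_log (by linarith)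
      nlinarith
    exact one_div_le_one_div_of_le (Real.log_pos f1) f2
  have hlt : ∀ u : ℕ, u < 2 * X → a + P * u < 3 * P * X := by
    intro u u2
    have f1 : P * u ≤ P * (2 * X) := Nat.mul_le_mul_left _ u2.le
    have f2 : X ≤ P * X := Nat.le_mul_of_pos_left X hP0
    have f3 : 3 * P * X = P * (2 * X) + P * X := by ring
    rw [f3]
    omega
  apply card_le_card_of_injOn (fun u => a + P * u)
  · intro u hu
    simp only [coe_filter, Set.mem_setOf_eq, mem_Ico, mem_range] at hu ⊢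
    obtain ⟨⟨u1, u2⟩, u3⟩ := hu
    refine ⟨hlt u u2, ?_⟩
    have e : (((a + P * u : ℕ) : ℤ)) = (a : ℤ) + (P : ℤ) * (u : ℤ) := by push_cast; ring
    rw [e]
    exact lt_of_lt_of_le u3 hlog
  · intro u _ v _ huv
    simp only at huv
    have : P * u = P * v := Nat.add_left_cancel huv
    exact Nat.eq_of_mul_eq_mul_left hP0 this

open Classical in
private theorem second_set {X E : ℕ} {δ : ℝ} (Q : ℕ → Prop) (hE1 : 1 ≤ E) (hX1 : 1 ≤ X) (hEX : E ^ 24 ≤ X)
    (h : ∀ U₁ U : ℕ, X ≤ U₁ → U₁ ≤ U → U ≤ 2 * X → E * (U - U₁) ≤ 2 * X →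
      (#((Ico U₁ U).filter Q) : ℝ) ≤ (X : ℝ) ^ (11 / 12 + δ)) :
    (#((Ico X (2 * X)).filter Q) : ℝ) ≤ (X : ℝ) ^ (23 / 24 + δ) := by
  have hX0' : (0 : ℝ) < (X : ℝ) := by exact_mod_cast hX1
  have hEX1 : E ≤ X := (Nat.le_self_pow (by norm_num) E).trans hEX
  have e4 : (E : ℝ) ≤ (X : ℝ) ^ ((1 : ℝ) / 24) := by
    have f1 : ((E : ℝ) ^ 24) ≤ X := by exact_mod_cast hEX
    have f2 : (E : ℝ) = ((E : ℝ) ^ 24) ^ ((1 : ℝ) / 24) := by
      rw [← Real.rpow_natCast, ← Real.rpow_mul (by positivity)]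
      norm_num
    rw [f2]
    exact Real.rpow_le_rpow (by positivity) f1 (by norm_num)
  clear hEX
  obtain ⟨s, hs⟩ : ∃ s, s = X / E + 1 := ⟨_, rfl⟩
  have hs1 : X ≤ E * s := by
    have := Nat.lt_mul_div_succ X (show 0 < E from hE1)
    rw [hs]
    exact this.le
  have hs2 : E * s ≤ 2 * X := by
    have e1 : E * (X / E) ≤ X := Nat.mul_div_le X E
    rw [hs, mul_add, mul_one]
    omega
  have e1 := cover hs1 Q
  have e2 : ∀ i ∈ range E, (#((Ico (min (2 * X) (X + i * s)) (min (2 * X) (X + (i + 1) * s))).filter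
      Q) : ℝ) ≤ (X : ℝ) ^ (11 / 12 + δ) := by
    intro i _
    have g0 : (i + 1) * s = i * s + s := by ring
    refine h _ _ (le_min (by omega) (by omega)) (min_le_min le_rfl (by rw [g0]; omega))
      (min_le_left _ _) ?_
    refine le_trans (Nat.mul_le_mul_left _ (?_ : _ ≤ s)) hs2
    rw [g0]
    omega
  have e3 : (#((Ico X (2 * X)).filter Q) : ℝ) ≤ (E : ℝ) * (X : ℝ) ^ (11 / 12 + δ) := by
    calc (#((Ico X (2 * X)).filter Q) : ℝ)
        ≤ ((∑ i ∈ range E, #((Ico (min (2 * X) (X + i * s)) (min (2 * X) (X + (i + 1) * s))).filter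
          Q) : ℕ) : ℝ) := by exact_mod_cast e1
      _ ≤ ∑ i ∈ range E, (X : ℝ) ^ (11 / 12 + δ) := by
          push_cast
          exact sum_le_sum e2
      _ = _ := by rw [sum_const, card_range, nsmul_eq_mul]
  calc _ ≤ (E : ℝ) * (X : ℝ) ^ (11 / 12 + δ) := e3
    _ ≤ (X : ℝ) ^ ((1 : ℝ) / 24) * (X : ℝ) ^ (11 / 12 + δ) :=
        mul_le_mul_of_nonneg_right e4 (by positivity)
    _ = (X : ℝ) ^ (23 / 24 + δ) := by
        rw [← Real.rpow_add hX0']
        congr 1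
        ring

private theorem pow_bounds {P X E : ℕ} (hP0 : 0 < P) (h4 : 3 * P * 2 ^ 24 + 1 ≤ E)
    (hEX : E ^ 24 ≤ X) (hXE : X < (E + 1) ^ 24) :
    (E ^ 2) ^ 12 ≤ 3 * P * X ∧ 3 * P * X ≤ (E ^ 2) ^ 20 := by
  have hE1 : 1 ≤ E := (Nat.le_add_left 1 _).trans h4
  constructor
  · rw [← pow_mul]
    exact hEX.trans (Nat.le_mul_of_pos_left X (Nat.mul_pos (by norm_num) hP0))
  · rw [← pow_mul]
    have e0 : E + 1 ≤ 2 * E := by rw [two_mul]; exact Nat.add_le_add_left hE1 E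
    have e1 : (E + 1) ^ 24 ≤ (2 * E) ^ 24 := Nat.pow_le_pow_left e0 24
    have e2 : 3 * P * X ≤ 3 * P * (2 * E) ^ 24 := Nat.mul_le_mul_left _ (hXE.le.trans e1)
    have e4 : 3 * P * 2 ^ 24 ≤ E ^ 16 :=
      ((Nat.le_succ _).trans h4).trans (Nat.le_self_pow (by norm_num) _)
    calc 3 * P * X ≤ 3 * P * (2 * E) ^ 24 := e2
      _ = (3 * P * 2 ^ 24) * E ^ 24 := by rw [mul_pow, mul_assoc (3 * P)]
      _ ≤ E ^ 16 * E ^ 24 := Nat.mul_le_mul_right _ e4
      _ = E ^ (2 * 20) := by rw [← pow_add]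

private theorem dyadic_aux {α β k₀ P a : ℕ} {B L C : ℝ}
    (hD : Data α β k₀ P 100 a B L) (hC : 0 ≤ C)
    (hrate : ∀ y : ℕ, |Lam P y - L| ≤ C / ((y : ℝ) + 1)) {ε : ℝ} (hε : 0 < ε)
    (hmodel : ∀ᶠ N : ℕ in atTop, ∀ D : ℕ, D ^ 12 ≤ N → N ≤ D ^ 20 →
      (#((range N).filter (fun n : ℕ => HH P β ((α : ℤ) * (n : ℤ)) D <
        1 / Real.log N)) : ℝ) ≤ (N : ℝ) ^ (23 / 24 + ε / 2)) :
    ∀ᶠ X : ℕ in atTop, (badCount α β P a X (2 * X) : ℝ) ≤ (X : ℝ) ^ (23 / 24 + ε) := by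
  classical
  have hP0 : 0 < P := hD.hP0
  have hε2 : (0 : ℝ) < ε / 2 := by linarith
  have hN : Tendsto (fun X : ℕ => 3 * P * X) atTop atTop :=
    tendsto_atTop_mono (fun X => Nat.le_mul_of_pos_left X (Nat.mul_pos (by norm_num) hP0)) tendsto_id
  have hmod := hN.eventually hmodel
  have hsh := short hD hC hrate hε2
  have hbig : ∀ᶠ X : ℕ in atTop, (3 * P : ℝ) ^ (23 / 24 + ε / 2) + 1 ≤ (X : ℝ) ^ (ε / 2) :=
    ((tendsto_rpow_atTop hε2).comp tendsto_natCast_atTop_atTop).eventually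
      (eventually_ge_atTop _)
  filter_upwards [hmod, hsh, hbig, EE_tendsto.eventually_ge_atTop (3 * P * 2 ^ 24 + 1),
    eventually_ge_atTop (3 * P + a + 2)] with X h1 h2 h3 h4 h5
  have hE1 : 1 ≤ EE X := (Nat.le_add_left 1 _).trans h4
  have hX1 : 1 ≤ X := (Nat.le_add_left 1 _).trans h5
  obtain ⟨hD1, hD2⟩ := pow_bounds hP0 h4 (EE_pow_le X) (lt_EE_pow X)
  have h6 := h1 (EE X ^ 2) hD1 hD2
  have hX0 : (0 : ℝ) ≤ (X : ℝ) := Nat.cast_nonneg X
  have hX0' : (0 : ℝ) < (X : ℝ) := by exact_mod_cast hX1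
  have hS1 : (#((Ico X (2 * X)).filter (fun u : ℕ => HH P β ((α : ℤ) * ((a : ℤ) + (P : ℤ) * (u : ℤ))) (EE X ^ 2)
      < 1 / (2 * Real.log X))) : ℝ) ≤ (3 * P : ℝ) ^ (23 / 24 + ε / 2) * (X : ℝ) ^ (23 / 24 + ε / 2) := by
    have e1 := first_set (α := α) (β := β) (D := EE X ^ 2) hP0 h5
    have e2 : ((3 * P * X : ℕ) : ℝ) ^ (23 / 24 + ε / 2) =
        (3 * P : ℝ) ^ (23 / 24 + ε / 2) * (X : ℝ) ^ (23 / 24 + ε / 2) := by
      push_cast
      rw [Real.mul_rpow (by positivity) hX0]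
    rw [← e2]
    refine le_trans ?_ h6
    have e3 : (#((Ico X (2 * X)).filter (fun u : ℕ => HH P β ((α : ℤ) * ((a : ℤ) + (P : ℤ) * (u : ℤ))) (EE X ^ 2)
      < 1 / (2 * Real.log X))) : ℝ) ≤ (#((range (3 * P * X)).filter (fun n : ℕ =>
        HH P β ((α : ℤ) * (n : ℤ)) (EE X ^ 2) < 1 / Real.log ((3 * P * X : ℕ) : ℝ))) : ℝ) :=
      Nat.cast_le.mpr (by convert e1)
    exact e3
  have hS2 : (#((Ico X (2 * X)).filter (fun u : ℕ => BadU α β P a u ∧ 1 / (2 * Real.log X) ≤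
      HH P β ((α : ℤ) * ((a : ℤ) + (P : ℤ) * (u : ℤ))) (EE X ^ 2))) : ℝ) ≤
        (X : ℝ) ^ (23 / 24 + ε / 2) := by
    have := second_set (δ := ε / 2) (fun u : ℕ => BadU α β P a u ∧ 1 / (2 * Real.log X) ≤
      HH P β ((α : ℤ) * ((a : ℤ) + (P : ℤ) * (u : ℤ))) (EE X ^ 2)) hE1 hX1 (EE_pow_le X)
      (fun U₁ U a1 a2 a3 a4 => by
        have := h2 U₁ U a1 a2 a3 a4
        convert this using 3
        ext u
        simp only [mem_filter])
    convert this using 3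
    ext u
    simp only [mem_filter]
  have hsum : (badCount α β P a X (2 * X) : ℝ) ≤
      (3 * P : ℝ) ^ (23 / 24 + ε / 2) * (X : ℝ) ^ (23 / 24 + ε / 2) + (X : ℝ) ^ (23 / 24 + ε / 2) := by
    refine le_trans ?_ (add_le_add hS1 hS2)
    have e1 : badCount α β P a X (2 * X) ≤
        #((Ico X (2 * X)).filter (fun u : ℕ => HH P β ((α : ℤ) * ((a : ℤ) + (P : ℤ) * (u : ℤ))) (EE X ^ 2)
          < 1 / (2 * Real.log X))) +
        #((Ico X (2 * X)).filter (fun u : ℕ => BadU α β P a u ∧ 1 / (2 * Real.log X) ≤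
          HH P β ((α : ℤ) * ((a : ℤ) + (P : ℤ) * (u : ℤ))) (EE X ^ 2))) := by
      unfold badCount
      refine le_trans (card_le_card ?_) (card_union_le _ _)
      intro u hu
      rw [mem_filter] at hu
      rw [mem_union, mem_filter, mem_filter]
      rcases lt_or_ge (HH P β ((α : ℤ) * ((a : ℤ) + (P : ℤ) * (u : ℤ))) (EE X ^ 2))
        (1 / (2 * Real.log X)) with h | h
      · exact Or.inl ⟨hu.1, h⟩
      · exact Or.inr ⟨hu.1, hu.2, h⟩
    have e2 : (badCount α β P a X (2 * X) : ℝ) ≤ ((_ : ℕ) : ℝ) := Nat.cast_le.mpr e1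
    rw [Nat.cast_add] at e2
    exact e2
  calc (badCount α β P a X (2 * X) : ℝ)
      ≤ ((3 * P : ℝ) ^ (23 / 24 + ε / 2) + 1) * (X : ℝ) ^ (23 / 24 + ε / 2) := by
        rw [add_mul, one_mul]; exact hsum
    _ ≤ (X : ℝ) ^ (ε / 2) * (X : ℝ) ^ (23 / 24 + ε / 2) :=
        mul_le_mul_of_nonneg_right h3 (by positivity)
    _ = (X : ℝ) ^ (23 / 24 + ε) := by
        rw [← Real.rpow_add hX0']
        congr 1
        ring

theorem dyadic {α β k₀ a : ℕ} {B L C : ℝ} (hα : 0 < α)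
    (hαβ : ∀ p : ℕ, p.Prime → 100 < p → ¬ p ∣ α ∧ ¬ p ∣ β)
    (hD : Data α β k₀ (PP 100) 100 a B L) (hC : 0 ≤ C)
    (hrate : ∀ y : ℕ, |Lam (PP 100) y - L| ≤ C / ((y : ℝ) + 1)) {ε : ℝ} (hε : 0 < ε) :
    ∀ᶠ X : ℕ in atTop, (badCount α β (PP 100) a X (2 * X) : ℝ) ≤ (X : ℝ) ^ (23 / 24 + ε) :=
  dyadic_aux hD hC hrate hε (model hα hαβ (by linarith))

theorem class_power {α β P a : ℕ} {θ : ℝ} (hθ : 0 < θ)
    (h : ∀ᶠ X : ℕ in atTop, (badCount α β P a X (2 * X) : ℝ) ≤ (X : ℝ) ^ θ) :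
    ∃ C : ℝ, 0 ≤ C ∧ ∀ U : ℕ, (badCount α β P a 0 U : ℝ) ≤ C * ((U : ℝ) ^ θ + 1) := by
  classical
  obtain ⟨X₀, hX₀⟩ := eventually_atTop.mp h
  set r : ℝ := (2 / 3 : ℝ) ^ θ with hr
  have hr0 : 0 < r := Real.rpow_pos_of_pos (by norm_num) _
  have hr1 : r < 1 := Real.rpow_lt_one (by norm_num) (by norm_num) hθ
  set C₁ : ℝ := r / (1 - r) with hC₁
  have h1r : 0 < 1 - r := by linarith
  have hC₁0 : 0 ≤ C₁ := by positivity
  have hC₁r : (C₁ + 1) * r = C₁ := by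
    rw [hC₁]
    field_simp
    ring
  set C₀ : ℝ := 2 * X₀ + 2 with hC₀
  have hC₀0 : 0 ≤ C₀ := by positivity
  have key : ∀ U : ℕ, (badCount α β P a 0 U : ℝ) ≤ C₀ + C₁ * (U : ℝ) ^ θ := by
    intro U
    induction U using Nat.strong_induction_on with
    | _ U ih =>
      rcases le_or_gt U (2 * X₀ + 2) with hU | hU
      · have e1 : (badCount α β P a 0 U : ℝ) ≤ (U : ℝ) := by exact_mod_cast badCount_le α β P a U
        have e2 : (U : ℝ) ≤ C₀ := by rw [hC₀]; exact_mod_cast hU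
        have e3 : 0 ≤ C₁ * (U : ℝ) ^ θ := by positivity
        linarith
      · set X := U - U / 2 with hX
        have hXU : X < U := by omega
        have hUX : U ≤ 2 * X := by omega
        have hXX₀ : X₀ ≤ X := by omega
        have hX3 : 3 * X ≤ 2 * U := by omega
        have e1 := badCount_split α β P a hXU.le
        have e2 : badCount α β P a X U ≤ badCount α β P a X (2 * X) := by
          unfold badCount
          apply card_le_card
          apply filter_subset_filter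
          exact Ico_subset_Ico le_rfl hUX
        have e3 : (badCount α β P a 0 U : ℝ) ≤ badCount α β P a 0 X + badCount α β P a X (2 * X) := by
          exact_mod_cast e1.trans (Nat.add_le_add_left e2 _)
        have e4 := ih X hXU
        have e5 := hX₀ X hXX₀
        have e6 : (X : ℝ) ^ θ ≤ r * (U : ℝ) ^ θ := by
          rw [hr, ← Real.mul_rpow (by norm_num) (by positivity)]
          apply Real.rpow_le_rpow (by positivity) _ hθ.le
          have : (3 : ℝ) * X ≤ 2 * U := by exact_mod_cast hX3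
          linarith
        have e7 : (C₁ + 1) * (X : ℝ) ^ θ ≤ C₁ * (U : ℝ) ^ θ := by
          calc (C₁ + 1) * (X : ℝ) ^ θ ≤ (C₁ + 1) * (r * (U : ℝ) ^ θ) :=
                mul_le_mul_of_nonneg_left e6 (by positivity)
            _ = C₁ * (U : ℝ) ^ θ := by rw [← mul_assoc, hC₁r]
        linarith
  refine ⟨C₀ + C₁, by positivity, fun U => (key U).trans ?_⟩
  have h1 : 0 ≤ C₀ * (U : ℝ) ^ θ := by positivity
  nlinarith

end Pool.Agent.Helper56.PX
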