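import Mathlib
import Pool.Agent.Helper56.PX.Defs

/-!
PX-01 Rate. Rate of convergence of `Lam P y = ∑_{d ≤ y, (d, P) = 1} χ(d) / d`.

PROOF. Case `s = ∅`: `Lam_one_eq` (file Helper11/Sq/Harm): `Lam 1 y = G y + S y / (y + 1)`, `0 ≤ S y ≤ 8`,
`G` is monotone, so `G y ≤ L0` (limit of `G`: `G y = Lam 1 y - S y / (y + 1)` and the last term tends to `0`),
and `G m - G y = ∑_{y ≤ d < m} S (d+1) (1/(d+1) - 1/(d+2)) ≤ 8 (1/(y+1) - 1/(m+1)) ≤ 8/(y+1)` for `m ≥ y`
(same induction as in `G_le`), hence `L0 - G y ≤ 8/(y+1)` and `|Lam 1 y - L0| ≤ 8/(y+1)`.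
Induction on `s` (`Finset.induction_on`, as in `tendsto_Lam`): `Lam_mul` gives
`Lam (P p) y = Lam P y - (χ(p)/p) Lam P (y / p)` (natural division), the limits satisfy the same relation, so the
error is `≤ C/(y+1) + (1/p) C/(y/p + 1)`, and `p (y/p + 1) ≥ y + 1` (natural numbers), so it is `≤ 2C/(y+1)`.
-/

set_option autoImplicit false

namespace Pool.Agent.Helper56.PX

open Finset Filter Topology Pool.Agent.Helper11.Sq

private lemma rate_G_sub (y m : ℕ) (h : y ≤ m) :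
    G m - G y ≤ 8 * (1 / ((y : ℝ) + 1) - 1 / ((m : ℝ) + 1)) := by
  induction m, h using Nat.le_induction with
  | base => simp
  | succ m hm ih =>
    have h0 : G (m + 1) = G m + (S (m + 1) : ℝ) * (1 / ((m : ℝ) + 1) - 1 / ((m : ℝ) + 2)) := by
      unfold G
      rw [Finset.sum_range_succ]
    have h1 : (S (m + 1) : ℝ) * (1 / ((m : ℝ) + 1) - 1 / ((m : ℝ) + 2)) ≤
        8 * (1 / ((m : ℝ) + 1) - 1 / ((m : ℝ) + 2)) :=
      mul_le_mul_of_nonneg_right (S_le _) (G_term_nonneg m)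
    rw [h0]
    push_cast
    have h5 : ((m : ℝ) + 1 + 1) = (m : ℝ) + 2 := by ring
    rw [h5]
    linarith

private lemma rate_one {L0 : ℝ} (hL : Tendsto (fun y => Lam 1 y) atTop (𝓝 L0)) (y : ℕ) :
    |Lam 1 y - L0| ≤ 8 / ((y : ℝ) + 1) := by
  have h2 : Tendsto (fun y : ℕ => (S y : ℝ) / ((y : ℝ) + 1)) atTop (𝓝 0) := by
    apply squeeze_zero (g := fun y : ℕ => 8 * (1 / ((y : ℝ) + 1)))
    · intro y
      exact div_nonneg (S_nonneg y) (by positivity)
    · intro y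
      rw [mul_one_div]
      gcongr
      exact S_le y
    · have := (tendsto_one_div_add_atTop_nhds_zero_nat (𝕜 := ℝ)).const_mul 8
      simpa using this
  have hG : Tendsto G atTop (𝓝 L0) := by
    have h3 := hL.sub h2
    rw [sub_zero] at h3
    refine h3.congr fun y => ?_
    rw [Lam_one_eq]
    ring
  have h3 : G y ≤ L0 := G_mono.ge_of_tendsto hG y
  have h4 : L0 ≤ G y + 8 / ((y : ℝ) + 1) := by
    refine le_of_tendsto hG ?_
    filter_upwards [eventually_ge_atTop y] with m hm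
    have h5 := rate_G_sub y m hm
    have h6 : 0 ≤ 1 / ((m : ℝ) + 1) := by positivity
    have h7 : 8 / ((y : ℝ) + 1) = 8 * (1 / ((y : ℝ) + 1)) := by ring
    rw [h7]
    linarith
  have h5 : 0 ≤ (S y : ℝ) / ((y : ℝ) + 1) := div_nonneg (S_nonneg y) (by positivity)
  have h6 : (S y : ℝ) / ((y : ℝ) + 1) ≤ 8 / ((y : ℝ) + 1) := by
    gcongr
    exact S_le y
  rw [Lam_one_eq, abs_le]
  constructor <;> linarith

theorem lam_rate {L0 : ℝ} (hL : Tendsto (fun y => Lam 1 y) atTop (𝓝 L0)) (s : Finset ℕ)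
    (hs : ∀ p ∈ s, p.Prime) : ∃ C : ℝ, 0 ≤ C ∧ ∀ y : ℕ,
      |Lam (∏ p ∈ s, p) y - L0 * ∏ p ∈ s, (1 - (chi p : ℝ) / p)| ≤ C / ((y : ℝ) + 1) := by
  induction s using Finset.induction_on with
  | empty =>
    refine ⟨8, by norm_num, fun y => ?_⟩
    rw [Finset.prod_empty, Finset.prod_empty, mul_one]
    exact rate_one hL y
  | insert p s hp ih =>
    have hpp := hs p (mem_insert_self _ _)
    have hs' : ∀ q ∈ s, q.Prime := fun q hq => hs q (mem_insert_of_mem hq)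
    have hnd : ¬ p ∣ ∏ q ∈ s, q := by
      intro h
      rw [hpp.prime.dvd_finsetProd_iff] at h
      obtain ⟨q, hq, hpq⟩ := h
      rw [(Nat.prime_dvd_prime_iff_eq hpp (hs' q hq)).1 hpq] at hp
      exact hp hq
    obtain ⟨C, hC0, hC⟩ := ih hs'
    refine ⟨2 * C, by positivity, fun y => ?_⟩
    rw [Finset.prod_insert hp, mul_comm p, Lam_mul hpp hnd,
      Finset.prod_insert (f := fun p => (1 - (chi p : ℝ) / p)) hp]
    set M : ℝ := L0 * ∏ q ∈ s, (1 - (chi q : ℝ) / q) with hM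
    have e : Lam (∏ q ∈ s, q) y - (chi p : ℝ) / p * Lam (∏ q ∈ s, q) (y / p) -
        L0 * ((1 - (chi p : ℝ) / p) * ∏ q ∈ s, (1 - (chi q : ℝ) / q)) =
        (Lam (∏ q ∈ s, q) y - M) - (chi p : ℝ) / p * (Lam (∏ q ∈ s, q) (y / p) - M) := by
      rw [hM]
      ring
    rw [e]
    have hp0 : (0 : ℝ) < p := by exact_mod_cast hpp.pos
    have hy0 : (0 : ℝ) < (y : ℝ) + 1 := by positivity
    have h1 := hC y
    have h2 := hC (y / p)
    have hfl : (y : ℝ) + 1 ≤ (p : ℝ) * (((y / p : ℕ) : ℝ) + 1) := by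
      have h3 : y + 1 ≤ p * (y / p + 1) := by
        have h4 := Nat.div_add_mod y p
        have h5 := Nat.mod_lt y hpp.pos
        have h6 : p * (y / p + 1) = p * (y / p) + p := by ring
        omega
      exact_mod_cast h3
    have h3 : |(chi p : ℝ) / p * (Lam (∏ q ∈ s, q) (y / p) - M)| ≤ C / ((y : ℝ) + 1) := by
      rw [abs_mul, abs_div, abs_of_pos hp0]
      have h4 : |(chi p : ℝ)| ≤ 1 := by exact_mod_cast abs_chi_le p
      have h5 : (0 : ℝ) < ((y / p : ℕ) : ℝ) + 1 := by positivity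
      calc |(chi p : ℝ)| / p * |Lam (∏ q ∈ s, q) (y / p) - M| ≤
          1 / p * (C / (((y / p : ℕ) : ℝ) + 1)) := by
            refine mul_le_mul ?_ h2 (abs_nonneg _) (by positivity)
            gcongr
        _ = C / ((p : ℝ) * (((y / p : ℕ) : ℝ) + 1)) := by
            rw [div_mul_div_comm, one_mul]
        _ ≤ C / ((y : ℝ) + 1) := by
            gcongr
    have h4 := abs_sub (Lam (∏ q ∈ s, q) y - M)
      ((chi p : ℝ) / p * (Lam (∏ q ∈ s, q) (y / p) - M))
    calc _ ≤ _ := h4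
      _ ≤ C / ((y : ℝ) + 1) + C / ((y : ℝ) + 1) := add_le_add h1 h3
      _ = 2 * C / ((y : ℝ) + 1) := by ring

end Pool.Agent.Helper56.PX
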