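import Mathlib
import Pool.Agent.Helper56.PX.Rate
import Pool.Agent.Helper56.PX.Dyadic

/-!
PX-27 Final. From residue classes to all integers.

PROOF. `cnt_power`: `exists_L0`, `mkData` with `w = 100` (`k₀ = kk 100 a`, `B = BB 100`, `L = LL L0 100`), `lam_rate` for
`s = pr 100` (`PP 100 = ∏ p ∈ pr 100, p`, `LL L0 100 = L0 * ∏ ...`, by definition), `hαβ`: a prime `p > 100` does not divide
a divisor of `14` or of `8`. `dyadic` and `class_power` with `θ = 23/24 + ε` give for every `a` a bound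
`badCount α β (PP 100) a 0 U ≤ C_a (U^θ + 1)`; as in `cnt_le` (Helper11/Sq/Final, same inclusion)
`cnt A N ≤ ∑_{a < P} badCount ... 0 (N / P + 1)` and `N / P + 1 ≤ 2 N` for `N ≥ 1`, so `≤ C (N^θ + 1)` (`N = 0`: `cnt = 0`).
`power_saving`: `cnt_exc N: cnt Exc N ≤ cnt A N + (cnt B N + cnt Exc (N/4+1))` with the two sets `A`, `B` of
`exc_density` (same file; copy the use of `caseA_chi`, `caseA_good`, `caseB_chi`, `caseB_good`), so
`cnt Exc N ≤ K (N^θ + 1) + cnt Exc (N/4 + 1)`. Let `θ = δ` minus something is not needed: take `ε = (δ - 23/24)/2`,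
`θ = 23/24 + ε < δ`; then by strong induction `cnt Exc N ≤ C₁ N^δ + C₂`: for `N ≥ N₁`,
`K (N^θ + 1) ≤ (C₁/4) N^δ` and `C₁ (N/4+1)^δ ≤ C₁ (N/2)^δ ≤ C₁ (3/4) N^δ` (`N ≥ 4`, `(1/2)^δ ≤ 3/4` as `δ > 1/2`). Finally
`C₂ ≤ C₂ N^δ` for `N ≥ 1`.
-/

set_option autoImplicit false

namespace Pool.Agent.Helper56.PX

open Finset Filter Pool.Agent.Helper11.Sq

private lemma prime_not_dvd {m p : ℕ} (hm : m ∣ 14 ∨ m ∣ 8) (h : 100 < p) :
    ¬ p ∣ m := by
  intro hd
  rcases hm with h1 | h1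
  · have := Nat.le_of_dvd (by norm_num) (hd.trans h1)
    omega
  · have := Nat.le_of_dvd (by norm_num) (hd.trans h1)
    omega

theorem cnt_power {α β : ℕ} (hα : α ∣ 14) (hβ : β ∣ 8) (A : ℕ → Prop)
    (hA : ∀ n, A n → ∀ k, Odd k → ¬ 7 ∣ k → β * k ^ 4 < α * n →
      chi (α * n - β * k ^ 4) = 1 ∧ ∑ d ∈ (α * n - β * k ^ 4).divisors, chi d = 0)
    {ε : ℝ} (hε : 0 < ε) :
    ∃ C : ℝ, 0 ≤ C ∧ ∀ N : ℕ, (cnt A N : ℝ) ≤ C * ((N : ℝ) ^ (23 / 24 + ε) + 1) := by
  classical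
  obtain ⟨L0, hL0, hL⟩ := exists_L0
  obtain ⟨C0, hC0, hrate⟩ : ∃ C : ℝ, 0 ≤ C ∧ ∀ y : ℕ,
      |Lam (PP 100) y - LL L0 100| ≤ C / ((y : ℝ) + 1) := by
    unfold PP LL
    exact lam_rate hL (pr 100) (fun p hp => (mem_pr.1 hp).2)
  set θ : ℝ := 23 / 24 + ε with hθ
  have hθ0 : 0 < θ := by positivity
  have h1 : ∀ a : ℕ, ∃ C : ℝ, 0 ≤ C ∧ ∀ U : ℕ,
      (badCount α β (PP 100) a 0 U : ℝ) ≤ C * ((U : ℝ) ^ θ + 1) := by
    intro a
    apply class_power hθ0
    exact dyadic (Nat.pos_of_dvd_of_pos hα (by norm_num))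
      (fun p _ h => ⟨prime_not_dvd (Or.inl hα) h, prime_not_dvd (Or.inr hβ) h⟩)
      (mkData (a := a) hα hβ (by norm_num) hL0 hL) hC0 hrate hε
  choose C hCn hC using h1
  have hP0 : 0 < PP 100 := PP_pos 100
  generalize PP 100 = P at hP0 hC
  refine ⟨∑ a ∈ range P, C a * 2 ^ θ, Finset.sum_nonneg fun a _ =>
    mul_nonneg (hCn a) (by positivity), ?_⟩
  intro N
  rcases Nat.eq_zero_or_pos N with hN | hN
  · have h2 : cnt A N = 0 := by
      rw [hN]
      unfold cnt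
      simp
    rw [h2]
    have h3 : (0 : ℝ) ≤ ∑ a ∈ range P, C a * 2 ^ θ := Finset.sum_nonneg fun a _ =>
      mul_nonneg (hCn a) (by positivity)
    push_cast
    positivity
  have h2 : cnt A N ≤ ∑ a ∈ range P, badCount α β P a 0 (N / P + 1) := by
    unfold cnt badCount
    have hsub : (range N).filter A ⊆ (range P).biUnion (fun a =>
        ((Ico 0 (N / P + 1)).filter (fun u => BadU α β P a u)).image (fun u => a + P * u)) := by
      intro n hn
      rw [mem_filter, mem_range] at hn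
      simp only [mem_biUnion, mem_image, mem_filter, mem_range, mem_Ico]
      refine ⟨n % P, Nat.mod_lt _ hP0, n / P, ⟨⟨Nat.zero_le _, ?_⟩, ?_⟩, Nat.mod_add_div n P⟩
      · exact Nat.lt_succ_of_le (Nat.div_le_div_right hn.1.le)
      · unfold BadU
        rw [Nat.mod_add_div n P]
        exact hA n hn.2
    refine (Finset.card_le_card hsub).trans (Finset.card_biUnion_le.trans ?_)
    apply Finset.sum_le_sum
    intro a _
    exact Finset.card_image_le
  have h3 : (cnt A N : ℝ) ≤ ∑ a ∈ range P, (badCount α β P a 0 (N / P + 1) : ℝ) := by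
    exact_mod_cast h2
  refine h3.trans ?_
  rw [Finset.sum_mul]
  apply Finset.sum_le_sum
  intro a _
  refine (hC a (N / P + 1)).trans ?_
  rw [mul_assoc]
  apply mul_le_mul_of_nonneg_left _ (hCn a)
  have h4 : ((N / P + 1 : ℕ) : ℝ) ≤ 2 * N := by
    have h5 : N / P ≤ N := Nat.div_le_self _ _
    have h6 : N / P + 1 ≤ 2 * N := by omega
    exact_mod_cast h6
  have h5 : ((N / P + 1 : ℕ) : ℝ) ^ θ ≤ (2 * (N : ℝ)) ^ θ :=
    Real.rpow_le_rpow (by positivity) h4 hθ0.le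
  rw [Real.mul_rpow (by norm_num) (by positivity)] at h5
  have h6 : (1 : ℝ) ≤ 2 ^ θ := Real.one_le_rpow (by norm_num) hθ0.le
  linarith

theorem power_saving {δ : ℝ} (hδ : 23 / 24 < δ) :
    ∃ C : ℝ, ∀ N : ℕ, 1 ≤ N → (cnt Exc N : ℝ) ≤ C * (N : ℝ) ^ δ := by
  set ε : ℝ := (δ - 23 / 24) / 2 with hε
  have hε0 : 0 < ε := by
    rw [hε]
    linarith
  have hδ0 : 0 < δ := by linarith
  obtain ⟨C₁, hC₁0, hC₁⟩ := cnt_power (α := 14) (β := 1) (by norm_num) (by norm_num)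
    (fun n => (n % 8 = 1 ∨ n % 8 = 2 ∨ n % 8 = 5 ∨ n % 8 = 6) ∧ ¬ Good n)
    (by
      rintro n ⟨hn, hG⟩ k hk h7 hlt
      refine ⟨caseA_chi hn hk h7 hlt, ?_⟩
      by_contra hcon
      exact hG (caseA_good hn hk h7 hlt hcon)) hε0
  obtain ⟨C₂, hC₂0, hC₂⟩ := cnt_power (α := 7) (β := 8) (by norm_num) (by norm_num)
    (fun n => n % 8 = 3 ∧ ¬ Good n)
    (by
      rintro n ⟨hn, hG⟩ k hk h7 hlt
      refine ⟨caseB_chi hn h7 hlt, ?_⟩
      by_contra hcon
      exact hG (caseB_good hn h7 hlt hcon)) hε0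
  set K := C₁ + C₂ with hK
  have hK0 : 0 ≤ K := by positivity
  have hev : ∀ᶠ N : ℕ in atTop, K * ((N : ℝ) ^ (23 / 24 + ε) + 1) ≤ 1 / 4 * (N : ℝ) ^ δ := by
    have h1 : Tendsto (fun N : ℕ => (N : ℝ) ^ ε) atTop atTop :=
      (tendsto_rpow_atTop hε0).comp tendsto_natCast_atTop_atTop
    filter_upwards [h1.eventually_ge_atTop (8 * K), eventually_ge_atTop 1] with N h2 h3
    have hN : (1 : ℝ) ≤ N := by exact_mod_cast h3
    have h4 : (N : ℝ) ^ δ = (N : ℝ) ^ (23 / 24 + ε) * (N : ℝ) ^ ε := by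
      rw [← Real.rpow_add (by linarith)]
      congr 1
      rw [hε]
      ring
    have h5 : 1 ≤ (N : ℝ) ^ (23 / 24 + ε) := Real.one_le_rpow hN (by positivity)
    rw [h4]
    nlinarith
  obtain ⟨N₀, hN₀⟩ := eventually_atTop.1 hev
  set N₁ := max N₀ 4 with hN₁
  have hmain : ∀ N : ℕ, (cnt Exc N : ℝ) ≤ (N : ℝ) ^ δ + N₁ := by
    intro N
    induction N using Nat.strong_induction_on with
    | _ N ih =>
      by_cases hN : N < N₁
      · have h1 : (cnt Exc N : ℝ) ≤ N := by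
          have : cnt Exc N ≤ N := by
            classical
            unfold cnt
            refine (Finset.card_filter_le _ _).trans ?_
            simp
          exact_mod_cast this
        have h2 : (N : ℝ) ≤ N₁ := by exact_mod_cast hN.le
        have h3 : 0 ≤ (N : ℝ) ^ δ := by positivity
        linarith
      · push Not at hN
        have hN4 : 4 ≤ N := (le_max_right _ _).trans hN
        have hN4r : (4 : ℝ) ≤ N := by exact_mod_cast hN4
        have h1 := ih (N / 4 + 1) (by omega)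
        have h2 := cnt_exc N
        have h3 : (cnt Exc N : ℝ) ≤
          cnt (fun n => (n % 8 = 1 ∨ n % 8 = 2 ∨ n % 8 = 5 ∨ n % 8 = 6) ∧ ¬ Good n) N +
          (cnt (fun n => n % 8 = 3 ∧ ¬ Good n) N + cnt Exc (N / 4 + 1)) := by exact_mod_cast h2
        have h4 := hC₁ N
        have h5 := hC₂ N
        have h6 := hN₀ N ((le_max_left _ _).trans hN)
        rw [hK, add_mul] at h6
        have h7 : ((N / 4 + 1 : ℕ) : ℝ) ≤ 1 / 2 * N := by
          have h8 : ((N / 4 : ℕ) : ℝ) ≤ (N : ℝ) / 4 := by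
            have := Nat.cast_div_le (α := ℝ) (m := N) (n := 4)
            simpa using this
          push_cast
          linarith
        have h8 : ((N / 4 + 1 : ℕ) : ℝ) ^ δ ≤ 3 / 4 * (N : ℝ) ^ δ := by
          refine (Real.rpow_le_rpow (by positivity) h7 hδ0.le).trans ?_
          rw [Real.mul_rpow (by norm_num) (by positivity)]
          apply mul_le_mul_of_nonneg_right _ (by positivity)
          have h9 : (1 / 2 : ℝ) ^ δ ≤ (1 / 2 : ℝ) ^ (1 / 2 : ℝ) :=
            Real.rpow_le_rpow_of_exponent_ge (by norm_num) (by norm_num) (by linarith)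
          refine h9.trans ?_
          rw [← Real.sqrt_eq_rpow, Real.sqrt_le_left (by norm_num)]
          norm_num
        linarith
  refine ⟨1 + N₁, fun N hN => (hmain N).trans ?_⟩
  have hN1 : (1 : ℝ) ≤ N := by exact_mod_cast hN
  have h1 : 1 ≤ (N : ℝ) ^ δ := Real.one_le_rpow hN1 hδ0.le
  have h2 : (0 : ℝ) ≤ N₁ := Nat.cast_nonneg _
  nlinarith

end Pool.Agent.Helper56.PX
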